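import Mathlib

/-!
Weighted templates for edge-colourings of complete graphs which cannot be almost covered by
few monochromatic cycles, and their blow-ups.
-/

namespace Run7.h436

open Finset

/-- A weighted template for `s` colours and `s` cycles.  `P` is the set of clusters, `w` gives
their relative sizes, `D p q` is the colour of the edges between the clusters `p` and `q`
(inside `p` if `p = q`), `K p q` names the monochromatic component that contains these edges.
The condition `hall` says that no `s` monochromatic components contain a fractional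
perfect matching for the weight `w`. -/
structure Template (s : ℕ) where
  /-- clusters -/
  P : Type
  /-- monochromatic components -/
  T : Type
  [fP : Fintype P]
  [dP : DecidableEq P]
  [fT : Fintype T]
  [dT : DecidableEq T]
  w : P → ℕ
  D : P → P → Fin s
  K : P → P → T
  symmD : ∀ p q, D p q = D q p
  compat : ∀ p q r, D p q = D q r → K p q = K q r
  hall : ∀ F : Finset T, F.card ≤ s → ∃ I J : Finset P,
    (∀ p ∈ I, ∀ q, K p q ∈ F → q ∈ J) ∧ ∑ q ∈ J, w q < ∑ p ∈ I, w p

attribute [instance] Template.fP Template.dP Template.fT Template.dT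

/-- The weights of the 8-cluster template. -/
def w8 : Fin 8 → ℕ := ![20, 12, 20, 4, 2, 2, 2, 1]

/-- The colours of the 8-cluster template. -/
def D8 : Fin 8 → Fin 8 → Fin 4 :=
  ![![3, 0, 1, 0, 0, 1, 3, 2],
    ![0, 3, 3, 0, 2, 2, 2, 1],
    ![1, 3, 3, 1, 2, 2, 2, 0],
    ![0, 0, 1, 0, 0, 1, 3, 2],
    ![0, 2, 2, 0, 2, 2, 2, 1],
    ![1, 2, 2, 1, 2, 1, 2, 0],
    ![3, 2, 2, 3, 2, 2, 3, 1],
    ![2, 1, 0, 2, 1, 0, 1, 2]]

/-- The components of the 8-cluster template. -/
def K8 : Fin 8 → Fin 8 → Fin 8 :=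
  ![![6, 0, 2, 0, 0, 2, 6, 4],
    ![0, 7, 7, 0, 5, 5, 5, 3],
    ![2, 7, 7, 2, 5, 5, 5, 1],
    ![0, 0, 2, 0, 0, 2, 6, 4],
    ![0, 5, 5, 0, 5, 5, 5, 3],
    ![2, 5, 5, 2, 5, 2, 5, 1],
    ![6, 5, 5, 6, 5, 5, 6, 3],
    ![4, 3, 1, 4, 3, 1, 3, 4]]

theorem symmD8 : ∀ p q, D8 p q = D8 q p := by decide

theorem compat8 : ∀ p q r, D8 p q = D8 q r → K8 p q = K8 q r := by decide +kernel

theorem hall8 : ∀ F : Finset (Fin 8), F.card ≤ 4 →
    ∃ I ∈ ({{7}, {0}, {0, 3}, {1, 2}, {0, 1, 2, 3, 4, 5, 6}} : Finset (Finset (Fin 8))),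
    ∑ q ∈ univ.filter (fun q => ∃ p ∈ I, K8 p q ∈ F), w8 q < ∑ p ∈ I, w8 p := by
  decide +kernel

/-- The 8-cluster template for four colours. -/
def template4 : Template 4 where
  P := Fin 8
  T := Fin 8
  w := w8
  D := D8
  K := K8
  symmD := symmD8
  compat := compat8
  hall := fun F hF => by
    obtain ⟨I, _, hI⟩ := hall8 F hF
    exact ⟨I, _, fun p hp q hq => Finset.mem_filter.mpr ⟨Finset.mem_univ _, p, hp, hq⟩, hI⟩

/-- Colours of the extended template. -/
def stepD {P : Type} {s : ℕ} (D : P → P → Fin s) : Option P → Option P → Fin (s + 1)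
  | some p, some q => (D p q).castSucc
  | _, _ => Fin.last s

/-- Components of the extended template. -/
def stepK {P T : Type} (K : P → P → T) : Option P → Option P → Option T
  | some p, some q => some (K p q)
  | _, _ => none

theorem castSucc_ne_last' {s : ℕ} (x : Fin s) : x.castSucc ≠ Fin.last s :=
  ne_of_lt (Fin.castSucc_lt_last x)

/-- Adding one small cluster with one new colour to a template. -/
def Template.step {s : ℕ} (t : Template s) : Template (s + 1) where
  P := Option t.P
  T := Option t.T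
  w := fun p => p.elim 1 (fun q => 2 * t.w q)
  D := stepD t.D
  K := stepK t.K
  symmD := by
    rintro (_ | p) (_ | q)
    · rfl
    · rfl
    · rfl
    · exact congrArg Fin.castSucc (t.symmD p q)
  compat := by
    rintro (_ | p) (_ | q) (_ | r) h
    · rfl
    · rfl
    · rfl
    · exact absurd h.symm (castSucc_ne_last' _)
    · rfl
    · rfl
    · exact absurd h (castSucc_ne_last' _)
    · exact congrArg some (t.compat p q r (Fin.castSucc_injective _ h))
  hall := by
    intro F hF
    by_cases hn : none ∈ F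
    · -- use the old template
      have h1 : F.eraseNone.card + 1 ≤ F.card := by
        have h2 : (F.eraseNone.map Function.Embedding.some) ⊆ F.erase none := by
          intro x hx
          simp only [Finset.mem_map, Function.Embedding.some_apply] at hx
          obtain ⟨y, hy, rfl⟩ := hx
          simp at hy
          simp [hy]
        have h3 := Finset.card_le_card h2
        rw [Finset.card_map, Finset.card_erase_of_mem hn] at h3
        have := Finset.card_pos.mpr ⟨_, hn⟩
        omega
      obtain ⟨I, J, hIJ, hlt⟩ := t.hall (F.eraseNone) (by omega)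
      refine ⟨I.map Function.Embedding.some, insert none (J.map Function.Embedding.some), ?_, ?_⟩
      · intro p hp q hq
        simp only [Finset.mem_map, Function.Embedding.some_apply] at hp
        obtain ⟨p', hp', rfl⟩ := hp
        rcases q with _ | q
        · simp
        · simp only [Finset.mem_insert, reduceCtorEq, false_or, Finset.mem_map,
            Function.Embedding.some_apply, Option.some.injEq, exists_eq_right]
          exact hIJ p' hp' q (by simpa [stepK] using hq)
      · rw [Finset.sum_insert (by simp), Finset.sum_map, Finset.sum_map]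
        simp only [Option.elim_none, Function.Embedding.some_apply, Option.elim_some]
        rw [← Finset.mul_sum, ← Finset.mul_sum]
        omega
    · refine ⟨{none}, ∅, ?_, by simp⟩
      intro p hp q hq
      simp only [Finset.mem_singleton] at hp
      subst hp
      exact absurd hq (by rcases q with _ | q <;> simpa [stepK] using hn)

/-- There are templates for every number `s ≥ 4` of colours. -/
theorem exists_template (s : ℕ) (hs : 4 ≤ s) : Nonempty (Template s) := by
  induction s, hs using Nat.le_induction with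
  | base => exact ⟨template4⟩
  | succ s _ ih => exact ih.map Template.step

/-- `X` is the vertex set of a cycle that is monochromatic for the edge colouring `col`, or
has at most one vertex. -/
def MonoCyc {V C : Type*} [DecidableEq V] (col : V → V → C) (X : Finset V) : Prop :=
  X.card ≤ 1 ∨ ∃ (c : C) (ℓ : ℕ) (v : ℕ → V), 0 < ℓ ∧ Set.InjOn v (Set.Iio ℓ) ∧ v ℓ = v 0 ∧
    X = (Finset.range ℓ).image v ∧ ∀ i < ℓ, col (v i) (v (i + 1)) = c

theorem cyc_count {V : Type*} [DecidableEq V] {s : ℕ} (t : Template s) (f : V → t.P)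
    {X : Finset V} (hX : MonoCyc (fun x y => t.D (f x) (f y)) X) :
    X.card ≤ 1 ∨ ∃ κ : t.T, ∀ I J : Finset t.P, (∀ p ∈ I, ∀ q, t.K p q = κ → q ∈ J) →
      (X.filter (fun x => f x ∈ I)).card ≤ (X.filter (fun x => f x ∈ J)).card := by
  rcases hX with h | ⟨c, ℓ, v, hℓ, hinj, hper, hXv, hcol⟩
  · exact Or.inl h
  right
  -- all edges of the cycle lie in the same component
  have hconst : ∀ i, i < ℓ → t.K (f (v i)) (f (v (i + 1))) = t.K (f (v 0)) (f (v 1)) := by
    intro i
    induction i with
    | zero => intro _; rfl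
    | succ i ih =>
      intro hi
      rw [← ih (by omega)]
      exact (t.compat _ _ _ ((hcol i (by omega)).trans (hcol (i + 1) hi).symm)).symm
  refine ⟨t.K (f (v 0)) (f (v 1)), fun I J hIJ => ?_⟩
  have hA : X.filter (fun x => f x ∈ I) =
      ((Finset.range ℓ).filter (fun i => f (v i) ∈ I)).image v := by
    rw [hXv]
    ext x
    simp only [Finset.mem_filter, Finset.mem_image, Finset.mem_range]
    constructor
    · rintro ⟨⟨i, hi, rfl⟩, h⟩
      exact ⟨i, ⟨hi, h⟩, rfl⟩
    · rintro ⟨i, ⟨hi, h⟩, rfl⟩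
      exact ⟨⟨i, hi, rfl⟩, h⟩
  rw [hA]
  refine le_trans Finset.card_image_le ?_
  refine Finset.card_le_card_of_injOn (fun i => v (i + 1)) ?_ ?_
  · intro i hi
    rw [Finset.mem_coe, Finset.mem_filter, Finset.mem_range] at hi
    rw [Finset.mem_coe, Finset.mem_filter]
    refine ⟨?_, hIJ _ hi.2 _ (hconst i hi.1)⟩
    rw [hXv, Finset.mem_image]
    by_cases h : i + 1 < ℓ
    · exact ⟨i + 1, Finset.mem_range.mpr h, rfl⟩
    · have : i + 1 = ℓ := by omega
      exact ⟨0, Finset.mem_range.mpr hℓ, by show v 0 = v (i + 1); rw [this, hper]⟩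
  · intro i hi j hj hij
    rw [Finset.mem_coe, Finset.mem_filter, Finset.mem_range] at hi hj
    simp only at hij
    have hi1 := hi.1
    have hj1 := hj.1
    by_cases h1 : i + 1 = ℓ
    · by_cases h2 : j + 1 = ℓ
      · omega
      · exfalso
        rw [h1, hper] at hij
        have := hinj (show (0 : ℕ) ∈ Set.Iio ℓ from hℓ)
          (show j + 1 ∈ Set.Iio ℓ from Set.mem_Iio.mpr (by omega)) hij
        omega
    · by_cases h2 : j + 1 = ℓ
      · exfalso
        rw [h2, hper] at hij
        have := hinj (show i + 1 ∈ Set.Iio ℓ from Set.mem_Iio.mpr (by omega))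
          (show (0 : ℕ) ∈ Set.Iio ℓ from hℓ) hij
        omega
      · have := hinj (show i + 1 ∈ Set.Iio ℓ from Set.mem_Iio.mpr (by omega))
          (show j + 1 ∈ Set.Iio ℓ from Set.mem_Iio.mpr (by omega)) hij
        omega

/-- The counting inequality behind the blow-up. -/
theorem blowup_count {V : Type*} [Fintype V] [DecidableEq V] {s : ℕ} (t : Template s)
    (f : V → t.P) {m : ℕ} (hm : m ≤ s) (X : Fin m → Finset V)
    (hX : ∀ j, MonoCyc (fun x y => t.D (f x) (f y)) (X j))
    (hd : ∀ i j, i ≠ j → Disjoint (X i) (X j)) :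
    ∃ I J : Finset t.P, ∑ q ∈ J, t.w q < ∑ p ∈ I, t.w p ∧
      (univ.filter (fun x => f x ∈ I)).card ≤
        (univ \ univ.biUnion X).card + (univ.filter (fun x => f x ∈ J)).card + s := by
  classical
  have hX' : ∀ j, ∃ G : Finset t.T, G.card ≤ 1 ∧ ∀ I J : Finset t.P,
      (∀ p ∈ I, ∀ q, t.K p q ∈ G → q ∈ J) →
      ((X j).filter (fun x => f x ∈ I)).card ≤ ((X j).filter (fun x => f x ∈ J)).card + 1 := by
    intro j
    rcases cyc_count t f (hX j) with h | ⟨κ, hκ⟩
    · exact ⟨∅, by simp, fun I J _ => (Finset.card_filter_le _ _).trans (by omega)⟩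
    · exact ⟨{κ}, by simp, fun I J hIJ =>
        (hκ I J (fun p hp q hq => hIJ p hp q (by simp [hq]))).trans (Nat.le_succ _)⟩
  choose G hG1 hG2 using hX'
  -- the set of components used
  have hF : (univ.biUnion G).card ≤ s := by
    have := Finset.card_biUnion_le_card_mul univ G 1 (fun j _ => hG1 j)
    simp only [Finset.card_univ, Fintype.card_fin, mul_one] at this
    omega
  obtain ⟨I, J, hIJ, hlt⟩ := t.hall _ hF
  refine ⟨I, J, hlt, ?_⟩
  set A := univ.filter (fun x => f x ∈ I) with hA
  set B := univ.filter (fun x => f x ∈ J) with hB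
  have h1 : A ⊆ (univ \ univ.biUnion X) ∪ univ.biUnion (fun j => (X j).filter (fun x => f x ∈ I)) := by
    intro x hx
    rw [hA, Finset.mem_filter] at hx
    by_cases hxX : x ∈ univ.biUnion X
    · obtain ⟨j, hj, hxj⟩ := Finset.mem_biUnion.mp hxX
      exact Finset.mem_union_right _ (Finset.mem_biUnion.mpr ⟨j, hj, Finset.mem_filter.mpr ⟨hxj, hx.2⟩⟩)
    · exact Finset.mem_union_left _ (Finset.mem_sdiff.mpr ⟨Finset.mem_univ _, hxX⟩)
  have h2 : A.card ≤ (univ \ univ.biUnion X).card +
      ∑ j, ((X j).filter (fun x => f x ∈ I)).card :=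
    (Finset.card_le_card h1).trans ((Finset.card_union_le _ _).trans
      (Nat.add_le_add_left Finset.card_biUnion_le _))
  have h3 : ∑ j, ((X j).filter (fun x => f x ∈ I)).card ≤
      ∑ j, (((X j).filter (fun x => f x ∈ J)).card + 1) :=
    Finset.sum_le_sum (fun j _ => hG2 j I J (fun p hp q hq => hIJ p hp q
      (Finset.mem_biUnion.mpr ⟨j, Finset.mem_univ _, hq⟩)))
  have h4 : ∑ j, ((X j).filter (fun x => f x ∈ J)).card ≤ B.card := by
    rw [← Finset.card_biUnion]
    · apply Finset.card_le_card
      intro x hx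
      obtain ⟨j, _, hxj⟩ := Finset.mem_biUnion.mp hx
      rw [hB, Finset.mem_filter]
      exact ⟨Finset.mem_univ _, (Finset.mem_filter.mp hxj).2⟩
    · intro i _ j _ hij
      exact Finset.disjoint_filter_filter (hd i j hij)
  rw [Finset.sum_add_distrib] at h3
  simp only [Finset.sum_const, Finset.card_univ, Fintype.card_fin, smul_eq_mul, mul_one] at h3
  omega

/-- Splitting `n` vertices into clusters of sizes proportional to the weights. -/
theorem exists_clusters {P : Type} [Fintype P] [DecidableEq P] (w : P → ℕ) (p0 : P) (n : ℕ) :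
    ∃ f : Fin n → P, ∀ I : Finset P,
      (n / ∑ p, w p) * ∑ p ∈ I, w p ≤ (univ.filter (fun x => f x ∈ I)).card ∧
      (univ.filter (fun x => f x ∈ I)).card ≤
        (n / ∑ p, w p) * ∑ p ∈ I, w p + (n % ∑ p, w p) := by
  set W := ∑ p, w p with hW
  set N := n / W with hN
  have hcard : Fintype.card (Fin n) =
      Fintype.card ((Σ p, Fin (N * w p)) ⊕ Fin (n % W)) := by
    rw [Fintype.card_sum, Fintype.card_sigma]
    simp only [Fintype.card_fin]
    rw [← Finset.mul_sum, ← hW, hN, mul_comm]
    exact (Nat.div_add_mod n W).symm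
  let e := Fintype.equivOfCardEq hcard
  refine ⟨fun x => Sum.elim (fun y => y.1) (fun _ => p0) (e x), fun I => ⟨?_, ?_⟩⟩
  · have h1 : (I.sigma (fun p => (univ : Finset (Fin (N * w p))))).card = N * ∑ p ∈ I, w p := by
      rw [Finset.card_sigma, Finset.mul_sum]
      simp
    rw [← h1]
    refine Finset.card_le_card_of_injOn (fun y => e.symm (Sum.inl y)) ?_ ?_
    · intro y hy
      rw [Finset.mem_coe, Finset.mem_sigma] at hy
      rw [Finset.mem_coe, Finset.mem_filter]
      refine ⟨Finset.mem_univ _, ?_⟩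
      show Sum.elim (fun y => y.1) (fun _ => p0) (e (e.symm (Sum.inl y))) ∈ I
      rw [Equiv.apply_symm_apply]
      exact hy.1
    · intro y _ z _ hyz
      exact Sum.inl_injective (e.symm.injective hyz)
  · have h1 : ((I.sigma (fun p => (univ : Finset (Fin (N * w p))))).disjSum
        (univ : Finset (Fin (n % W)))).card = N * ∑ p ∈ I, w p + n % W := by
      rw [Finset.card_disjSum, Finset.card_sigma, Finset.mul_sum]
      simp
    rw [← h1]
    refine Finset.card_le_card_of_injOn (fun x => e x) ?_ (e.injective.injOn)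
    intro x hx
    rw [Finset.mem_coe, Finset.mem_filter] at hx
    rw [Finset.mem_coe, Finset.mem_disjSum]
    rcases h : e x with y | z
    · left
      refine ⟨y, Finset.mem_sigma.mpr ⟨?_, Finset.mem_univ _⟩, h.symm⟩
      have h2 : Sum.elim (fun y : (p : P) × Fin (N * w p) => y.1) (fun _ => p0) (e x) ∈ I := hx.2
      rw [h] at h2
      exact h2
    · right
      exact ⟨z, Finset.mem_univ _, h.symm⟩

/-- **Main theorem on symmetric colourings.**  For every `s ≥ 4` there is `W > 0` such that for
every `n` there is a symmetric `s`-colouring of the pairs of `n` vertices such that any at most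
`s` disjoint monochromatic cycles leave at least `n / W - W - s` vertices uncovered. -/
theorem exists_colouring (s : ℕ) (hs : 4 ≤ s) : ∃ W : ℕ, 0 < W ∧ ∀ n : ℕ,
    ∃ col : Fin n → Fin n → Fin s, (∀ x y, col x y = col y x) ∧
      ∀ (m : ℕ) (X : Fin m → Finset (Fin n)), m ≤ s → (∀ j, MonoCyc col (X j)) →
        (∀ i j, i ≠ j → Disjoint (X i) (X j)) →
        n / W ≤ (univ \ univ.biUnion X).card + W + s := by
  obtain ⟨t⟩ := exists_template s hs
  obtain ⟨I₀, J₀, -, h0⟩ := t.hall ∅ (by simp)
  have hI₀ : ∃ p, p ∈ I₀ := by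
    by_contra h
    rw [Finset.eq_empty_of_forall_notMem (fun p hp => h ⟨p, hp⟩)] at h0
    simp at h0
  obtain ⟨p0, -⟩ := hI₀
  have hW : 0 < ∑ p, t.w p :=
    lt_of_lt_of_le (lt_of_le_of_lt (Nat.zero_le _) h0)
      (Finset.sum_le_sum_of_subset (Finset.subset_univ I₀))
  refine ⟨∑ p, t.w p, hW, fun n => ?_⟩
  obtain ⟨f, hf⟩ := exists_clusters t.w p0 n
  refine ⟨fun x y => t.D (f x) (f y), fun x y => t.symmD _ _, ?_⟩
  intro m X hm hX hd
  obtain ⟨I, J, hlt, hc⟩ := blowup_count t f hm X hX hd
  have h1 := (hf I).1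
  have h2 := (hf J).2
  have h3 : n % (∑ p, t.w p) < ∑ p, t.w p := Nat.mod_lt _ hW
  set W := ∑ p, t.w p
  set N := n / W
  have h4 : N * (∑ q ∈ J, t.w q) + N ≤ N * (∑ p ∈ I, t.w p) := by
    have := Nat.mul_le_mul_left N (Nat.succ_le_of_lt hlt)
    rwa [Nat.mul_succ] at this
  omega

/-- A symmetric function of two vertices is a function of the pair. -/
theorem exists_pair_colouring {V C : Type*} [DecidableEq V] [Nonempty C] (col : V → V → C)
    (hsymm : ∀ x y, col x y = col y x) :
    ∃ χ : Finset V → C, ∀ x y, x ≠ y → χ {x, y} = col x y := by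
  classical
  refine ⟨fun e => if h : ∃ p : V × V, p.1 ≠ p.2 ∧ e = {p.1, p.2} then
    col h.choose.1 h.choose.2 else Classical.arbitrary C, fun x y hxy => ?_⟩
  have h : ∃ p : V × V, p.1 ≠ p.2 ∧ ({x, y} : Finset V) = {p.1, p.2} := ⟨(x, y), hxy, rfl⟩
  simp only
  rw [dif_pos h]
  obtain ⟨hne, heq⟩ := h.choose_spec
  set p := h.choose
  have h1 : p.1 ∈ ({x, y} : Finset V) := by rw [heq]; simp
  have h2 : p.2 ∈ ({x, y} : Finset V) := by rw [heq]; simp
  rw [Finset.mem_insert, Finset.mem_singleton] at h1 h2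
  rcases h1 with h1 | h1 <;> rcases h2 with h2 | h2
  · exact absurd (h1.trans h2.symm) hne
  · rw [h1, h2]
  · rw [h1, h2, hsymm]
  · exact absurd (h1.trans h2.symm) hne

end Run7.h436
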