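import Mathlib

set_option autoImplicit false

namespace Run7.h436.KArbTwo

open Finset

/-- `T` is a spanning arborescence rooted at `r0` of the digraph with arcs `A` -/
def IsArb {V A : Type} (tail head : A → V) (r0 : V) (T : Finset A) : Prop :=
  (∀ a ∈ T, head a ≠ r0) ∧ (∀ v : V, v ≠ r0 → ∃! a : A, a ∈ T ∧ head a = v) ∧
    (∀ v : V, Relation.ReflTransGen (fun x y : V => ∃ a ∈ T, tail a = x ∧ head a = y) r0 v)

/-- the statement of Q1 for given `k`, `l`, vertex set `V`, root `r0`, and all digraphs on `V` in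
which every arc of positive capacity goes from some `x` to some `y` with `P x y` -/
def HoldsFor (V : Type) (r0 : V) (P : V → V → Prop) (k l : ℕ) : Prop :=
  ∀ (A : Type) [Fintype A] [DecidableEq A] (tail head : A → V) (c : A → ℕ),
    (∀ a, 0 < c a → P (tail a) (head a)) → (∀ a, c a ≤ l) →
    (∃ T : Fin (k * l) → Finset A, (∀ i, IsArb tail head r0 (T i)) ∧
      ∀ a, (univ.filter (fun i => a ∈ T i)).card ≤ c a) →
    ∃ B : Fin l → Fin k → Finset A, (∀ i j, IsArb tail head r0 (B i j)) ∧
      (∀ i, ∀ j j', j ≠ j' → Disjoint (B i j) (B i j')) ∧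
      ∀ a, (univ.filter (fun p : Fin l × Fin k => a ∈ B p.1 p.2)).card ≤ c a

open Classical in
/-- as `HoldsFor`, but only for capacities whose sum over the arcs entering any vertex other than
the root is exactly `k * l` -/
def HoldsTight (V : Type) (r0 : V) (P : V → V → Prop) (k l : ℕ) : Prop :=
  ∀ (A : Type) [Fintype A] [DecidableEq A] (tail head : A → V) (c : A → ℕ),
    (∀ a, 0 < c a → P (tail a) (head a)) → (∀ a, c a ≤ l) →
    (∀ v, v ≠ r0 → ∑ a ∈ univ.filter (fun a => head a = v), c a = k * l) →
    (∃ T : Fin (k * l) → Finset A, (∀ i, IsArb tail head r0 (T i)) ∧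
      ∀ a, (univ.filter (fun i => a ∈ T i)).card ≤ c a) →
    ∃ B : Fin l → Fin k → Finset A, (∀ i j, IsArb tail head r0 (B i j)) ∧
      (∀ i, ∀ j j', j ≠ j' → Disjoint (B i j) (B i j')) ∧
      ∀ a, (univ.filter (fun p : Fin l × Fin k => a ∈ B p.1 p.2)).card ≤ c a

/-- number of sets of a class containing the arc -/
def mult {A : Type} [DecidableEq A] {k : ℕ} (B : Fin k → Finset A) (a : A) : ℕ :=
  ∑ j, if a ∈ B j then 1 else 0

theorem arith (q r x y X Y : ℕ) (hr : r ≤ 1) (hx : x ≤ q + r) (hy : y ≤ q + r) (hxy : x + y ≤ 2 * q + r)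
    (hXY : X + Y = 2 * q + r) : x ^ 2 + y ^ 2 ≤ X ^ 2 + Y ^ 2 := by
  have hr' : r = 0 ∨ r = 1 := by omega
  rcases hr' with rfl | rfl
  · have h1 : x ^ 2 + y ^ 2 ≤ q ^ 2 + q ^ 2 := by nlinarith
    have h2 : q ^ 2 + q ^ 2 ≤ X ^ 2 + Y ^ 2 := by
      rcases le_total X q with h | h
      · obtain ⟨d, rfl⟩ := Nat.exists_eq_add_of_le h
        have : Y = X + d + d := by omega
        subst this
        nlinarith [Nat.zero_le (d * d)]
      · obtain ⟨d, rfl⟩ := Nat.exists_eq_add_of_le h
        have : q = Y + d := by omega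
        subst this
        nlinarith [Nat.zero_le (d * d)]
    omega
  · have h1 : x ^ 2 + y ^ 2 ≤ q ^ 2 + (q + 1) ^ 2 := by
      by_cases h : x ≤ q
      · nlinarith
      · have : y ≤ q := by omega
        nlinarith
    have h2 : q ^ 2 + (q + 1) ^ 2 ≤ X ^ 2 + Y ^ 2 := by
      by_cases h : X ≤ q
      · obtain ⟨d, rfl⟩ := Nat.exists_eq_add_of_le h
        have : Y = X + d + d + 1 := by omega
        subst this
        nlinarith [Nat.zero_le (d * d)]
      · have h' : Y ≤ q := by omega
        obtain ⟨d, rfl⟩ := Nat.exists_eq_add_of_le h'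
        have : X = Y + d + d + 1 := by omega
        subst this
        nlinarith [Nat.zero_le (d * d)]
    omega

theorem arith_lt (q r x y : ℕ) (hr : r ≤ 1) (hx : x ≤ q + r) (hy : y ≤ q + r) (hxy : x + y ≤ 2 * q + r)
    (h2 : 2 ≤ 2 * q + r) : x ^ 2 + y ^ 2 < (2 * q + r) ^ 2 + 0 ^ 2 := by
  have h := arith q r x y q (q + r) hr hx hy hxy (by omega)
  have hq : 1 ≤ q := by omega
  nlinarith

theorem sum_two {n : ℕ} (i j : Fin n) (hij : i ≠ j) (g h : Fin n → ℕ)
    (heq : ∀ x, x ≠ i → x ≠ j → g x = h x) :
    ∃ R, ∑ x, g x = g i + g j + R ∧ ∑ x, h x = h i + h j + R := by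
  refine ⟨∑ x ∈ (univ.erase i).erase j, g x, ?_, ?_⟩
  · rw [← Finset.add_sum_erase univ g (mem_univ i),
      ← Finset.add_sum_erase (univ.erase i) g (mem_erase.mpr ⟨hij.symm, mem_univ j⟩)]
    ring
  · rw [← Finset.add_sum_erase univ h (mem_univ i),
      ← Finset.add_sum_erase (univ.erase i) h (mem_erase.mpr ⟨hij.symm, mem_univ j⟩)]
    have : ∑ x ∈ (univ.erase i).erase j, h x = ∑ x ∈ (univ.erase i).erase j, g x := by
      apply Finset.sum_congr rfl
      intro x hx
      simp only [mem_erase, mem_univ, and_true] at hx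
      exact (heq x hx.2 hx.1).symm
    rw [this]
    ring

theorem rtg_mono {V : Type} (r q : V → V → Prop) (h : ∀ x y, r x y → q x y) (x y : V)
    (hxy : Relation.ReflTransGen r x y) : Relation.ReflTransGen q x y := by
  induction hxy with
  | refl => exact Relation.ReflTransGen.refl
  | tail _ h2 ih => exact Relation.ReflTransGen.tail ih (h _ _ h2)

/-- the image of an arborescence of a digraph with copies -/
theorem isArb_fst {V A S : Type} [DecidableEq A] (tail head : A → V) (r0 : V) (T : Finset (A × S))
    (h : IsArb (fun p : A × S => tail p.1) (fun p => head p.1) r0 T) :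
    IsArb tail head r0 (T.image Prod.fst) := by
  obtain ⟨h1, h2, h3⟩ := h
  refine ⟨?_, ?_, ?_⟩
  · intro a ha
    obtain ⟨p, hp, rfl⟩ := mem_image.mp ha
    exact h1 p hp
  · intro v hv
    obtain ⟨p, ⟨hp1, hp2⟩, hp3⟩ := h2 v hv
    refine ⟨p.1, ⟨mem_image.mpr ⟨p, hp1, rfl⟩, hp2⟩, ?_⟩
    rintro b ⟨hb1, hb2⟩
    obtain ⟨p', hp', rfl⟩ := mem_image.mp hb1
    rw [hp3 p' ⟨hp', hb2⟩]
  · intro v
    refine rtg_mono _ _ ?_ _ _ (h3 v)
    rintro x y ⟨p, hp, hp1, hp2⟩
    exact ⟨p.1, mem_image.mpr ⟨p, hp, rfl⟩, hp1, hp2⟩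

/-- lifting an arborescence to copies -/
theorem isArb_lift {V A S : Type} [DecidableEq A] [DecidableEq S] (tail head : A → V) (r0 : V) (T : Finset A)
    (s : A → S) (h : IsArb tail head r0 T) :
    IsArb (fun p : A × S => tail p.1) (fun p => head p.1) r0 (T.image (fun a => (a, s a))) := by
  obtain ⟨h1, h2, h3⟩ := h
  refine ⟨?_, ?_, ?_⟩
  · intro p hp
    obtain ⟨a, ha, rfl⟩ := mem_image.mp hp
    exact h1 a ha
  · intro v hv
    obtain ⟨a, ⟨ha1, ha2⟩, ha3⟩ := h2 v hv
    refine ⟨(a, s a), ⟨mem_image.mpr ⟨a, ha1, rfl⟩, ha2⟩, ?_⟩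
    rintro p ⟨hp1, hp2⟩
    obtain ⟨b, hb, rfl⟩ := mem_image.mp hp1
    rw [ha3 b ⟨hb, hp2⟩]
  · intro v
    refine rtg_mono _ _ ?_ _ _ (h3 v)
    rintro x y ⟨a, ha, ha1, ha2⟩
    exact ⟨(a, s a), mem_image.mpr ⟨a, ha, rfl⟩, ha1, ha2⟩

/-- splitting the uses of an arc between copies of capacity two -/
theorem copies {n : ℕ} (P : Fin n → Prop) [DecidablePred P] (M : ℕ)
    (hM : (univ.filter P).card ≤ M) (s : ℕ) :
    (univ.filter (fun t => P t ∧ (univ.filter (fun t' => P t' ∧ t' < t)).card / 2 = s)).card ≤
      if s < M / 2 then 2 else if s = M / 2 then M % 2 else 0 := by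
  have hlt : ∀ t, P t → (univ.filter (fun t' => P t' ∧ t' < t)).card < M := by
    intro t ht
    refine lt_of_lt_of_le (card_lt_card ?_) hM
    rw [Finset.ssubset_iff_of_subset]
    · exact ⟨t, by simp [ht], by simp⟩
    · intro x hx
      simp only [mem_filter, mem_univ, true_and] at hx ⊢
      exact hx.1
  have hmono : ∀ t1 t2, P t1 → t1 < t2 → (univ.filter (fun t' => P t' ∧ t' < t1)).card <
      (univ.filter (fun t' => P t' ∧ t' < t2)).card := by
    intro t1 t2 h1 h12
    apply card_lt_card
    rw [Finset.ssubset_iff_of_subset]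
    · exact ⟨t1, by simp [h1, h12], by simp⟩
    · intro x hx
      simp only [mem_filter, mem_univ, true_and] at hx ⊢
      exact ⟨hx.1, lt_trans hx.2 h12⟩
  have hcard : (univ.filter (fun t => P t ∧ (univ.filter (fun t' => P t' ∧ t' < t)).card / 2 = s)).card ≤
      ((Finset.range M).filter (fun ρ => ρ / 2 = s)).card := by
    apply card_le_card_of_injOn (fun t => (univ.filter (fun t' => P t' ∧ t' < t)).card)
    · intro t ht
      have ht' : P t ∧ (univ.filter (fun t' => P t' ∧ t' < t)).card / 2 = s := by simpa using ht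
      have := hlt t ht'.1
      simp only [coe_filter, Set.mem_ofPred_eq, mem_range]
      exact ⟨this, ht'.2⟩
    · intro t1 h1 t2 h2 h
      have h1' : P t1 ∧ (univ.filter (fun t' => P t' ∧ t' < t1)).card / 2 = s := by simpa using h1
      have h2' : P t2 ∧ (univ.filter (fun t' => P t' ∧ t' < t2)).card / 2 = s := by simpa using h2
      have h' : (univ.filter (fun t' => P t' ∧ t' < t1)).card = (univ.filter (fun t' => P t' ∧ t' < t2)).card := h
      rcases lt_trichotomy t1 t2 with hlt | heq | hgt
      · have := hmono t1 t2 h1'.1 hlt; omega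
      · exact heq
      · have := hmono t2 t1 h2'.1 hgt; omega
  refine le_trans hcard ?_
  split_ifs with c1 c2
  · have : (Finset.range M).filter (fun ρ => ρ / 2 = s) ⊆ {2 * s, 2 * s + 1} := by
      intro ρ hρ
      simp only [mem_filter, mem_range, mem_insert, mem_singleton] at hρ ⊢
      omega
    exact le_trans (card_le_card this) card_le_two
  · have hr : M % 2 = 0 ∨ M % 2 = 1 := by omega
    rcases hr with hr | hr
    · rw [hr]
      have : (Finset.range M).filter (fun ρ => ρ / 2 = s) = ∅ := by
        rw [filter_eq_empty_iff]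
        intro ρ hρ h
        rw [mem_range] at hρ
        omega
      rw [this]
      simp
    · rw [hr]
      have : (Finset.range M).filter (fun ρ => ρ / 2 = s) ⊆ {2 * s} := by
        intro ρ hρ
        simp only [mem_filter, mem_range, mem_singleton] at hρ ⊢
        omega
      exact le_trans (card_le_card this) (by simp)
  · have : (Finset.range M).filter (fun ρ => ρ / 2 = s) = ∅ := by
      rw [filter_eq_empty_iff]
      intro ρ hρ h
      rw [mem_range] at hρ
      omega
    rw [this]
    simp

/-- rebalancing two classes -/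
theorem rebalance (V : Type) (r0 : V) (P : V → V → Prop) (k : ℕ) (h2 : HoldsTight V r0 P k 2)
    (A : Type) [Fintype A] [DecidableEq A] (tail head : A → V)
    (B1 B2 : Fin k → Finset A) (hB1 : ∀ j, IsArb tail head r0 (B1 j)) (hB2 : ∀ j, IsArb tail head r0 (B2 j))
    (hP : ∀ a, 0 < mult B1 a + mult B2 a → P (tail a) (head a)) :
    ∃ C1 C2 : Fin k → Finset A, (∀ j, IsArb tail head r0 (C1 j)) ∧ (∀ j, IsArb tail head r0 (C2 j)) ∧
      ∀ a, mult C1 a + mult C2 a ≤ mult B1 a + mult B2 a ∧
        mult C1 a ≤ (mult B1 a + mult B2 a) / 2 + (mult B1 a + mult B2 a) % 2 ∧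
        mult C2 a ≤ (mult B1 a + mult B2 a) / 2 + (mult B1 a + mult B2 a) % 2 := by
  classical
  set M : A → ℕ := fun a => mult B1 a + mult B2 a with hM
  have hmk : ∀ (B : Fin k → Finset A) a, mult B a ≤ k := by
    intro B a
    unfold mult
    calc _ ≤ ∑ _j : Fin k, 1 := Finset.sum_le_sum (fun j _ => by split_ifs <;> omega)
      _ = k := by simp
  have hMk : ∀ a, M a / 2 ≤ k := by
    intro a
    have h1 := hmk B1 a
    have h2 := hmk B2 a
    simp only [hM]
    omega
  let F : Fin (k * 2) → Finset A := fun t =>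
    if (finProdFinEquiv.symm t : Fin k × Fin 2).2 = 0 then B1 (finProdFinEquiv.symm t : Fin k × Fin 2).1
    else B2 (finProdFinEquiv.symm t : Fin k × Fin 2).1
  have hF : ∀ t, IsArb tail head r0 (F t) := by
    intro t
    simp only [F]
    split_ifs
    · exact hB1 _
    · exact hB2 _
  have hFM : ∀ a, (univ.filter (fun t => a ∈ F t)).card = M a := by
    intro a
    rw [Finset.card_filter]
    rw [← (finProdFinEquiv : Fin k × Fin 2 ≃ Fin (k * 2)).sum_comp]
    rw [Fintype.sum_prod_type]
    simp only [F, Equiv.symm_apply_apply, Fin.sum_univ_two, hM, mult]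
    rw [← Finset.sum_add_distrib]
    apply Finset.sum_congr rfl
    intro x _
    simp
  let rkk : A → Fin (k * 2) → ℕ := fun a t => (univ.filter (fun t' => a ∈ F t' ∧ t' < t)).card
  let c' : A × Fin (k + 1) → ℕ := fun p => if p.2.val < M p.1 / 2 then 2 else if p.2.val = M p.1 / 2 then M p.1 % 2 else 0
  have hrkk : ∀ a t, a ∈ F t → rkk a t / 2 < k + 1 := by
    intro a t ht
    have : rkk a t < M a := by
      rw [← hFM a]
      apply card_lt_card
      rw [Finset.ssubset_iff_of_subset]
      · exact ⟨t, by simp [ht], by simp⟩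
      · intro x hx
        simp only [mem_filter, mem_univ, true_and] at hx ⊢
        exact hx.1
    have := hMk a
    omega
  let s : Fin (k * 2) → A → Fin (k + 1) := fun t a => Fin.ofNat (k + 1) (rkk a t / 2)
  have hs : ∀ a t, a ∈ F t → (s t a).val = rkk a t / 2 := by
    intro a t ht
    simp only [s]
    exact Nat.mod_eq_of_lt (hrkk a t ht)
  have hcsum : ∀ a, ∑ x : Fin (k + 1), c' (a, x) = M a := by
    intro a
    have h1 := hMk a
    have h3 : ∑ x : Fin (k + 1), c' (a, x) = ∑ x ∈ Finset.range (k + 1),
        (if x < M a / 2 then 2 else if x = M a / 2 then M a % 2 else 0) := by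
      rw [Finset.sum_range]
    rw [h3]
    have h4 : ∀ n, M a / 2 < n → ∑ x ∈ Finset.range n,
        (if x < M a / 2 then 2 else if x = M a / 2 then M a % 2 else 0) = M a := by
      intro n hn
      obtain ⟨d, rfl⟩ := Nat.exists_eq_add_of_lt hn
      rw [show M a / 2 + d + 1 = (M a / 2 + 1) + d by ring, Finset.sum_range_add, Finset.sum_range_succ]
      have e1 : ∑ x ∈ Finset.range (M a / 2), (if x < M a / 2 then 2 else if x = M a / 2 then M a % 2 else 0)
          = 2 * (M a / 2) := by
        rw [Finset.sum_congr rfl (g := fun _ => 2) (fun x hx => if_pos (mem_range.mp hx))]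
        simp [mul_comm]
      have e2 : ∑ x ∈ Finset.range d, (if M a / 2 + 1 + x < M a / 2 then 2 else
          if M a / 2 + 1 + x = M a / 2 then M a % 2 else 0) = 0 := by
        apply Finset.sum_eq_zero
        intro x _
        rw [if_neg (by omega), if_neg (by omega)]
      rw [e1, e2, if_neg (lt_irrefl _), if_pos rfl]
      omega
    exact h4 _ (by omega)
  have htight : ∀ v, v ≠ r0 → ∑ p ∈ univ.filter (fun p : A × Fin (k + 1) => head p.1 = v), c' p = k * 2 := by
    intro v hv
    rw [Finset.sum_filter, Fintype.sum_prod_type]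
    have e1 : ∀ a : A, (∑ x : Fin (k + 1), if head a = v then c' (a, x) else 0) =
        ∑ t : Fin (k * 2), if (a ∈ F t ∧ head a = v) then 1 else 0 := by
      intro a
      by_cases h : head a = v
      · simp only [h, if_true, and_true]
        rw [hcsum a, ← hFM a, Finset.card_filter]
      · simp [h]
    rw [Finset.sum_congr rfl (fun a _ => e1 a), Finset.sum_comm]
    have e2 : ∀ t, ∑ a : A, (if a ∈ F t ∧ head a = v then 1 else 0) = 1 := by
      intro t
      obtain ⟨a, ha, hu⟩ := (hF t).2.1 v hv
      rw [← Finset.card_filter, Finset.card_eq_one]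
      refine ⟨a, ?_⟩
      ext b
      simp only [mem_filter, mem_univ, true_and, mem_singleton]
      exact ⟨fun hb => hu b hb, fun hb => by rw [hb]; exact ha⟩
    rw [Finset.sum_congr rfl (fun t _ => e2 t)]
    simp
  obtain ⟨B', hB', hdis, hcap⟩ := h2 (A × Fin (k + 1)) (fun p => tail p.1) (fun p => head p.1) c'
    (by
      intro p hp
      apply hP
      show 0 < M p.1
      by_contra hcon
      have h0 : M p.1 = 0 := by omega
      simp only [c', h0] at hp
      split_ifs at hp <;> omega)
    (by
      intro p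
      simp only [c']
      split_ifs <;> omega)
    htight
    ⟨fun t => (F t).image (fun a => (a, s t a)), fun t => isArb_lift tail head r0 (F t) (s t) (hF t), by
      rintro ⟨a, x⟩
      refine le_trans (card_le_card ?_) (copies (fun t => a ∈ F t) (M a) (le_of_eq (hFM a)) x.val)
      intro t ht
      simp only [mem_filter, mem_univ, true_and, mem_image, Prod.mk.injEq] at ht ⊢
      obtain ⟨b, hb, rfl, hx⟩ := ht
      refine ⟨hb, ?_⟩
      rw [← hx, hs b t hb]⟩
  have hcap' : ∀ p, ∑ i : Fin 2, mult (B' i) p ≤ c' p := by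
    intro p
    have := hcap p
    rw [Finset.card_filter, Fintype.sum_prod_type] at this
    exact this
  -- in one class a copy is used at most once
  have hone : ∀ i : Fin 2, ∀ p, mult (B' i) p ≤ 1 := by
    intro i p
    by_contra hcon
    unfold mult at hcon
    rw [← Finset.card_filter] at hcon
    have h1 : 1 < (univ.filter (fun j => p ∈ B' i j)).card := by omega
    obtain ⟨j, hj, j', hj', hjj⟩ := Finset.one_lt_card.mp h1
    simp only [mem_filter, mem_univ, true_and] at hj hj'
    exact Finset.disjoint_left.mp (hdis i j j' hjj) hj hj'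
  have hsum : ∀ i : Fin 2, ∀ a, mult (fun j => (B' i j).image Prod.fst) a ≤ ∑ x, mult (B' i) (a, x) := by
    intro i a
    unfold mult
    rw [Finset.sum_comm]
    apply Finset.sum_le_sum
    intro j _
    split_ifs with h
    · obtain ⟨p, hp, rfl⟩ := mem_image.mp h
      calc 1 = (if (p.1, p.2) ∈ B' i j then 1 else 0) := by rw [if_pos hp]
        _ ≤ _ := Finset.single_le_sum (f := fun x => if (p.1, x) ∈ B' i j then 1 else 0)
            (fun _ _ => Nat.zero_le _) (mem_univ p.2)
    · exact Nat.zero_le _
  refine ⟨fun j => (B' 0 j).image Prod.fst, fun j => (B' 1 j).image Prod.fst,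
    fun j => isArb_fst tail head r0 _ (hB' 0 j), fun j => isArb_fst tail head r0 _ (hB' 1 j), ?_⟩
  intro a
  have hbound : ∀ i : Fin 2, mult (fun j => (B' i j).image Prod.fst) a ≤ M a / 2 + M a % 2 := by
    intro i
    refine le_trans (hsum i a) ?_
    have h1 := hMk a
    calc ∑ x : Fin (k + 1), mult (B' i) (a, x)
        ≤ ∑ x : Fin (k + 1), (if x.val < M a / 2 + M a % 2 then 1 else 0) := by
          apply Finset.sum_le_sum
          intro x _
          split_ifs with h
          · exact hone i _
          · have h5 := hcap' (a, x)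
            rw [Fin.sum_univ_two] at h5
            have h6 : c' (a, x) = 0 := by
              simp only [c']
              have : ¬ x.val < M a / 2 := by omega
              rw [if_neg this]
              split_ifs with h7
              · omega
              · rfl
            have h8 : i = 0 ∨ i = 1 := by omega
            rcases h8 with rfl | rfl <;> omega
      _ = ∑ x ∈ Finset.range (k + 1), (if x < M a / 2 + M a % 2 then 1 else 0) := by
          rw [Finset.sum_range]
      _ ≤ M a / 2 + M a % 2 := by
          rw [← Finset.card_filter]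
          calc _ ≤ (Finset.range (M a / 2 + M a % 2)).card := by
                apply card_le_card
                intro x hx
                simp only [mem_filter, mem_range] at hx ⊢
                exact hx.2
            _ = _ := by simp
  refine ⟨?_, hbound 0, hbound 1⟩
  calc _ ≤ ∑ x, mult (B' 0) (a, x) + ∑ x, mult (B' 1) (a, x) := Nat.add_le_add (hsum 0 a) (hsum 1 a)
    _ = ∑ x, (mult (B' 0) (a, x) + mult (B' 1) (a, x)) := by rw [Finset.sum_add_distrib]
    _ ≤ ∑ x, c' (a, x) := by
        apply Finset.sum_le_sum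
        intro x _
        have := hcap' (a, x)
        rw [Fin.sum_univ_two] at this
        exact this
    _ ≤ M a := le_of_eq (hcsum a)

/-- a class system obeying the capacities -/
def Valid {V A : Type} [DecidableEq A] (tail head : A → V) (r0 : V) (c : A → ℕ) {k l : ℕ}
    (B : Fin l → Fin k → Finset A) : Prop :=
  (∀ i j, IsArb tail head r0 (B i j)) ∧ ∀ a, ∑ i, mult (B i) a ≤ c a

theorem balanced (V : Type) (r0 : V) (P : V → V → Prop) (k l : ℕ) (h2 : HoldsTight V r0 P k 2)
    (A : Type) [Fintype A] [DecidableEq A] (tail head : A → V) (c : A → ℕ)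
    (hP : ∀ a, 0 < c a → P (tail a) (head a)) (hc : ∀ a, c a ≤ l) :
    ∀ (n : ℕ) (B : Fin l → Fin k → Finset A), Valid tail head r0 c B →
      ∑ a, ∑ i, (mult (B i) a) ^ 2 ≤ n →
      ∃ B' : Fin l → Fin k → Finset A, Valid tail head r0 c B' ∧ ∀ i a, mult (B' i) a ≤ 1 := by
  classical
  intro n
  induction n using Nat.strong_induction_on with
  | _ n ih =>
    intro B hB hn
    by_cases hall : ∀ i a, mult (B i) a ≤ 1
    · exact ⟨B, hB, hall⟩
    push Not at hall
    obtain ⟨i, a0, hi⟩ := hall
    -- a class without the arc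
    have hj : ∃ j, mult (B j) a0 = 0 := by
      by_contra hcon
      push Not at hcon
      have h1 : ∑ x : Fin l, 1 < ∑ x, mult (B x) a0 := by
        apply Finset.sum_lt_sum
        · intro x _
          have := hcon x
          omega
        · exact ⟨i, mem_univ i, hi⟩
      have h3 := hB.2 a0
      have h4 := hc a0
      simp only [Finset.sum_const, Finset.card_univ, Fintype.card_fin, smul_eq_mul, mul_one] at h1
      omega
    obtain ⟨j, hj⟩ := hj
    have hij : i ≠ j := by
      rintro rfl
      omega
    obtain ⟨C1, C2, hC1, hC2, hC⟩ := rebalance V r0 P k h2 A tail head (B i) (B j)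
      (fun y => hB.1 i y) (fun y => hB.1 j y) (by
        intro a ha
        apply hP
        refine lt_of_lt_of_le ha (le_trans ?_ (hB.2 a))
        obtain ⟨R, hR1, _⟩ := sum_two i j hij (fun x => mult (B x) a) (fun x => mult (B x) a)
          (fun _ _ _ => rfl)
        rw [hR1]
        omega)
    let B' : Fin l → Fin k → Finset A := fun x => if x = i then C1 else if x = j then C2 else B x
    have hBi : B' i = C1 := by simp [B']
    have hBj : B' j = C2 := by simp [B', hij.symm]
    have hBx : ∀ x, x ≠ i → x ≠ j → B' x = B x := by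
      intro x h1 h3
      simp [B', h1, h3]
    have hval : Valid tail head r0 c B' := by
      refine ⟨?_, ?_⟩
      · intro x y
        by_cases h1 : x = i
        · rw [h1, hBi]; exact hC1 y
        · by_cases h3 : x = j
          · rw [h3, hBj]; exact hC2 y
          · rw [hBx x h1 h3]; exact hB.1 x y
      · intro a
        obtain ⟨R, hR1, hR2⟩ := sum_two i j hij (fun x => mult (B' x) a) (fun x => mult (B x) a)
          (fun x h1 h3 => by simp only [hBx x h1 h3])
        have h5 := hB.2 a
        rw [hR2] at h5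
        rw [hR1]
        simp only [hBi, hBj]
        have := (hC a).1
        omega
    have hlt : ∑ a, ∑ x, (mult (B' x) a) ^ 2 < ∑ a, ∑ x, (mult (B x) a) ^ 2 := by
      apply Finset.sum_lt_sum
      · intro a _
        obtain ⟨R, hR1, hR2⟩ := sum_two i j hij (fun x => (mult (B' x) a) ^ 2) (fun x => (mult (B x) a) ^ 2)
          (fun x h1 h3 => by simp only [hBx x h1 h3])
        rw [hR1, hR2]
        simp only [hBi, hBj]
        obtain ⟨h5, h6, h7⟩ := hC a
        have := arith ((mult (B i) a + mult (B j) a) / 2) ((mult (B i) a + mult (B j) a) % 2)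
          (mult C1 a) (mult C2 a) (mult (B i) a) (mult (B j) a) (by omega) h6 h7 (by omega) (by omega)
        omega
      · refine ⟨a0, mem_univ a0, ?_⟩
        obtain ⟨R, hR1, hR2⟩ := sum_two i j hij (fun x => (mult (B' x) a0) ^ 2) (fun x => (mult (B x) a0) ^ 2)
          (fun x h1 h3 => by simp only [hBx x h1 h3])
        rw [hR1, hR2]
        simp only [hBi, hBj]
        obtain ⟨h5, h6, h7⟩ := hC a0
        have h8 := arith_lt ((mult (B i) a0 + mult (B j) a0) / 2) ((mult (B i) a0 + mult (B j) a0) % 2)
          (mult C1 a0) (mult C2 a0) (by omega) h6 h7 (by omega) (by omega)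
        have h9 : 2 * ((mult (B i) a0 + mult (B j) a0) / 2) + (mult (B i) a0 + mult (B j) a0) % 2 =
          mult (B i) a0 := by omega
        rw [h9] at h8
        rw [hj]
        omega
    exact ih _ (lt_of_lt_of_le hlt hn) B' hval le_rfl

/-- Q1 for two classes implies Q1 for any number of classes -/
theorem main (V : Type) (r0 : V) (P : V → V → Prop) (k : ℕ) (h2 : HoldsTight V r0 P k 2) (l : ℕ) :
    HoldsFor V r0 P k l := by
  intro A _ _ tail head c hP hc hT
  obtain ⟨T, hT1, hT2⟩ := hT
  let B0 : Fin l → Fin k → Finset A := fun i j => T (finProdFinEquiv (j, i))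
  have hv : Valid tail head r0 c B0 := by
    refine ⟨fun i j => hT1 _, ?_⟩
    intro a
    have h := hT2 a
    rw [Finset.card_filter, ← (finProdFinEquiv : Fin k × Fin l ≃ Fin (k * l)).sum_comp,
      Fintype.sum_prod_type, Finset.sum_comm] at h
    exact h
  obtain ⟨B, hB, hone⟩ := balanced V r0 P k l h2 A tail head c hP hc _ B0 hv le_rfl
  refine ⟨B, hB.1, ?_, ?_⟩
  · intro i j j' hjj
    rw [Finset.disjoint_left]
    intro a ha ha'
    have h1 := hone i a
    unfold mult at h1
    rw [← Finset.card_filter] at h1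
    have h3 : 1 < (univ.filter (fun j => a ∈ B i j)).card := by
      rw [Finset.one_lt_card]
      exact ⟨j, by simp [ha], j', by simp [ha'], hjj⟩
    omega
  · intro a
    rw [Finset.card_filter, Fintype.sum_prod_type]
    exact hB.2 a

end Run7.h436.KArbTwo
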