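import Mathlib
import Pool.Agent.Run7.h436.KArbTwo

set_option autoImplicit false

namespace Run7.h436.KArbTwo

open Finset

/-- one step along an allowed pair, avoiding the root -/
def St {V : Type} (r0 : V) (P : V → V → Prop) (x y : V) : Prop := P x y ∧ x ≠ r0 ∧ y ≠ r0

/-- `K` is a strong component of the digraph of the allowed pairs without the root -/
def IsComp {V : Type} (r0 : V) (P : V → V → Prop) (K : V → Prop) : Prop :=
  ∃ v, v ≠ r0 ∧ ∀ w, K w ↔ (w ≠ r0 ∧ Relation.ReflTransGen (St r0 P) v w ∧
    Relation.ReflTransGen (St r0 P) w v)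

theorem components (V : Type) [Fintype V] (r0 : V) (P : V → V → Prop) (k l : ℕ)
    (h : ∀ K, IsComp r0 P K → HoldsFor V r0 (fun x y => x = r0 ∨ (K x ∧ K y ∧ P x y)) k l) :
    HoldsFor V r0 P k l := by
  classical
  intro A _ _ tail head c hP hc hT
  obtain ⟨T, hT1, hT2⟩ := hT
  let tl : (V → Prop) → A → V := fun K a => if K (head a) ∧ K (tail a) then tail a else r0
  have hlift : ∀ K t, IsArb (tl K) head r0 (T t) := by
    intro K t
    obtain ⟨h1, h2, h3⟩ := hT1 t
    refine ⟨h1, h2, ?_⟩
    intro v
    induction h3 v with
    | refl => exact Relation.ReflTransGen.refl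
    | tail _ hs ih =>
      obtain ⟨a, ha, e1, e2⟩ := hs
      by_cases hK : K (head a) ∧ K (tail a)
      · exact ih.tail ⟨a, ha, by simp only [tl, if_pos hK]; exact e1, e2⟩
      · exact Relation.ReflTransGen.single ⟨a, ha, by simp only [tl, if_neg hK], e2⟩
  have hsol : ∀ K, IsComp r0 P K → ∃ B : Fin l → Fin k → Finset A,
      (∀ i j, IsArb (tl K) head r0 (B i j)) ∧
      (∀ i, ∀ j j', j ≠ j' → Disjoint (B i j) (B i j')) ∧
      ∀ a, (univ.filter (fun p : Fin l × Fin k => a ∈ B p.1 p.2)).card ≤ c a := by
    intro K hK
    refine h K hK A (tl K) head c ?_ hc ⟨T, fun i => hlift K i, hT2⟩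
    intro a ha
    by_cases hK : K (head a) ∧ K (tail a)
    · right
      simp only [tl, if_pos hK]
      exact ⟨hK.2, hK.1, hP a ha⟩
    · left
      simp only [tl, if_neg hK]
  choose! Bf hBf1 hBf2 hBf3 using hsol
  let Kv : V → V → Prop := fun v w => w ≠ r0 ∧ Relation.ReflTransGen (St r0 P) v w ∧
    Relation.ReflTransGen (St r0 P) w v
  have hcomp : ∀ v, v ≠ r0 → IsComp r0 P (Kv v) := fun v hv => ⟨v, hv, fun w => Iff.rfl⟩
  have hself : ∀ v, v ≠ r0 → Kv v v := fun v hv => ⟨hv, Relation.ReflTransGen.refl, Relation.ReflTransGen.refl⟩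
  have hKeq : ∀ v w, Kv v w → Kv w = Kv v := by
    intro v w hvw
    funext z
    apply propext
    constructor
    · intro hz
      exact ⟨hz.1, hvw.2.1.trans hz.2.1, hz.2.2.trans hvw.2.2⟩
    · intro hz
      exact ⟨hz.1, hvw.2.2.trans hz.2.1, hz.2.2.trans hvw.2.1⟩
  have hcpos : ∀ K, IsComp r0 P K → ∀ i j a, a ∈ Bf K i j → 0 < c a := by
    intro K hK i j a ha
    refine lt_of_lt_of_le ?_ (hBf3 K hK a)
    exact card_pos.mpr ⟨(i, j), by simp [ha]⟩
  let B : Fin l → Fin k → Finset A := fun i j =>
    univ.filter (fun a => head a ≠ r0 ∧ a ∈ Bf (Kv (head a)) i j)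
  have hB : ∀ i j a, a ∈ B i j ↔ head a ≠ r0 ∧ a ∈ Bf (Kv (head a)) i j := by
    intro i j a
    simp [B]
  refine ⟨B, ?_, ?_, ?_⟩
  · intro i j
    refine ⟨fun a ha => ((hB i j a).mp ha).1, ?_, ?_⟩
    · intro v hv
      obtain ⟨a, ⟨ha1, ha2⟩, ha3⟩ := (hBf1 (Kv v) (hcomp v hv) i j).2.1 v hv
      refine ⟨a, ⟨(hB i j a).mpr ⟨by rw [ha2]; exact hv, by rw [ha2]; exact ha1⟩, ha2⟩, ?_⟩
      rintro b ⟨hb1, hb2⟩
      have := ((hB i j b).mp hb1).2
      rw [hb2] at this
      exact ha3 b ⟨this, hb2⟩
    · have key : ∀ (n : ℕ) (v : V), v ≠ r0 →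
          (univ.filter (fun w => Relation.ReflTransGen (St r0 P) w v)).card ≤ n →
          Relation.ReflTransGen (fun x y : V => ∃ a ∈ B i j, tail a = x ∧ head a = y) r0 v := by
        intro n
        induction n using Nat.strong_induction_on with
        | _ n ih =>
          intro v hv hn
          have hpath := (hBf1 (Kv v) (hcomp v hv) i j).2.2
          have inner : ∀ y, Relation.ReflTransGen
              (fun x y : V => ∃ a ∈ Bf (Kv v) i j, tl (Kv v) a = x ∧ head a = y) r0 y → Kv v y →
              Relation.ReflTransGen (fun x y : V => ∃ a ∈ B i j, tail a = x ∧ head a = y) r0 y := by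
            intro y hy
            induction hy with
            | refl => intro hr; exact absurd rfl hr.1
            | @tail b d _ hs ih2 =>
              intro hd
              obtain ⟨a, ha, e1, e2⟩ := hs
              have hdr : head a ≠ r0 := by rw [e2]; exact hd.1
              have haB : a ∈ B i j := by
                refine (hB i j a).mpr ⟨hdr, ?_⟩
                rw [e2, hKeq v d hd]
                exact ha
              have hca := hcpos _ (hcomp v hv) i j a ha
              by_cases hK : Kv v (head a) ∧ Kv v (tail a)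
              · have e3 : tail a = b := by
                  have := e1
                  simp only [tl, if_pos hK] at this
                  exact this
                exact (ih2 (by rw [← e3]; exact hK.2)).tail ⟨a, haB, e3, e2⟩
              · have hnt : ¬ Kv v (tail a) := fun h5 => hK ⟨by rw [e2]; exact hd, h5⟩
                by_cases hr : tail a = r0
                · exact Relation.ReflTransGen.single ⟨a, haB, hr, e2⟩
                · have hst : St r0 P (tail a) (head a) := ⟨hP a hca, hr, hdr⟩
                  have hto : Relation.ReflTransGen (St r0 P) (tail a) v := by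
                    refine Relation.ReflTransGen.head hst ?_
                    rw [e2]
                    exact hd.2.2
                  have hlt : (univ.filter (fun w => Relation.ReflTransGen (St r0 P) w (tail a))).card <
                      (univ.filter (fun w => Relation.ReflTransGen (St r0 P) w v)).card := by
                    apply card_lt_card
                    rw [Finset.ssubset_iff_of_subset]
                    · refine ⟨v, by simp [Relation.ReflTransGen.refl], ?_⟩
                      simp only [mem_filter, mem_univ, true_and]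
                      intro h6
                      exact hnt ⟨hr, h6, hto⟩
                    · intro w hw
                      simp only [mem_filter, mem_univ, true_and] at hw ⊢
                      exact hw.trans hto
                  exact (ih _ (lt_of_lt_of_le hlt hn) (tail a) hr le_rfl).tail ⟨a, haB, rfl, e2⟩
          exact inner v (hpath v) (hself v hv)
      intro v
      by_cases hv : v = r0
      · rw [hv]
      · exact key _ v hv le_rfl
  · intro i j j' hjj
    rw [Finset.disjoint_left]
    intro a ha ha'
    obtain ⟨h1, h2⟩ := (hB i j a).mp ha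
    obtain ⟨_, h3⟩ := (hB i j' a).mp ha'
    exact Finset.disjoint_left.mp (hBf2 _ (hcomp _ h1) i j j' hjj) h2 h3
  · intro a
    by_cases hr : head a = r0
    · have : (univ.filter (fun p : Fin l × Fin k => a ∈ B p.1 p.2)) = ∅ := by
        rw [filter_eq_empty_iff]
        intro p _ hp
        exact ((hB _ _ a).mp hp).1 hr
      rw [this]
      simp
    · refine le_trans (card_le_card ?_) (hBf3 _ (hcomp _ hr) a)
      intro p hp
      simp only [mem_filter, mem_univ, true_and] at hp ⊢
      exact ((hB _ _ a).mp hp).2

theorem main2 (V : Type) [Fintype V] (r0 : V) (P : V → V → Prop) (k : ℕ)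
    (h : ∀ K, IsComp r0 P K → HoldsTight V r0 (fun x y => x = r0 ∨ (K x ∧ K y ∧ P x y)) k 2) (l : ℕ) :
    HoldsFor V r0 P k l :=
  components V r0 P k l (fun K hK => main V r0 _ k (h K hK) l)

end Run7.h436.KArbTwo
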