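import Mathlib

set_option autoImplicit false

namespace Run7.h436.KArb

/-- the arithmetic of the hexagon on a circle of length `2N` -/
theorem offsets (N a0 b0 a1 b1 a2 b2 : ℕ) (h1 : b0 + a2 ≤ N) (h2 : b2 + a1 ≤ N)
    (h3 : b1 + a0 ≤ N) (hs : a0 + b0 + a1 + b1 + a2 + b2 ≤ 2 * N) :
    ∃ θ1 θ2 : ℕ, a0 + b0 ≤ θ2 ∧ θ2 + a2 ≤ N + a0 ∧ θ2 + a2 + b2 ≤ θ1 ∧
      θ1 + a1 ≤ N + θ2 + a2 ∧ θ1 + a1 + b1 ≤ 2 * N ∧ N + a0 ≤ θ1 + a1 := by
  set S := 2 * N - (a0 + b0 + a1 + b1 + a2 + b2) with hS
  set H1 := N - (b0 + a2) with hH1
  set H2 := N - (b2 + a1) with hH2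
  refine ⟨a0 + b0 + min H1 S + a2 + b2 + min H2 (S - min H1 S), a0 + b0 + min H1 S, ?_, ?_, ?_, ?_, ?_, ?_⟩ <;> omega

/-- sorting the arcs of one node -/
theorem sorted {A : Type} (N : ℕ) (e : Fin N → A) (key : A → ℕ) :
    ∃ σ : Equiv.Perm (Fin N), Monotone (fun p => key (e (σ p))) := by
  refine ⟨Tuple.sort (fun t => key (e t)), ?_⟩
  exact Tuple.monotone_sort (fun t => key (e t))

/-- a property is counted the same before and after sorting -/
theorem card_perm {N : ℕ} (σ : Equiv.Perm (Fin N)) (Q : Fin N → Prop) [DecidablePred Q] :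
    (Finset.univ.filter (fun p => Q (σ p))).card = (Finset.univ.filter Q).card := by
  apply Finset.card_bij (fun p _ => σ p)
  · intro a ha; simpa using ha
  · intro a _ b _ h; exact σ.injective h
  · intro b hb
    refine ⟨σ.symm b, ?_, ?_⟩
    · simpa using hb
    · simp

theorem card_lt_val {N : ℕ} (p : Fin N) : (Finset.univ.filter (fun q : Fin N => q < p)).card = p.val := by
  rw [show (Finset.univ.filter (fun q : Fin N => q < p)) = Finset.Iio p by ext q; simp]
  exact Fin.card_Iio p

theorem card_le_val {N : ℕ} (p : Fin N) : (Finset.univ.filter (fun q : Fin N => q ≤ p)).card = p.val + 1 := by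
  rw [show (Finset.univ.filter (fun q : Fin N => q ≤ p)) = Finset.Iic p by ext q; simp]
  exact Fin.card_Iic p

/-- equal keys at positions `p ≤ q` force the distance below the multiplicity -/
theorem dist_lt {A : Type} [DecidableEq A] {N : ℕ} (α : Fin N → A) (key : A → ℕ)
    (hkey : Function.Injective key) (hm : Monotone (fun p => key (α p))) (a : A) (l : ℕ)
    (hl : (Finset.univ.filter (fun p => α p = a)).card ≤ l) (p q : Fin N) (hpq : p ≤ q)
    (hp : α p = a) (hq : α q = a) : q.val < p.val + l := by
  have hsub : Finset.Icc p q ⊆ Finset.univ.filter (fun p => α p = a) := by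
    intro r hr
    rw [Finset.mem_Icc] at hr
    simp only [Finset.mem_filter, Finset.mem_univ, true_and]
    apply hkey
    have h1 := hm hr.1
    have h2 := hm hr.2
    simp only [hp, hq] at h1 h2
    omega
  have hc := Finset.card_le_card hsub
  rw [Fin.card_Icc] at hc
  have : p.val ≤ q.val := hpq
  omega

/-- ranks at positions: rank 0 positions form the initial segment -/
theorem rank0 {N : ℕ} (r : Fin N → ℕ) (hm : Monotone r) (p : Fin N) (hp : r p = 0) :
    p.val < (Finset.univ.filter (fun q => r q = 0)).card := by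
  have hsub : (Finset.univ.filter (fun q : Fin N => q ≤ p)) ⊆ Finset.univ.filter (fun q => r q = 0) := by
    intro q hq
    simp only [Finset.mem_filter, Finset.mem_univ, true_and] at hq ⊢
    have := hm hq
    omega
  have := Finset.card_le_card hsub
  rw [card_le_val] at this
  omega

theorem rank1 {N : ℕ} (r : Fin N → ℕ) (hm : Monotone r) (p : Fin N) (hp : r p = 1) :
    (Finset.univ.filter (fun q => r q = 0)).card ≤ p.val ∧
    p.val < (Finset.univ.filter (fun q => r q = 0)).card + (Finset.univ.filter (fun q => r q = 1)).card := by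
  constructor
  · have hsub : Finset.univ.filter (fun q => r q = 0) ⊆ (Finset.univ.filter (fun q : Fin N => q < p)) := by
      intro q hq
      simp only [Finset.mem_filter, Finset.mem_univ, true_and] at hq ⊢
      by_contra hcon
      have := hm (not_lt.mp hcon)
      omega
    have := Finset.card_le_card hsub
    rw [card_lt_val] at this
    exact this
  · have hsub : (Finset.univ.filter (fun q : Fin N => q ≤ p)) ⊆
        Finset.univ.filter (fun q => r q = 0) ∪ Finset.univ.filter (fun q => r q = 1) := by
      intro q hq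
      simp only [Finset.mem_filter, Finset.mem_univ, true_and, Finset.mem_union] at hq ⊢
      have := hm hq
      omega
    have h1 := Finset.card_le_card hsub
    have h2 := Finset.card_union_le (Finset.univ.filter (fun q => r q = 0)) (Finset.univ.filter (fun q => r q = 1))
    rw [card_le_val] at h1
    omega

/-- a set avoiding the root is entered by every spanning arborescence -/
theorem enter {V A : Type} (tail head : A → V) (r0 : V) (T : Finset A)
    (hr : ∀ v : V, Relation.ReflTransGen (fun x y : V => ∃ a ∈ T, tail a = x ∧ head a = y) r0 v)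
    (S : V → Prop) (h0 : ¬ S r0) (v : V) (hv : S v) : ∃ a ∈ T, S (head a) ∧ ¬ S (tail a) := by
  by_contra hcon
  push Not at hcon
  have : ∀ w, Relation.ReflTransGen (fun x y : V => ∃ a ∈ T, tail a = x ∧ head a = y) r0 w → ¬ S w := by
    intro w hw
    induction hw with
    | refl => exact h0
    | tail _ h ih =>
      obtain ⟨a, haT, ha1, ha2⟩ := h
      intro hS
      rw [← ha2] at hS
      have := hcon a haT hS
      rw [ha1] at this
      exact ih this
  exact this v (hr v) hv

/-- a parent map without periodic points except the root reaches the root -/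
theorem reach_root {V : Type} [Finite V] (π : V → V) (r0 : V)
    (hper : ∀ x n, 0 < n → π^[n] x = x → x = r0) (v : V) : ∃ n, π^[n] v = r0 := by
  obtain ⟨i, j, hij, h0⟩ := Finite.exists_ne_map_eq_of_infinite (fun n : ℕ => π^[n] v)
  have h : π^[i] v = π^[j] v := h0
  rcases lt_or_gt_of_ne hij with hlt | hlt
  · refine ⟨i, hper _ (j - i) (by omega) ?_⟩
    rw [← Function.iterate_add_apply]
    rw [show j - i + i = j by omega]
    exact h.symm
  · refine ⟨j, hper _ (i - j) (by omega) ?_⟩
    rw [← Function.iterate_add_apply]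
    rw [show i - j + j = i by omega]
    exact h

end Run7.h436.KArb
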