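import Mathlib
import Pool.Agent.Run7.h436.KArbBasic

set_option autoImplicit false

namespace Run7.h436.KArb

open Relation

theorem mod_close (l x y : ℕ) (h : x % l = y % l) (h1 : x ≤ y) (h2 : y < x + l) : x = y := by
  have hd : l ∣ y - x := (Nat.modEq_iff_dvd' h1).mp h
  have := Nat.eq_zero_of_dvd_of_lt hd (by omega)
  omega

theorem mod_lt_add (N P Q : ℕ) (h : P % N = Q % N) (hlt : P < Q) : P + N ≤ Q := by
  have hd : N ∣ Q - P := (Nat.modEq_iff_dvd' (le_of_lt hlt)).mp h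
  have := Nat.le_of_dvd (by omega) hd
  omega

theorem pos_mod (N t θ : ℕ) (hθ : θ ≤ 2 * N) : (θ + (t + 2 * N - θ) % N) % N = t % N := by
  rw [Nat.add_mod, Nat.mod_mod, ← Nat.add_mod]
  rw [show θ + (t + 2 * N - θ) = t + 2 * N by omega]
  rw [Nat.add_mul_mod_self_right]

/-- two disjoint events in `Fin N` -/
theorem two_events {N : ℕ} (P Q : Fin N → Prop) [DecidablePred P] [DecidablePred Q]
    (h : ∀ t, ¬ (P t ∧ Q t)) :
    (Finset.univ.filter P).card + (Finset.univ.filter Q).card ≤ N := by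
  rw [← Finset.card_union_of_disjoint]
  · calc _ ≤ (Finset.univ : Finset (Fin N)).card := Finset.card_le_card (Finset.subset_univ _)
      _ = N := by simp
  · rw [Finset.disjoint_filter]
    intro t _ hp hq
    exact h t ⟨hp, hq⟩

theorem pair_one (P Q : Prop) [Decidable P] [Decidable Q] (h : ¬ (P ∧ Q)) :
    (if P then 1 else 0) + (if Q then 1 else 0) ≤ 1 ∧
    ((if P then 1 else 0) + (if Q then 1 else 0) = 1 → P ∨ Q) := by
  by_cases hP : P <;> by_cases hQ : Q
  · exact absurd ⟨hP, hQ⟩ h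
  · simp [hP, hQ]
  · simp [hP, hQ]
  · simp [hP, hQ]

theorem six_events {N : ℕ} (P0 P1 P2 P3 P4 P5 : Fin N → Prop)
    [DecidablePred P0] [DecidablePred P1] [DecidablePred P2] [DecidablePred P3] [DecidablePred P4]
    [DecidablePred P5]
    (f0 : ∀ t, ¬ (P0 t ∧ P1 t)) (f1 : ∀ t, ¬ (P2 t ∧ P3 t)) (f2 : ∀ t, ¬ (P4 t ∧ P5 t))
    (f : ∀ t, ¬ ((P0 t ∨ P1 t) ∧ (P2 t ∨ P3 t) ∧ (P4 t ∨ P5 t))) :
    (Finset.univ.filter P0).card + (Finset.univ.filter P1).card + (Finset.univ.filter P2).card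
      + (Finset.univ.filter P3).card + (Finset.univ.filter P4).card + (Finset.univ.filter P5).card
      ≤ 2 * N := by
  simp only [Finset.card_filter]
  rw [← Finset.sum_add_distrib, ← Finset.sum_add_distrib, ← Finset.sum_add_distrib,
    ← Finset.sum_add_distrib, ← Finset.sum_add_distrib]
  calc _ ≤ ∑ _t : Fin N, 2 := by
        apply Finset.sum_le_sum
        intro t _
        obtain ⟨a1, a2⟩ := pair_one _ _ (f0 t)
        obtain ⟨b1, b2⟩ := pair_one _ _ (f1 t)
        obtain ⟨c1, c2⟩ := pair_one _ _ (f2 t)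
        by_contra hcon
        exact f t ⟨a2 (by omega), b2 (by omega), c2 (by omega)⟩
    _ = 2 * N := by simp [mul_comm]

/-- numbering of the classes of an equivalence relation with classes of size at most three -/
theorem numbering {V : Type} [Fintype V] (Conn : V → V → Prop) (hrefl : ∀ x, Conn x x)
    (hsymm : ∀ x y, Conn x y → Conn y x) (htrans : ∀ x y z, Conn x y → Conn y z → Conn x z)
    (h3 : ∀ S : Finset V, (∀ x ∈ S, ∀ y ∈ S, Conn x y) → S.card ≤ 3) :
    ∃ idx : V → ℕ, (∀ v, idx v < 3) ∧ ∀ x y, Conn x y → idx x = idx y → x = y := by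
  classical
  let ord : V ≃ Fin (Fintype.card V) := Fintype.equivFin V
  let F : V → Finset V := fun v => Finset.univ.filter (fun z => Conn z v ∧ ord z < ord v)
  refine ⟨fun v => (F v).card, ?_, ?_⟩
  · intro v
    have hv : v ∉ F v := by simp [F]
    have h1 : (insert v (F v)).card ≤ 3 := by
      apply h3
      have key : ∀ x ∈ insert v (F v), Conn x v := by
        intro x hx
        rw [Finset.mem_insert] at hx
        rcases hx with rfl | hx
        · exact hrefl _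
        · exact (Finset.mem_filter.mp hx).2.1
      intro x hx y hy
      exact htrans _ _ _ (key x hx) (hsymm _ _ (key y hy))
    rw [Finset.card_insert_of_notMem hv] at h1
    show (F v).card < 3
    omega
  · have aux : ∀ x y, Conn x y → ord x < ord y → (F x).card < (F y).card := by
      intro x y hxy hlt
      have hx : x ∉ F x := by simp [F]
      have hsub : insert x (F x) ⊆ F y := by
        intro z hz
        rw [Finset.mem_insert] at hz
        rcases hz with rfl | hz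
        · simp only [F, Finset.mem_filter, Finset.mem_univ, true_and]
          exact ⟨hxy, hlt⟩
        · simp only [F, Finset.mem_filter, Finset.mem_univ, true_and] at hz ⊢
          exact ⟨htrans _ _ _ hz.1 hxy, lt_trans hz.2 hlt⟩
      have := Finset.card_le_card hsub
      rw [Finset.card_insert_of_notMem hx] at this
      omega
    intro x y hxy hidx
    have hidx' : (F x).card = (F y).card := hidx
    rcases lt_trichotomy (ord x) (ord y) with h | h | h
    · have := aux x y hxy h; omega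
    · exact ord.injective h
    · have := aux y x (hsymm _ _ hxy) h; omega

theorem hexA (N a0 b0 a2 θ2 P0 P2 : ℕ) (e1 : a0 + b0 ≤ θ2) (e2 : θ2 + a2 ≤ N + a0)
    (x1 : a0 ≤ P0) (x2 : P0 < a0 + b0) (x3 : θ2 ≤ P2) (x4 : P2 < θ2 + a2) (hm : P0 % N = P2 % N) : False := by
  have := mod_lt_add N P0 P2 hm (by omega)
  omega

theorem hexB (N a2 b2 a1 θ1 θ2 P1 P2 : ℕ) (e3 : θ2 + a2 + b2 ≤ θ1) (e4 : θ1 + a1 ≤ N + θ2 + a2)
    (x1 : θ2 + a2 ≤ P2) (x2 : P2 < θ2 + a2 + b2) (x3 : θ1 ≤ P1) (x4 : P1 < θ1 + a1)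
    (hm : P2 % N = P1 % N) : False := by
  have := mod_lt_add N P2 P1 hm (by omega)
  omega

theorem hexC (N a0 a1 b1 θ1 P0 P1 : ℕ) (e5 : θ1 + a1 + b1 ≤ 2 * N) (e6 : N + a0 ≤ θ1 + a1)
    (x1 : θ1 + a1 ≤ P1) (x2 : P1 < θ1 + a1 + b1) (x3 : P0 < a0)
    (hm : P0 % N = P1 % N) : False := by
  have := mod_lt_add N (P0 + N) P1 (by rw [Nat.add_mod_right, hm]) (by omega)
  omega

theorem hexD (N a0 b0 a1 b1 a2 b2 θ1 θ2 P0 P1 P2 : ℕ) (e1 : a0 + b0 ≤ θ2)
    (e3 : θ2 + a2 + b2 ≤ θ1) (e5 : θ1 + a1 + b1 ≤ 2 * N)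
    (x1 : P0 < a0 + b0) (x2 : θ2 ≤ P2) (x3 : P2 < θ2 + a2 + b2) (x4 : θ1 ≤ P1)
    (x5 : P1 < θ1 + a1 + b1) (hm : P0 % N = P2 % N) (hm' : P2 % N = P1 % N) : False := by
  have := mod_lt_add N P0 P2 hm (by omega)
  have := mod_lt_add N P2 P1 hm' (by omega)
  omega

/-- the hexagon: no closed walk of inner parents at one time -/
theorem hexagon (N : ℕ) (a b θ : ℕ → ℕ) (e0 : θ 0 = 0)
    (e1 : a 0 + b 0 ≤ θ 2) (e2 : θ 2 + a 2 ≤ N + a 0) (e3 : θ 2 + a 2 + b 2 ≤ θ 1)
    (e4 : θ 1 + a 1 ≤ N + θ 2 + a 2) (e5 : θ 1 + a 1 + b 1 ≤ 2 * N) (e6 : N + a 0 ≤ θ 1 + a 1)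
    (i0 i1 i2 p0 p1 p2 : ℕ) (h0 : i0 < 3) (h1 : i1 < 3) (h2 : i2 < 3)
    (n1 : i1 ≠ i0) (n2 : i2 ≠ i1)
    (f0 : i1 = (i0 + 1) % 3 → p0 < a i0) (g0 : i1 = (i0 + 2) % 3 → a i0 ≤ p0 ∧ p0 < a i0 + b i0)
    (f1 : i2 = (i1 + 1) % 3 → p1 < a i1) (g1 : i2 = (i1 + 2) % 3 → a i1 ≤ p1 ∧ p1 < a i1 + b i1)
    (q0 : p0 < a i0 + b i0) (q1 : p1 < a i1 + b i1) (q2 : p2 < a i2 + b i2)
    (t : ℕ) (c0 : (θ i0 + p0) % N = t) (c1 : (θ i1 + p1) % N = t) (c2 : (θ i2 + p2) % N = t) : False := by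
  have v0 : i0 = 0 ∨ i0 = 1 ∨ i0 = 2 := by omega
  have v1 : i1 = 0 ∨ i1 = 1 ∨ i1 = 2 := by omega
  have v2 : i2 = 0 ∨ i2 = 1 ∨ i2 = 2 := by omega
  rcases v0 with rfl | rfl | rfl
  · rcases v1 with rfl | rfl | rfl
    · exact n1 rfl
    · -- 0, 1
      rcases v2 with rfl | rfl | rfl
      · exact hexC N (a 0) (a 1) (b 1) (θ 1) (θ 0 + p0) (θ 1 + p1) e5 e6
          (by have := (g1 rfl).1; omega) (by have := (g1 rfl).2; omega) (by have := f0 rfl; omega)
          (by rw [c0, c1])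
      · exact n2 rfl
      · exact hexD N _ _ _ _ _ _ _ _ (θ 0 + p0) (θ 1 + p1) (θ 2 + p2) e1 e3 e5 (by omega) (by omega)
          (by omega) (by omega) (by omega) (by rw [c0, c2]) (by rw [c2, c1])
    · -- 0, 2
      rcases v2 with rfl | rfl | rfl
      · exact hexA N (a 0) (b 0) (a 2) (θ 2) (θ 0 + p0) (θ 2 + p1) e1 e2
          (by have := (g0 rfl).1; omega) (by omega) (by omega) (by have := f1 rfl; omega)
          (by rw [c0, c1])
      · exact hexD N _ _ _ _ _ _ _ _ (θ 0 + p0) (θ 1 + p2) (θ 2 + p1) e1 e3 e5 (by omega) (by omega)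
          (by omega) (by omega) (by omega) (by rw [c0, c1]) (by rw [c1, c2])
      · exact n2 rfl
  · rcases v1 with rfl | rfl | rfl
    · -- 1, 0
      rcases v2 with rfl | rfl | rfl
      · exact n2 rfl
      · exact hexC N (a 0) (a 1) (b 1) (θ 1) (θ 0 + p1) (θ 1 + p0) e5 e6
          (by have := (g0 rfl).1; omega) (by omega) (by have := f1 rfl; omega)
          (by rw [c0, c1])
      · exact hexD N _ _ _ _ _ _ _ _ (θ 0 + p1) (θ 1 + p0) (θ 2 + p2) e1 e3 e5 (by omega) (by omega)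
          (by omega) (by omega) (by omega) (by rw [c1, c2]) (by rw [c2, c0])
    · exact n1 rfl
    · -- 1, 2
      rcases v2 with rfl | rfl | rfl
      · exact hexD N _ _ _ _ _ _ _ _ (θ 0 + p2) (θ 1 + p0) (θ 2 + p1) e1 e3 e5 (by omega) (by omega)
          (by omega) (by omega) (by omega) (by rw [c2, c1]) (by rw [c1, c0])
      · exact hexB N (a 2) (b 2) (a 1) (θ 1) (θ 2) (θ 1 + p0) (θ 2 + p1) e3 e4
          (by have := (g1 rfl).1; omega) (by omega) (by omega) (by have := f0 rfl; omega)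
          (by rw [c1, c0])
      · exact n2 rfl
  · rcases v1 with rfl | rfl | rfl
    · -- 2, 0
      rcases v2 with rfl | rfl | rfl
      · exact n2 rfl
      · exact hexD N _ _ _ _ _ _ _ _ (θ 0 + p1) (θ 1 + p2) (θ 2 + p0) e1 e3 e5 (by omega) (by omega)
          (by omega) (by omega) (by omega) (by rw [c1, c0]) (by rw [c0, c2])
      · exact hexA N (a 0) (b 0) (a 2) (θ 2) (θ 0 + p1) (θ 2 + p0) e1 e2
          (by have := (g1 rfl).1; omega) (by omega) (by omega) (by have := f0 rfl; omega)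
          (by rw [c0, c1])
    · -- 2, 1
      rcases v2 with rfl | rfl | rfl
      · exact hexD N _ _ _ _ _ _ _ _ (θ 0 + p2) (θ 1 + p1) (θ 2 + p0) e1 e3 e5 (by omega) (by omega)
          (by omega) (by omega) (by omega) (by rw [c2, c0]) (by rw [c0, c1])
      · exact n2 rfl
      · exact hexB N (a 2) (b 2) (a 1) (θ 1) (θ 2) (θ 1 + p1) (θ 2 + p0) e3 e4
          (by have := (g0 rfl).1; omega) (by omega) (by omega) (by have := f1 rfl; omega)
          (by rw [c0, c1])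
    · exact n1 rfl

end Run7.h436.KArb
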