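import Mathlib

set_option autoImplicit false

namespace Run7.h436.KArb

/-- closed walks have sum zero -/
theorem closed_zero {V R : Type} [AddCommGroup R] (adj : V → V → Prop) (τ : V → V → R)
    (hirr : ∀ x, ¬ adj x x)
    (hanti : ∀ x y, adj x y → τ x y + τ y x = 0)
    (htri : ∀ x y z, adj x y → adj y z → adj z x → τ x y + τ y z + τ z x = 0)
    (hG : ∀ (n : ℕ) (x : ℕ → V), 4 ≤ n → (∀ i j, i < n → j < n → x i = x j → i = j) →
      (∀ i, i + 1 < n → adj (x i) (x (i + 1))) → ¬ adj (x (n - 1)) (x 0)) :
    ∀ (n : ℕ) (x : ℕ → V), (∀ i, i < n → adj (x i) (x (i + 1))) → x n = x 0 →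
      ∑ i ∈ Finset.range n, τ (x i) (x (i + 1)) = 0 := by
  intro n
  induction n using Nat.strong_induction_on with
  | _ n ih =>
    intro x hx hn
    by_cases hinj : ∀ i j, i < n → j < n → x i = x j → i = j
    · have hcases : n = 0 ∨ n = 1 ∨ n = 2 ∨ n = 3 ∨ 4 ≤ n := by omega
      rcases hcases with rfl | rfl | rfl | rfl | h4
      · simp
      · exfalso
        have := hx 0 (by norm_num)
        rw [hn] at this
        exact hirr _ this
      · simp only [Finset.sum_range_succ, Finset.sum_range_zero, zero_add]
        rw [hn]
        exact hanti _ _ (hx 0 (by norm_num))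
      · simp only [Finset.sum_range_succ, Finset.sum_range_zero, zero_add]
        have h2 := hx 2 (by norm_num)
        rw [hn] at h2 ⊢
        exact htri _ _ _ (hx 0 (by norm_num)) (hx 1 (by norm_num)) h2
      · exfalso
        apply hG n x h4 hinj (fun i hi => hx i (by omega))
        have := hx (n - 1) (by omega)
        rw [show n - 1 + 1 = n by omega, hn] at this
        exact this
    · push Not at hinj
      obtain ⟨i, j, hi, hj, hij, hne⟩ := hinj
      have key : ∀ i j, i < j → j < n → x i = x j →
          ∑ i ∈ Finset.range n, τ (x i) (x (i + 1)) = 0 := by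
        intro i j hlt hjn hxij
        have s1 := ih (j - i) (by omega) (fun k => x (k + i))
          (fun k hk => by
            have := hx (k + i) (by omega)
            rw [show k + 1 + i = k + i + 1 by omega]
            exact this)
          (by rw [show j - i + i = j by omega, Nat.zero_add]; exact hxij.symm)
        have s2 := ih (n - (j - i)) (by omega) (fun k => if k ≤ i then x k else x (k + (j - i)))
          (fun k hk => by
            by_cases h1 : k + 1 ≤ i
            · rw [if_pos (by omega), if_pos h1]
              exact hx k (by omega)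
            · by_cases h2 : k ≤ i
              · have hki : k = i := by omega
                subst hki
                rw [if_pos le_rfl, if_neg h1, hxij]
                have := hx j hjn
                rwa [show k + 1 + (j - k) = j + 1 by omega]
              · rw [if_neg h2, if_neg h1]
                have := hx (k + (j - i)) (by omega)
                rwa [show k + 1 + (j - i) = k + (j - i) + 1 by omega])
          (by
            rw [if_neg (by omega), if_pos (Nat.zero_le _), show n - (j - i) + (j - i) = n by omega]
            exact hn)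
        have e1 : ∑ k ∈ Finset.range n, τ (x k) (x (k + 1)) =
            ∑ k ∈ Finset.range i, τ (x k) (x (k + 1)) + ∑ k ∈ Finset.Ico i j, τ (x k) (x (k + 1))
              + ∑ k ∈ Finset.Ico j n, τ (x k) (x (k + 1)) := by
          rw [Finset.range_eq_Ico, Finset.range_eq_Ico, Finset.sum_Ico_consecutive _ (Nat.zero_le _) hlt.le,
            Finset.sum_Ico_consecutive _ (Nat.zero_le _) hjn.le]
        have e2 : ∑ k ∈ Finset.Ico i j, τ (x k) (x (k + 1)) = 0 := by
          rw [Finset.sum_Ico_eq_sum_range]
          rw [← s1]
          apply Finset.sum_congr rfl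
          intro k _
          rw [show i + k = k + i by omega, show k + 1 + i = k + i + 1 by omega]
        have e3 : ∑ k ∈ Finset.range i, τ (x k) (x (k + 1)) + ∑ k ∈ Finset.Ico j n, τ (x k) (x (k + 1)) = 0 := by
          rw [← s2]
          rw [show n - (j - i) = i + (n - j) by omega, Finset.sum_range_add]
          congr 1
          · apply Finset.sum_congr rfl
            intro k hk
            rw [Finset.mem_range] at hk
            rw [if_pos (by omega), if_pos (by omega)]
          · rw [Finset.sum_Ico_eq_sum_range]
            apply Finset.sum_congr rfl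
            intro k hk
            rw [if_neg (by omega : ¬ i + k + 1 ≤ i)]
            by_cases hk0 : k = 0
            · subst hk0
              rw [if_pos (by omega), show i + 0 + 1 + (j - i) = j + 0 + 1 by omega]
              simp only [Nat.add_zero]
              rw [hxij]
            · rw [if_neg (by omega), show i + k + (j - i) = j + k by omega,
                show i + k + 1 + (j - i) = j + k + 1 by omega]
        rw [e1, e2, add_zero]
        exact e3
      rcases lt_or_gt_of_ne hne with h | h
      · exact key i j h hj hij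
      · exact key j i h hi hij.symm

open Relation

theorem walk_of_rtg {V R : Type} [AddCommGroup R] (adj : V → V → Prop) (τ : V → V → R)
    (p q : V × R) (h : ReflTransGen (fun p q : V × R => adj p.1 q.1 ∧ q.2 = p.2 + τ p.1 q.1) p q) :
    ∃ (n : ℕ) (s : ℕ → V), s 0 = p.1 ∧ s n = q.1 ∧ (∀ i, i < n → adj (s i) (s (i + 1))) ∧
      q.2 = p.2 + ∑ i ∈ Finset.range n, τ (s i) (s (i + 1)) := by
  induction h with
  | refl => exact ⟨0, fun _ => p.1, rfl, rfl, by intro i hi; omega, by simp⟩
  | tail _ hstep ih =>
    rename_i b c _
    obtain ⟨n, s, h0, hn, hadj, hsum⟩ := ih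
    refine ⟨n + 1, fun k => if k ≤ n then s k else c.1, ?_, ?_, ?_, ?_⟩
    · beta_reduce
      rw [if_pos (Nat.zero_le _)]; exact h0
    · beta_reduce
      rw [if_neg (by omega)]
    · intro i hi
      beta_reduce
      by_cases h1 : i + 1 ≤ n
      · rw [if_pos (by omega), if_pos h1]
        exact hadj i (by omega)
      · have : i = n := by omega
        subst this
        rw [if_pos le_rfl, if_neg h1, hn]
        exact hstep.1
    · beta_reduce
      rw [Finset.sum_range_succ, if_pos le_rfl, if_neg (by omega), hn, hstep.2, hsum, add_assoc]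
      congr 2
      apply Finset.sum_congr rfl
      intro k hk
      rw [Finset.mem_range] at hk
      rw [if_pos (by omega), if_pos (by omega)]

theorem potential {V R : Type} [AddCommGroup R] (adj : V → V → Prop) (τ : V → V → R)
    (hsymm : ∀ x y, adj x y → adj y x) (hirr : ∀ x, ¬ adj x x)
    (hanti : ∀ x y, adj x y → τ x y + τ y x = 0)
    (htri : ∀ x y z, adj x y → adj y z → adj z x → τ x y + τ y z + τ z x = 0)
    (hG : ∀ (n : ℕ) (x : ℕ → V), 4 ≤ n → (∀ i j, i < n → j < n → x i = x j → i = j) →
      (∀ i, i + 1 < n → adj (x i) (x (i + 1))) → ¬ adj (x (n - 1)) (x 0)) :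
    ∃ φ : V → R, ∀ x y, adj x y → φ y = φ x + τ x y := by
  classical
  set Rr : V × R → V × R → Prop := fun p q => adj p.1 q.1 ∧ q.2 = p.2 + τ p.1 q.1 with hRr
  have hRsymm : ∀ p q, Rr p q → Rr q p := by
    rintro p q ⟨h1, h2⟩
    refine ⟨hsymm _ _ h1, ?_⟩
    rw [h2, add_assoc, hanti _ _ h1, add_zero]
  have hsym : ∀ p q, ReflTransGen Rr p q → ReflTransGen Rr q p := by
    intro p q h
    induction h with
    | refl => exact ReflTransGen.refl
    | tail _ hs ih => exact ReflTransGen.head (hRsymm _ _ hs) ih
  have hshift : ∀ (c : R) (p q : V × R), ReflTransGen Rr p q →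
      ReflTransGen Rr (p.1, p.2 + c) (q.1, q.2 + c) := by
    intro c p q h
    induction h with
    | refl => exact ReflTransGen.refl
    | tail _ hs ih =>
      refine ReflTransGen.tail ih ⟨hs.1, ?_⟩
      show _ + c = _ + c + _
      rw [hs.2]
      abel
  have hclosed : ∀ x h, ReflTransGen Rr (x, 0) (x, h) → h = 0 := by
    intro x h hr
    obtain ⟨n, s, h0, hn, hadj, hsum⟩ := walk_of_rtg adj τ _ _ hr
    have := closed_zero adj τ hirr hanti htri hG n s hadj (by rw [hn, h0])
    rw [this] at hsum
    simpa using hsum
  have huniq : ∀ x y h h', ReflTransGen Rr (x, 0) (y, h) → ReflTransGen Rr (x, 0) (y, h') → h = h' := by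
    intro x y h h' h1 h2
    have h3 := hshift (h - h') _ _ (hsym _ _ h2)
    have h4 : ReflTransGen Rr (y, h) (x, h - h') := by
      have e1 : h' + (h - h') = h := by abel
      have e2 : (0 : R) + (h - h') = h - h' := by abel
      simpa [e1, e2] using h3
    have := hclosed x (h - h') (h1.trans h4)
    exact sub_eq_zero.mp this
  let s : Setoid V := ⟨fun x y => ∃ h, ReflTransGen Rr (x, 0) (y, h), ⟨fun x => ⟨0, ReflTransGen.refl⟩,
    by
      rintro x y ⟨h, hh⟩
      refine ⟨-h, ?_⟩
      have := hshift (-h) _ _ (hsym _ _ hh)
      simpa using this,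
    by
      rintro x y z ⟨h, hh⟩ ⟨h', hh'⟩
      refine ⟨h' + h, ?_⟩
      have := hshift h _ _ hh'
      refine hh.trans ?_
      simpa using this⟩⟩
  have hrep : ∀ v, ∃ h, ReflTransGen Rr (Quotient.out (Quotient.mk s v), 0) (v, h) :=
    fun v => Quotient.mk_out (s := s) v
  choose φ hφ using hrep
  refine ⟨φ, ?_⟩
  intro x y hxy
  have hq : Quotient.mk s x = Quotient.mk s y :=
    Quotient.sound ⟨0 + τ x y, ReflTransGen.single ⟨hxy, rfl⟩⟩
  have h1 : ReflTransGen Rr (Quotient.out (Quotient.mk s x), 0) (y, φ x + τ x y) :=
    (hφ x).tail ⟨hxy, rfl⟩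
  have h2 := hφ y
  rw [← hq] at h2
  exact huniq _ _ _ _ h2 h1

end Run7.h436.KArb
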