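import Mathlib
import Pool.Agent.Run7.h436.KArbMain
import Pool.Agent.Run7.h436.KArbPot

set_option autoImplicit false

namespace Run7.h436.KArb

open Relation

theorem rank_pos {N : ℕ} (r : Fin N → ℕ) (hm : Monotone r) (p : Fin N) (ρ : ℕ) (hp : r p = ρ) :
    (Finset.univ.filter (fun q => r q < ρ)).card ≤ p.val ∧
    p.val < (Finset.univ.filter (fun q => r q < ρ)).card + (Finset.univ.filter (fun q => r q = ρ)).card := by
  constructor
  · have hsub : Finset.univ.filter (fun q => r q < ρ) ⊆ (Finset.univ.filter (fun q : Fin N => q < p)) := by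
      intro q hq
      simp only [Finset.mem_filter, Finset.mem_univ, true_and] at hq ⊢
      by_contra hcon
      have := hm (not_lt.mp hcon)
      omega
    have := Finset.card_le_card hsub
    rw [card_lt_val] at this
    exact this
  · have hsub : (Finset.univ.filter (fun q : Fin N => q ≤ p)) ⊆
        Finset.univ.filter (fun q => r q < ρ) ∪ Finset.univ.filter (fun q => r q = ρ) := by
      intro q hq
      simp only [Finset.mem_filter, Finset.mem_univ, true_and, Finset.mem_union] at hq ⊢
      have := hm hq
      omega
    have h1 := Finset.card_le_card hsub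
    have h2 := Finset.card_union_le (Finset.univ.filter (fun q => r q < ρ)) (Finset.univ.filter (fun q => r q = ρ))
    rw [card_le_val] at h1
    omega

theorem card_lt_succ {N : ℕ} (r : Fin N → ℕ) (ρ : ℕ) :
    (Finset.univ.filter (fun q => r q < ρ + 1)).card =
      (Finset.univ.filter (fun q => r q < ρ)).card + (Finset.univ.filter (fun q => r q = ρ)).card := by
  rw [← Finset.card_union_of_disjoint]
  · congr 1
    ext q
    simp only [Finset.mem_filter, Finset.mem_univ, true_and, Finset.mem_union]
    omega
  · rw [Finset.disjoint_filter]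
    intro q _ h1 h2
    omega

section blocks

variable {V : Type} [Fintype V]

open Classical in
/-- the block of an edge: its ends and their common neighbours -/
noncomputable def blk (Lk : V → V → Prop) (x y : V) : Finset V :=
  Finset.univ.filter (fun w => w = x ∨ w = y ∨ (Lk x w ∧ Lk y w))

theorem mem_blk (Lk : V → V → Prop) (x y w : V) : w ∈ blk Lk x y ↔ (w = x ∨ w = y ∨ (Lk x w ∧ Lk y w)) := by
  classical
  simp [blk]

theorem blk_symm (Lk : V → V → Prop) (x y : V) : blk Lk x y = blk Lk y x := by
  ext w
  rw [mem_blk, mem_blk]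
  tauto

variable (Lk : V → V → Prop) (hsymm : ∀ x y, Lk x y → Lk y x) (hirr : ∀ x, ¬ Lk x x)
  (hG : ∀ (n : ℕ) (x : ℕ → V), 4 ≤ n → (∀ i j, i < n → j < n → x i = x j → i = j) →
      (∀ i, i + 1 < n → Lk (x i) (x (i + 1))) → ¬ Lk (x (n - 1)) (x 0))

include hsymm hirr hG in
theorem common_unique (x y z w : V) (hxy : x ≠ y) (h1 : Lk x z) (h2 : Lk y z) (h3 : Lk x w) (h4 : Lk y w) :
    w = z := by
  by_contra hwz
  have nxw : x ≠ w := by rintro rfl; exact hirr _ h3
  have nxz : x ≠ z := by rintro rfl; exact hirr _ h1
  have nyw : y ≠ w := by rintro rfl; exact hirr _ h4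
  have nyz : y ≠ z := by rintro rfl; exact hirr _ h2
  refine hG 4 (fun i => if i = 0 then x else if i = 1 then w else if i = 2 then y else z) le_rfl ?_ ?_ ?_
  · intro i j hi hj hij
    have vi : i = 0 ∨ i = 1 ∨ i = 2 ∨ i = 3 := by omega
    have vj : j = 0 ∨ j = 1 ∨ j = 2 ∨ j = 3 := by omega
    rcases vi with rfl | rfl | rfl | rfl <;> rcases vj with rfl | rfl | rfl | rfl <;>
      first
        | rfl
        | (exfalso
           simp only [if_true, if_false, one_ne_zero, OfNat.ofNat_ne_zero, OfNat.ofNat_ne_one, Nat.reduceEqDiff] at hij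
           first
             | exact nxw hij | exact nxw hij.symm | exact nyw hij | exact nyw hij.symm | exact nxz hij
             | exact nxz hij.symm | exact hwz hij | exact hwz hij.symm | exact nyz hij | exact nyz hij.symm
             | exact hxy hij | exact hxy hij.symm)
  · intro i hi
    have vi : i = 0 ∨ i = 1 ∨ i = 2 := by omega
    rcases vi with rfl | rfl | rfl
    · simpa using h3
    · simpa using hsymm _ _ h4
    · simpa using h2
  · simpa using hsymm _ _ h1

include hsymm hirr hG in
theorem blk_tri (x y z : V) (h1 : Lk x y) (h2 : Lk y z) (h3 : Lk z x) (w : V) :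
    w ∈ blk Lk x y ↔ (w = x ∨ w = y ∨ w = z) := by
  rw [mem_blk]
  have hxy : x ≠ y := by rintro rfl; exact hirr _ h1
  constructor
  · rintro (h | h | ⟨h4, h5⟩)
    · exact Or.inl h
    · exact Or.inr (Or.inl h)
    · exact Or.inr (Or.inr (common_unique Lk hsymm hirr hG x y z w hxy (hsymm _ _ h3) h2 h4 h5))
  · rintro (h | h | rfl)
    · exact Or.inl h
    · exact Or.inr (Or.inl h)
    · exact Or.inr (Or.inr ⟨hsymm _ _ h3, h2⟩)

include hsymm hirr hG in
theorem blk_tri_eq (x y z : V) (h1 : Lk x y) (h2 : Lk y z) (h3 : Lk z x) :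
    blk Lk x y = blk Lk y z := by
  ext w
  rw [blk_tri Lk hsymm hirr hG x y z h1 h2 h3, blk_tri Lk hsymm hirr hG y z x h2 h3 h1]
  tauto

include hsymm hirr hG in
theorem blk_card (x y : V) (h : Lk x y) : (blk Lk x y).card ≤ 3 := by
  classical
  by_cases hz : ∃ z, Lk x z ∧ Lk y z
  · obtain ⟨z, h1, h2⟩ := hz
    have : blk Lk x y = {x, y, z} := by
      ext w
      rw [blk_tri Lk hsymm hirr hG x y z h h2 (hsymm _ _ h1)]
      simp
    rw [this]
    exact Finset.card_le_three
  · have : blk Lk x y = {x, y} := by
      ext w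
      rw [mem_blk]
      simp only [Finset.mem_insert, Finset.mem_singleton]
      constructor
      · rintro (h | h | h)
        · exact Or.inl h
        · exact Or.inr h
        · exact absurd ⟨w, h⟩ hz
      · rintro (h | h)
        · exact Or.inl h
        · exact Or.inr (Or.inl h)
    rw [this]
    exact le_trans Finset.card_le_two (by norm_num)

end blocks

/-- numbering inside a finite set -/
theorem numbering2 (V : Type) [Fintype V] :
    ∃ idx : Finset V → V → ℕ, (∀ K x, x ∈ K → idx K x < K.card) ∧
      ∀ K x y, x ∈ K → y ∈ K → idx K x = idx K y → x = y := by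
  classical
  let ord : V ≃ Fin (Fintype.card V) := Fintype.equivFin V
  let F : Finset V → V → Finset V := fun K v => K.filter (fun z => ord z < ord v)
  refine ⟨fun K v => (F K v).card, ?_, ?_⟩
  · intro K v hv
    apply Finset.card_lt_card
    rw [Finset.ssubset_iff_of_subset (Finset.filter_subset _ _)]
    exact ⟨v, hv, by simp [F]⟩
  · have aux : ∀ K x y, x ∈ K → ord x < ord y → (F K x).card < (F K y).card := by
      intro K x y hx hlt
      apply Finset.card_lt_card
      rw [Finset.ssubset_iff_of_subset]
      · exact ⟨x, by simp [F, hx, hlt], by simp [F]⟩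
      · intro z hz
        simp only [F, Finset.mem_filter] at hz ⊢
        exact ⟨hz.1, lt_trans hz.2 hlt⟩
    intro K x y hx hy hidx
    have hidx' : (F K x).card = (F K y).card := hidx
    rcases lt_trichotomy (ord x) (ord y) with h | h | h
    · have := aux K x y hx h; omega
    · exact ord.injective h
    · have := aux K y x hy h; omega

end Run7.h436.KArb
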