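import Mathlib
import Pool.Agent.Run7.h436.KArbBlocks

set_option autoImplicit false

namespace Run7.h436.KArb

open Relation

theorem core2 (V A : Type) [Fintype V] [Fintype A] [DecidableEq V] [DecidableEq A]
    (tail head : A → V) (r0 : V) (c : A → ℕ) (N l : ℕ) (hN : 0 < N) (hlN : l ∣ N)
    (hcyc : ∀ (n : ℕ) (x : ℕ → V), 4 ≤ n → (∀ i j, i < n → j < n → x i = x j → i = j) →
      (∀ i j, i < n → j < n → ReflTransGen
        (fun u v : V => ∃ a, 0 < c a ∧ tail a = u ∧ head a = v ∧ u ≠ r0 ∧ v ≠ r0) (x i) (x j)) →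
      (∀ i, i + 1 < n → ∃ a, 0 < c a ∧ ((tail a = x i ∧ head a = x (i + 1)) ∨
        (tail a = x (i + 1) ∧ head a = x i))) →
      ¬ ∃ a, 0 < c a ∧ ((tail a = x (n - 1) ∧ head a = x 0) ∨ (tail a = x 0 ∧ head a = x (n - 1))))
    (hc : ∀ a, c a ≤ l)
    (T : Fin N → Finset A)
    (hT1 : ∀ i, ∀ v : V, v ≠ r0 → ∃! a : A, a ∈ T i ∧ head a = v)
    (hT2 : ∀ i, ∀ v : V, ReflTransGen (fun x y : V => ∃ a ∈ T i, tail a = x ∧ head a = y) r0 v)
    (hTc : ∀ a : A, (Finset.univ.filter (fun i => a ∈ T i)).card ≤ c a) :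
    ∃ f : Fin N → {v : V // v ≠ r0} → A,
      (∀ t u, head (f t u) = u.1) ∧
      (∀ t (π : V → V), π r0 = r0 → (∀ u : {v : V // v ≠ r0}, π u.1 = tail (f t u)) →
        ∀ v, ∃ n, π^[n] v = r0) ∧
      (∀ u a, (Finset.univ.filter (fun t => f t u = a)).card ≤ c a) ∧
      (∀ u t t', f t u = f t' u → t.val % l = t'.val % l → t = t') := by
  classical
  have : NeZero N := ⟨hN.ne'⟩
  set Step : V → V → Prop := fun u v : V => ∃ a, 0 < c a ∧ tail a = u ∧ head a = v ∧ u ≠ r0 ∧ v ≠ r0
    with hStep
  -- arcs used have positive capacity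
  have hpos : ∀ i a, a ∈ T i → 0 < c a := by
    intro i a ha
    have : i ∈ Finset.univ.filter (fun i => a ∈ T i) := by simp [ha]
    have h1 := Finset.card_pos.mpr ⟨i, this⟩
    have h2 := hTc a
    omega
  have hex : ∀ (i : Fin N) (u : {v : V // v ≠ r0}), ∃ a, (a ∈ T i ∧ head a = u.1) ∧
      ∀ b, b ∈ T i → head b = u.1 → b = a := by
    intro i u
    obtain ⟨a, ha, hu⟩ := hT1 i u.1 u.2
    exact ⟨a, ha, fun b hb1 hb2 => hu b ⟨hb1, hb2⟩⟩
  choose e he heu using hex
  -- links inside the strong components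
  let Adj : V → V → Prop := fun x y => ∃ a, 0 < c a ∧ ((tail a = x ∧ head a = y) ∨ (tail a = y ∧ head a = x))
  let Lk : V → V → Prop := fun x y => x ≠ y ∧ ReflTransGen Step x y ∧ ReflTransGen Step y x ∧ Adj x y
  have hAsymm : ∀ x y, Adj x y → Adj y x := by
    rintro x y ⟨a, h1, h2 | h2⟩
    · exact ⟨a, h1, Or.inr h2⟩
    · exact ⟨a, h1, Or.inl h2⟩
  have hsymm : ∀ x y, Lk x y → Lk y x := fun x y h => ⟨h.1.symm, h.2.2.1, h.2.1, hAsymm _ _ h.2.2.2⟩
  have hirr : ∀ x, ¬ Lk x x := fun x h => h.1 rfl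
  have hG : ∀ (n : ℕ) (x : ℕ → V), 4 ≤ n → (∀ i j, i < n → j < n → x i = x j → i = j) →
      (∀ i, i + 1 < n → Lk (x i) (x (i + 1))) → ¬ Lk (x (n - 1)) (x 0) := by
    intro n x hn hinj hx hlast
    have hz : ∀ i, i < n → ReflTransGen Step (x 0) (x i) ∧ ReflTransGen Step (x i) (x 0) := by
      intro i
      induction i with
      | zero => intro _; exact ⟨ReflTransGen.refl, ReflTransGen.refl⟩
      | succ i ih =>
        intro hi
        obtain ⟨h1, h2⟩ := ih (by omega)
        have h3 := hx i hi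
        exact ⟨h1.trans h3.2.1, h3.2.2.1.trans h2⟩
    refine hcyc n x hn hinj (fun i j hi hj => (hz i hi).2.trans (hz j hj).1)
      (fun i hi => (hx i hi).2.2.2) hlast.2.2.2
  have hLr : ∀ x y, Lk x y → x ≠ r0 := by
    rintro x y h hx
    rcases ReflTransGen.cases_head h.2.1 with h1 | ⟨w, hw, _⟩
    · exact h.1 h1
    · obtain ⟨a, _, _, _, h4, _⟩ := hw
      exact h4 hx
  -- codes of blocks
  let cd : Finset V → ℕ := fun K => (Fintype.equivFin (Finset V) K).val
  have hcdinj : ∀ K K', cd K = cd K' → K = K' := by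
    intro K K' h
    exact (Fintype.equivFin (Finset V)).injective (Fin.ext h)
  have hcdlt : ∀ K, cd K < Fintype.card (Finset V) := fun K => (Fintype.equivFin (Finset V) K).isLt
  obtain ⟨idx, hidxlt, hidxinj⟩ := numbering2 V
  -- ranks
  let rk : A → ℕ := fun a => if Lk (tail a) (head a) then
      2 * cd (blk Lk (tail a) (head a)) +
        (if idx (blk Lk (tail a) (head a)) (tail a) = (idx (blk Lk (tail a) (head a)) (head a) + 1) % 3 then 0 else 1)
    else 2 * Fintype.card (Finset V)
  have hrk : ∀ a K j, j < 2 → rk a = 2 * cd K + j → Lk (tail a) (head a) ∧ blk Lk (tail a) (head a) = K ∧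
      (j = 0 ↔ idx K (tail a) = (idx K (head a) + 1) % 3) := by
    intro a K j hj h
    by_cases hL : Lk (tail a) (head a)
    · simp only [rk, if_pos hL] at h
      have hK : blk Lk (tail a) (head a) = K := by
        apply hcdinj
        split_ifs at h <;> omega
      rw [hK] at h
      refine ⟨hL, hK, ?_⟩
      split_ifs at h with h2
      · exact ⟨fun _ => h2, fun _ => by omega⟩
      · exact ⟨fun h3 => by omega, fun h3 => absurd h3 h2⟩
    · simp only [rk, if_neg hL] at h
      have := hcdlt K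
      omega
  have hrk' : ∀ a K, Lk (tail a) (head a) → blk Lk (tail a) (head a) = K →
      rk a = 2 * cd K + (if idx K (tail a) = (idx K (head a) + 1) % 3 then 0 else 1) := by
    intro a K hL hK
    simp only [rk, if_pos hL, hK]
  have hmemblk : ∀ x y, x ∈ blk Lk x y ∧ y ∈ blk Lk x y := by
    intro x y
    exact ⟨(mem_blk Lk x y x).mpr (Or.inl rfl), (mem_blk Lk x y y).mpr (Or.inr (Or.inl rfl))⟩
  have hcard : ∀ x y, Lk x y → (blk Lk x y).card ≤ 3 := fun x y h => blk_card Lk hsymm hirr hG x y h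
  let code : A → ℕ := fun a => (Fintype.equivFin A a).val
  have hcode : ∀ a, code a < Fintype.card A := fun a => (Fintype.equivFin A a).isLt
  let key : A → ℕ := fun a => code a + Fintype.card A * rk a
  have hkeyinj : Function.Injective key := by
    intro a b hab
    have h1 : key a % Fintype.card A = code a := by
      simp only [key, Nat.add_mul_mod_self_left]
      exact Nat.mod_eq_of_lt (hcode a)
    have h2 : key b % Fintype.card A = code b := by
      simp only [key, Nat.add_mul_mod_self_left]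
      exact Nat.mod_eq_of_lt (hcode b)
    have h3 : code a = code b := by rw [← h1, ← h2, hab]
    exact (Fintype.equivFin A).injective (Fin.ext h3)
  have hkeyrk : ∀ a, key a / Fintype.card A = rk a := by
    intro a
    have hM : 0 < Fintype.card A := lt_of_le_of_lt (Nat.zero_le _) (hcode a)
    simp only [key]
    rw [Nat.add_mul_div_left _ _ hM, Nat.div_eq_of_lt (hcode a), zero_add]
  have hsort := fun u : {v : V // v ≠ r0} => sorted N (fun t => e t u) key
  choose σ hσ using hsort
  have hrkmono : ∀ u, Monotone (fun p => rk (e (σ u p) u)) := by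
    intro u p q hpq
    have := hσ u hpq
    simp only at this ⊢
    rw [← hkeyrk, ← hkeyrk]
    exact Nat.div_le_div_right this
  -- events
  let Q : ℕ → Finset V → ℕ → Fin N → Prop := fun j K i t =>
    ∃ u : {v : V // v ≠ r0}, u.1 ∈ K ∧ idx K u.1 = i ∧ rk (e t u) = 2 * cd K + j
  let C : ℕ → Finset V → ℕ → ℕ := fun j K i => (Finset.univ.filter (Q j K i)).card
  have huniq : ∀ (K : Finset V) (u u' : {v : V // v ≠ r0}), u.1 ∈ K → u'.1 ∈ K → idx K u.1 = idx K u'.1 → u = u' := by
    intro K u u' h1 h2 h3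
    exact Subtype.ext (hidxinj K _ _ h1 h2 h3)
  -- two-cycles do not occur in T
  have hno2 : ∀ (t : Fin N) (u u' : {v : V // v ≠ r0}), tail (e t u) = u'.1 → tail (e t u') = u.1 → False := by
    intro t u u' h1 h2
    obtain ⟨a, haT, hS, hnS⟩ := enter tail head r0 (T t) (hT2 t) (fun x => x = u.1 ∨ x = u'.1)
      (by rintro (h | h)
          · exact u.2 h.symm
          · exact u'.2 h.symm) u.1 (Or.inl rfl)
    rcases hS with h | h
    · have := heu t u a haT h
      rw [this] at hnS
      exact hnS (Or.inr h1)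
    · have := heu t u' a haT h
      rw [this] at hnS
      exact hnS (Or.inl h2)
  have hpair : ∀ (K : Finset V) (i i' : ℕ), i < 3 → i' = (i + 2) % 3 → C 1 K i + C 0 K i' ≤ N := by
    intro K i i' hi hi'
    apply two_events
    rintro t ⟨⟨u, hu1, hu2, hu3⟩, ⟨u', hu1', hu2', hu3'⟩⟩
    obtain ⟨g1, g2, g3⟩ := hrk _ _ _ (by norm_num) hu3
    obtain ⟨g1', g2', g3'⟩ := hrk _ _ _ (by norm_num) hu3'
    have g4' := g3'.mp rfl
    have g4 : ¬ idx K (tail (e t u)) = (idx K (head (e t u)) + 1) % 3 := fun h => by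
      have := g3.mpr h
      omega
    have hm := hmemblk (tail (e t u)) (head (e t u))
    have hm' := hmemblk (tail (e t u')) (head (e t u'))
    rw [g2] at hm
    rw [g2'] at hm'
    have hK3 : K.card ≤ 3 := by rw [← g2]; exact hcard _ _ g1
    have hlt1 := hidxlt K _ hm.1
    have hlt2 := hidxlt K _ hm.2
    have hlt1' := hidxlt K _ hm'.1
    have hne : idx K (tail (e t u)) ≠ idx K (head (e t u)) := fun h => g1.1 (hidxinj K _ _ hm.1 hm.2 h)
    rw [(he t u).2] at g4 hne hlt2
    rw [(he t u').2] at g4'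
    have e1 : tail (e t u) = u'.1 := by
      apply hidxinj K
      · exact hm.1
      · exact hu1'
      · rw [hu2'] 
        rw [hu2] at g4 hne
        omega
    have e2 : tail (e t u') = u.1 := by
      apply hidxinj K
      · exact hm'.1
      · exact hu1
      · rw [g4', hu2', hu2, hi']
        omega
    exact hno2 t u u' e1 e2
  have hsix : ∀ K : Finset V, C 0 K 0 + C 1 K 0 + C 0 K 1 + C 1 K 1 + C 0 K 2 + C 1 K 2 ≤ 2 * N := by
    intro K
    have f1 : ∀ i t, ¬ (Q 0 K i t ∧ Q 1 K i t) := by
      rintro i t ⟨⟨u, hu1, hu2, hu3⟩, ⟨u', hu1', hu2', hu3'⟩⟩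
      have := huniq K u u' hu1 hu1' (by rw [hu2, hu2'])
      subst this
      rw [hu3] at hu3'
      omega
    have f2 : ∀ t, ¬ ((Q 0 K 0 t ∨ Q 1 K 0 t) ∧ (Q 0 K 1 t ∨ Q 1 K 1 t) ∧ (Q 0 K 2 t ∨ Q 1 K 2 t)) := by
      intro t hall
      have aux : ∀ i, (Q 0 K i t ∨ Q 1 K i t) → ∃ u : {v : V // v ≠ r0}, u.1 ∈ K ∧ idx K u.1 = i ∧
          tail (e t u) ∈ K ∧ K.card ≤ 3 := by
        rintro i (⟨u, h1, h2, h3⟩ | ⟨u, h1, h2, h3⟩)
        · obtain ⟨g1, g2, g3⟩ := hrk _ _ _ (by norm_num) h3
          have hm := hmemblk (tail (e t u)) (head (e t u))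
          have hcc := hcard _ _ g1
          rw [g2] at hm hcc
          exact ⟨u, h1, h2, hm.1, hcc⟩
        · obtain ⟨g1, g2, g3⟩ := hrk _ _ _ (by norm_num) h3
          have hm := hmemblk (tail (e t u)) (head (e t u))
          have hcc := hcard _ _ g1
          rw [g2] at hm hcc
          exact ⟨u, h1, h2, hm.1, hcc⟩
      have hall' : ∀ i, i < 3 → ∃ u : {v : V // v ≠ r0}, u.1 ∈ K ∧ idx K u.1 = i ∧
          tail (e t u) ∈ K ∧ K.card ≤ 3 := by
        intro i hi
        have hi' : i = 0 ∨ i = 1 ∨ i = 2 := by omega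
        rcases hi' with rfl | rfl | rfl
        · exact aux _ hall.1
        · exact aux _ hall.2.1
        · exact aux _ hall.2.2
      obtain ⟨u0, hu0, _, _, hK3⟩ := hall' 0 (by norm_num)
      -- the set K without the root
      have hKr : ∀ w, w ∈ K → w ≠ r0 := by
        intro w hw
        have : ∃ j, j < 2 ∧ ∃ u : {v : V // v ≠ r0}, rk (e t u) = 2 * cd K + j := by
          rcases hall.1 with ⟨u, _, _, h3⟩ | ⟨u, _, _, h3⟩
          · exact ⟨0, by norm_num, u, h3⟩
          · exact ⟨1, by norm_num, u, h3⟩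
        obtain ⟨j, hj, u, h3⟩ := this
        obtain ⟨g1, g2, _⟩ := hrk _ _ _ hj h3
        rw [← g2, mem_blk] at hw
        rcases hw with rfl | rfl | ⟨h4, _⟩
        · exact hLr _ _ g1
        · exact hLr _ _ (hsymm _ _ g1)
        · exact hLr _ _ (hsymm _ _ h4)
      obtain ⟨a, haT, hS, hnS⟩ := enter tail head r0 (T t) (hT2 t) (fun x => x ∈ K)
        (fun h => hKr _ h rfl) u0.1 hu0
      obtain ⟨u, hu1, hu2, hu3, _⟩ := hall' (idx K (head a)) (by have := hidxlt K _ hS; omega)
      have hau : head a = u.1 := by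
        apply hidxinj K
        · exact hS
        · exact hu1
        · exact hu2.symm
      have := heu t u a haT hau
      rw [this] at hnS
      exact hnS hu3
    exact six_events (Q 0 K 0) (Q 1 K 0) (Q 0 K 1) (Q 1 K 1) (Q 0 K 2) (Q 1 K 2)
      (f1 0) (f1 1) (f1 2) f2
  -- offsets
  have hoff : ∀ K : Finset V, ∃ θ1 θ2 : ℕ, C 0 K 0 + C 1 K 0 ≤ θ2 ∧ θ2 + C 0 K 2 ≤ N + C 0 K 0 ∧
      θ2 + C 0 K 2 + C 1 K 2 ≤ θ1 ∧ θ1 + C 0 K 1 ≤ N + θ2 + C 0 K 2 ∧
      θ1 + C 0 K 1 + C 1 K 1 ≤ 2 * N ∧ N + C 0 K 0 ≤ θ1 + C 0 K 1 := by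
    intro K
    apply offsets
    · exact hpair K 0 2 (by norm_num) (by norm_num)
    · exact hpair K 2 1 (by norm_num) (by norm_num)
    · exact hpair K 1 0 (by norm_num) (by norm_num)
    · exact hsix K
  choose θ1 θ2 hθ using hoff
  let θ : Finset V → ℕ → ℕ := fun K i => if i = 0 then 0 else if i = 1 then θ1 K else θ2 K
  -- start of the block inside the list of a node
  let S : Finset V → V → ℕ := fun K x => if h : x ≠ r0 then
    (Finset.univ.filter (fun p => rk (e (σ ⟨x, h⟩ p) ⟨x, h⟩) < 2 * cd K)).card else 0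
  have hS : ∀ K (u : {v : V // v ≠ r0}), S K u.1 =
      (Finset.univ.filter (fun p => rk (e (σ u p) u) < 2 * cd K)).card := by
    intro K u
    simp only [S, dif_pos u.2]
  let κ : Finset V → V → ZMod N := fun K x => ((θ K (idx K x) : ℕ) : ZMod N) - ((S K x : ℕ) : ZMod N)
  obtain ⟨φ, hφ⟩ := potential Lk (fun x y => κ (blk Lk x y) x - κ (blk Lk x y) y) hsymm hirr
    (by
      intro x y _
      rw [blk_symm Lk y x]
      ring)
    (by
      intro x y z h1 h2 h3
      rw [← blk_tri_eq Lk hsymm hirr hG y z x h2 h3 h1, ← blk_tri_eq Lk hsymm hirr hG x y z h1 h2 h3]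
      ring) hG
  let pos : Fin N → {v : V // v ≠ r0} → Fin N := fun t u =>
    ⟨(((t.val : ℕ) : ZMod N) + φ u.1).val, ZMod.val_lt _⟩
  have hposcast : ∀ t u, (((pos t u).val : ℕ) : ZMod N) = ((t.val : ℕ) : ZMod N) + φ u.1 := by
    intro t u
    simp only [pos]
    exact ZMod.natCast_zmod_val _
  have hposval : ∀ t u, (pos t u).val = (t.val + (φ u.1).val) % N := by
    intro t u
    simp only [pos]
    rw [ZMod.val_add, ZMod.val_natCast, Nat.mod_add_mod]
  -- counting for one node
  have hcount : ∀ (K : Finset V) (u : {v : V // v ≠ r0}) (j : ℕ), u.1 ∈ K →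
      (Finset.univ.filter (fun p => rk (e (σ u p) u) = 2 * cd K + j)).card = C j K (idx K u.1) := by
    intro K u j huK
    rw [card_perm (σ u) (fun t => rk (e t u) = 2 * cd K + j)]
    apply congrArg Finset.card
    ext t
    simp only [Finset.mem_filter, Finset.mem_univ, true_and]
    constructor
    · intro h
      exact ⟨u, huK, rfl, h⟩
    · rintro ⟨u', h1, h2, h3⟩
      have := huniq K u' u h1 huK h2
      rw [← this]
      exact h3
  let f : Fin N → {v : V // v ≠ r0} → A := fun t u => e (σ u (pos t u)) u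
  have hfhead : ∀ t u, head (f t u) = u.1 := fun t u => (he _ u).2
  have hfpos : ∀ t u, 0 < c (f t u) := fun t u => hpos _ _ (he _ u).1
  have hf0 : ∀ t u K, u.1 ∈ K → rk (f t u) = 2 * cd K → S K u.1 ≤ (pos t u).val ∧
      (pos t u).val < S K u.1 + C 0 K (idx K u.1) := by
    intro t u K huK h
    have := rank_pos _ (hrkmono u) (pos t u) (2 * cd K) h
    have h2 := hcount K u 0 huK
    rw [Nat.add_zero] at h2
    rw [h2, ← hS] at this
    exact this
  have hf1 : ∀ t u K, u.1 ∈ K → rk (f t u) = 2 * cd K + 1 → S K u.1 + C 0 K (idx K u.1) ≤ (pos t u).val ∧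
      (pos t u).val < S K u.1 + C 0 K (idx K u.1) + C 1 K (idx K u.1) := by
    intro t u K huK h
    have := rank_pos _ (hrkmono u) (pos t u) (2 * cd K + 1) h
    have h2 := hcount K u 0 huK
    rw [Nat.add_zero] at h2
    rw [hcount K u 1 huK, card_lt_succ, h2, ← hS] at this
    exact this
  -- loops do not occur
  have hnoloop : ∀ t u, tail (f t u) ≠ u.1 := by
    intro t u h
    obtain ⟨a, haT, hS, hnS⟩ := enter tail head r0 (T (σ u (pos t u))) (hT2 _) (fun x => x = u.1)
      (fun h => u.2 h.symm) u.1 rfl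
    have := heu _ u a haT hS
    rw [this] at hnS
    exact hnS h
  -- multiplicities
  have hmult : ∀ u a, (Finset.univ.filter (fun p => e (σ u p) u = a)).card ≤ c a := by
    intro u a
    rw [card_perm (σ u) (fun t => e t u = a)]
    refine le_trans (Finset.card_le_card ?_) (hTc a)
    intro t ht
    simp only [Finset.mem_filter, Finset.mem_univ, true_and] at ht ⊢
    rw [← ht]
    exact (he t u).1
  have hposinj : ∀ u, Function.Injective (fun t => pos t u) := by
    intro u t t' h
    have h' : pos t u = pos t' u := h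
    have h1 := hposcast t u
    have h2 := hposcast t' u
    rw [h'] at h1
    rw [h1] at h2
    have h3 : ((t.val : ℕ) : ZMod N) = ((t'.val : ℕ) : ZMod N) := by
      exact add_right_cancel h2
    have h4 := (ZMod.natCast_eq_natCast_iff' _ _ _).mp h3
    rw [Nat.mod_eq_of_lt t.isLt, Nat.mod_eq_of_lt t'.isLt] at h4
    exact Fin.ext h4
  refine ⟨f, hfhead, ?_, ?_, ?_⟩
  · intro t π hπ0 hπ
    apply reach_root π r0
    intro x n hn hx
    by_contra hx0
    -- all iterates avoid the root
    have hper : ∀ j, π^[n * j] x = x := by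
      intro j
      exact Function.IsPeriodicPt.mul_const (f := π) (show Function.IsPeriodicPt π n x from hx) j
    have hle : ∀ j, j ≤ n * (j + 1) := by
      intro j
      nlinarith
    have hne : ∀ j, π^[j] x ≠ r0 := by
      intro j hj
      apply hx0
      rw [← hper (j + 1), show n * (j + 1) = (n * (j + 1) - j) + j by have := hle j; omega,
        Function.iterate_add_apply, hj]
      exact Function.iterate_fixed hπ0 _
    let u : ℕ → {v : V // v ≠ r0} := fun j => ⟨π^[j] x, hne j⟩
    have hu : ∀ j, (u (j + 1)).1 = tail (f t (u j)) := by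
      intro j
      rw [← hπ (u j)]
      exact Function.iterate_succ_apply' π j x
    have hstep : ∀ j, Step (π^[j + 1] x) (π^[j] x) := by
      intro j
      exact ⟨f t (u j), hfpos t (u j), (hu j).symm, hfhead t (u j), hne (j + 1), hne j⟩
    have hanc : ∀ j m, ReflTransGen Step (π^[m + j] x) (π^[j] x) := by
      intro j m
      induction m with
      | zero => rw [Nat.zero_add]
      | succ m ih =>
        refine ReflTransGen.head ?_ ih
        have := hstep (m + j)
        rwa [show m + j + 1 = m + 1 + j by omega] at this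
    have hconn : ∀ j, ReflTransGen Step (u j).1 x ∧ ReflTransGen Step x (u j).1 := by
      intro j
      refine ⟨?_, ?_⟩
      · exact hanc 0 j
      · have := hanc j (n * (j + 1) - j)
        rw [show n * (j + 1) - j + j = n * (j + 1) by have := hle j; omega, hper] at this
        exact this
    have hLk : ∀ j, Lk (u (j + 1)).1 (u j).1 := by
      intro j
      refine ⟨?_, (hconn (j + 1)).1.trans (hconn j).2, (hconn j).1.trans (hconn (j + 1)).2, ?_⟩
      · intro h
        rw [hu j] at h
        exact hnoloop t (u j) h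
      · exact ⟨f t (u j), hfpos t (u j), Or.inl ⟨(hu j).symm, hfhead t (u j)⟩⟩
    -- the minimal period
    have hmp : 0 < Function.minimalPeriod π x :=
      Function.minimalPeriod_pos_of_mem_periodicPts ⟨n, hn, hx⟩
    obtain ⟨m, hm⟩ : ∃ m, m = Function.minimalPeriod π x := ⟨_, rfl⟩
    rw [← hm] at hmp
    have hmx : ∀ j, π^[m + j] x = π^[j] x := by
      intro j
      rw [Nat.add_comm, Function.iterate_add_apply, hm, Function.iterate_minimalPeriod]
    have hum : ∀ j, u (m + j) = u j := fun j => Subtype.ext (hmx j)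
    have hm3 : m ≤ 3 := by
      by_contra hcon
      have hinj := Function.iterate_injOn_Iio_minimalPeriod (f := π) (x := x)
      rw [← hm] at hinj
      refine hG m (fun j => (u j).1) (by omega) ?_ ?_ ?_
      · intro i j hi hj hij
        exact hinj (Set.mem_Iio.mpr hi) (Set.mem_Iio.mpr hj) hij
      · intro i _
        exact hsymm _ _ (hLk i)
      · have h1 := hLk (m - 1)
        rw [show m - 1 + 1 = m + 0 by omega, hum 0] at h1
        exact hsymm _ _ h1
    -- the block
    obtain ⟨K, hK0, hK1, hK2⟩ : ∃ K, blk Lk (u 1).1 (u 0).1 = K ∧ blk Lk (u 2).1 (u 1).1 = K ∧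
        blk Lk (u 3).1 (u 2).1 = K := by
      have vm : m = 1 ∨ m = 2 ∨ m = 3 := by omega
      rcases vm with hm1 | hm2 | hm3'
      · exfalso
        have h1 := hLk 0
        have h2 := hum 0
        rw [hm1] at h2
        rw [show 0 + 1 = 1 + 0 by norm_num, h2] at h1
        exact hirr _ h1
      · have h2 := hum 0
        have h3 := hum 1
        rw [hm2] at h2 h3
        have h2' : u 2 = u 0 := h2
        have h3' : u 3 = u 1 := h3
        refine ⟨blk Lk (u 1).1 (u 0).1, rfl, ?_, ?_⟩
        · rw [h2']; exact blk_symm Lk _ _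
        · rw [h2', h3']
      · have h2 := hum 0
        rw [hm3'] at h2
        have h2' : u 3 = u 0 := h2
        have l0 := hLk 0
        have l1 := hLk 1
        have l2 := hLk 2
        rw [show 2 + 1 = 3 by norm_num, h2'] at l2
        rw [show 1 + 1 = 2 by norm_num] at l1
        rw [show 0 + 1 = 1 by norm_num] at l0
        -- l0 : Lk u1 u0, l1 : Lk u2 u1, l2 : Lk u0 u2
        have b1 := blk_tri_eq Lk hsymm hirr hG _ _ _ l1 l0 l2
        have b2 := blk_tri_eq Lk hsymm hirr hG _ _ _ l2 l1 l0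
        refine ⟨blk Lk (u 1).1 (u 0).1, rfl, b1, ?_⟩
        rw [h2', b2, b1]
    have hKj : ∀ j, j < 3 → blk Lk (u (j + 1)).1 (u j).1 = K := by
      intro j hj
      have vj : j = 0 ∨ j = 1 ∨ j = 2 := by omega
      rcases vj with rfl | rfl | rfl
      · exact hK0
      · exact hK1
      · exact hK2
    have hKm : ∀ j, j < 3 → (u j).1 ∈ K ∧ (u (j + 1)).1 ∈ K := by
      intro j hj
      have := hmemblk (u (j + 1)).1 (u j).1
      rw [hKj j hj] at this
      exact ⟨this.2, this.1⟩
    have hK3 : K.card ≤ 3 := by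
      rw [← hKj 0 (by norm_num)]
      exact hcard _ _ (hLk 0)
    have hidx3 : ∀ j, j < 3 → idx K (u j).1 < 3 ∧ idx K (u (j + 1)).1 < 3 := by
      intro j hj
      have h1 := hidxlt K _ (hKm j hj).1
      have h2 := hidxlt K _ (hKm j hj).2
      omega
    have hidxne : ∀ j, j < 3 → idx K (u (j + 1)).1 ≠ idx K (u j).1 := by
      intro j hj h
      exact (hLk j).1 (hidxinj K _ _ (hKm j hj).2 (hKm j hj).1 h)
    have hrkj : ∀ j, j < 3 → rk (f t (u j)) = 2 * cd K +
        (if idx K (u (j + 1)).1 = (idx K (u j).1 + 1) % 3 then 0 else 1) := by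
      intro j hj
      have h1 := hLk j
      have h2 := hKj j hj
      have h3 := hrk' (f t (u j)) K (by rw [← hu j, hfhead]; exact h1) (by rw [← hu j, hfhead]; exact h2)
      rw [h3, ← hu j, hfhead]
    have F0 : ∀ j, j < 3 → idx K (u (j + 1)).1 = (idx K (u j).1 + 1) % 3 →
        S K (u j).1 ≤ (pos t (u j)).val ∧ (pos t (u j)).val < S K (u j).1 + C 0 K (idx K (u j).1) := by
      intro j hj h
      have h1 := hrkj j hj
      rw [if_pos h, Nat.add_zero] at h1
      exact hf0 t (u j) K (hKm j hj).1 h1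
    have F1 : ∀ j, j < 3 → idx K (u (j + 1)).1 = (idx K (u j).1 + 2) % 3 →
        S K (u j).1 + C 0 K (idx K (u j).1) ≤ (pos t (u j)).val ∧
        (pos t (u j)).val < S K (u j).1 + C 0 K (idx K (u j).1) + C 1 K (idx K (u j).1) := by
      intro j hj h
      have h1 := hrkj j hj
      have h2 := hidx3 j hj
      rw [if_neg (by omega)] at h1
      exact hf1 t (u j) K (hKm j hj).1 h1
    have FS : ∀ j, j < 3 → S K (u j).1 ≤ (pos t (u j)).val := by
      intro j hj
      have a1 := hidx3 j hj
      have a3 := hidxne j hj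
      by_cases h : idx K (u (j + 1)).1 = (idx K (u j).1 + 1) % 3
      · exact (F0 j hj h).1
      · have := (F1 j hj (by omega)).1
        omega
    have FQ : ∀ j, j < 3 → (pos t (u j)).val - S K (u j).1 < C 0 K (idx K (u j).1) + C 1 K (idx K (u j).1) := by
      intro j hj
      have a1 := hidx3 j hj
      have a3 := hidxne j hj
      have a4 := FS j hj
      by_cases h : idx K (u (j + 1)).1 = (idx K (u j).1 + 1) % 3
      · have := (F0 j hj h).2
        omega
      · have := (F1 j hj (by omega)).2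
        omega
    have Fφ : ∀ j, j < 3 → φ (u (j + 1)).1 + κ K (u (j + 1)).1 = φ (u j).1 + κ K (u j).1 := by
      intro j hj
      have h1 := hφ _ _ (hLk j)
      simp only [hKj j hj] at h1
      rw [h1]
      ring
    have FM : ∀ j, j < 3 → (θ K (idx K (u j).1) + ((pos t (u j)).val - S K (u j).1)) % N =
        (((t.val : ℕ) : ZMod N) + (φ (u j).1 + κ K (u j).1)).val := by
      intro j hj
      rw [← ZMod.val_natCast]
      congr 1
      rw [Nat.cast_add, Nat.cast_sub (FS j hj), hposcast]
      simp only [κ]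
      ring
    have FM1 := FM 0 (by norm_num)
    have FM2 := FM 1 (by norm_num)
    have FM3 := FM 2 (by norm_num)
    have k1 := Fφ 0 (by norm_num)
    have k2 := Fφ 1 (by norm_num)
    rw [show 1 + 1 = 2 by norm_num] at k2
    rw [show 0 + 1 = 1 by norm_num] at k1
    rw [k2, k1] at FM3
    rw [k1] at FM2
    obtain ⟨e1, e2, e3, e4, e5, e6⟩ := hθ K
    exact hexagon N (C 0 K) (C 1 K) (θ K) rfl e1 e2 e3 e4 e5 e6
      (idx K (u 0).1) (idx K (u 1).1) (idx K (u 2).1)
      ((pos t (u 0)).val - S K (u 0).1) ((pos t (u 1)).val - S K (u 1).1) ((pos t (u 2)).val - S K (u 2).1)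
      (hidx3 0 (by norm_num)).1 (hidx3 1 (by norm_num)).1 (hidx3 2 (by norm_num)).1
      (hidxne 0 (by norm_num)) (hidxne 1 (by norm_num))
      (fun h => by have := F0 0 (by norm_num) h; omega)
      (fun h => by have := F1 0 (by norm_num) h; omega)
      (fun h => by have := F0 1 (by norm_num) h; omega)
      (fun h => by have := F1 1 (by norm_num) h; omega)
      (FQ 0 (by norm_num)) (FQ 1 (by norm_num)) (FQ 2 (by norm_num)) _ FM1 FM2 FM3
  · intro u a
    refine le_trans ?_ (hmult u a)
    apply Finset.card_le_card_of_injOn (fun t => pos t u)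
    · intro t ht
      have ht' : f t u = a := by simpa using ht
      have : e (σ u (pos t u)) u = a := ht'
      simpa using this
    · intro t _ t' _ h
      exact hposinj u h
  · intro u t t' hft hmod
    have hd : ∀ p q : Fin N, p ≤ q → e (σ u p) u = f t u → e (σ u q) u = f t u → q.val < p.val + l := by
      intro p q hpq h1 h2
      exact dist_lt (fun p => e (σ u p) u) key hkeyinj (hσ u) (f t u) l
        (le_trans (hmult u _) (hc _)) p q hpq h1 h2
    have hml : ∀ t'' : Fin N, (pos t'' u).val % l = (t''.val + (φ u.1).val) % l := by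
      intro t''
      rw [hposval, Nat.mod_mod_of_dvd _ hlN]
    have hm : (pos t u).val % l = (pos t' u).val % l := by
      rw [hml t, hml t', Nat.add_mod, hmod, ← Nat.add_mod]
    have hpp : pos t u = pos t' u := by
      rcases le_total (pos t u) (pos t' u) with h | h
      · have h1 := hd _ _ h rfl hft.symm
        have h2 : (pos t u).val ≤ (pos t' u).val := h
        have := mod_close l _ _ hm (by omega) (by omega)
        exact Fin.ext this
      · have h1 := hd _ _ h hft.symm rfl
        have h2 : (pos t' u).val ≤ (pos t u).val := h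
        have := mod_close l _ _ hm.symm (by omega) (by omega)
        exact Fin.ext this.symm
    exact hposinj u hpp

end Run7.h436.KArb
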