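import Mathlib
import Pool.Agent.Run7.h436.KArbMain

set_option autoImplicit false

namespace Run7.h436.KArb

open Relation

/-- consecutive intervals of lengths `g u` cover an initial segment -/
theorem cover {U : Type} [Fintype U] (g : U → ℕ) :
    ∃ s : U → ℕ, ∀ t, t < ∑ u, g u → ∃ u, s u ≤ t ∧ t < s u + g u := by
  classical
  let E := Fintype.equivFin U
  let g' : ℕ → ℕ := fun i => if h : i < Fintype.card U then g (E.symm ⟨i, h⟩) else 0
  have hsum : ∑ u, g u = ∑ i ∈ Finset.range (Fintype.card U), g' i := by
    rw [Finset.sum_range, ← E.symm.sum_comp]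
    apply Finset.sum_congr rfl
    intro i _
    simp only [g', dif_pos i.isLt]
  refine ⟨fun u => ∑ i ∈ Finset.range (E u).val, g' i, ?_⟩
  intro t ht
  rw [hsum] at ht
  have hex : ∃ i, t < ∑ j ∈ Finset.range i, g' j := ⟨_, ht⟩
  obtain ⟨i, hi, hmin⟩ : ∃ i, t < ∑ j ∈ Finset.range i, g' j ∧
      ∀ j, j < i → ¬ t < ∑ q ∈ Finset.range j, g' q :=
    ⟨Nat.find hex, Nat.find_spec hex, fun j hj => Nat.find_min hex hj⟩
  cases i with
  | zero => simp at hi
  | succ i =>
    have h1 := hmin i (Nat.lt_succ_self i)
    rw [Finset.sum_range_succ] at hi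
    have hlt : i < Fintype.card U := by
      by_contra hcon
      have : g' i = 0 := by simp only [g', dif_neg hcon]
      omega
    have hg : g' i = g (E.symm ⟨i, hlt⟩) := by simp only [g', dif_pos hlt]
    refine ⟨E.symm ⟨i, hlt⟩, ?_, ?_⟩
    · simp only [Equiv.apply_symm_apply]
      omega
    · simp only [Equiv.apply_symm_apply]
      rw [← hg]
      exact hi

theorem core3 (V A : Type) [Fintype V] [Fintype A] [DecidableEq V] [DecidableEq A]
    (tail head : A → V) (r0 : V) (c : A → ℕ) (N l : ℕ) (hN : 0 < N) (hlN : l ∣ N)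
    (K : V → Prop) (P : V → V → Prop) (v0 : V) (hv0 : K v0) (hKr : ∀ v, K v → v ≠ r0)
    (hP : ∀ a, 0 < c a → tail a = r0 ∨ (K (tail a) ∧ K (head a) ∧ P (tail a) (head a)))
    (huq : ∀ x y z, K x → K y → K z → P x z → P y z → x = y)
    (hstr : ∀ w x, K w → K x → ReflTransGen (fun a b => P a b ∧ K a ∧ K b) w x)
    (hc : ∀ a, c a ≤ l)
    (T : Fin N → Finset A)
    (hT1 : ∀ i, ∀ v : V, v ≠ r0 → ∃! a : A, a ∈ T i ∧ head a = v)
    (hT2 : ∀ i, ∀ v : V, ReflTransGen (fun x y : V => ∃ a ∈ T i, tail a = x ∧ head a = y) r0 v)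
    (hTc : ∀ a : A, (Finset.univ.filter (fun i => a ∈ T i)).card ≤ c a) :
    ∃ f : Fin N → {v : V // v ≠ r0} → A,
      (∀ t u, head (f t u) = u.1) ∧
      (∀ t (π : V → V), π r0 = r0 → (∀ u : {v : V // v ≠ r0}, π u.1 = tail (f t u)) →
        ∀ v, ∃ n, π^[n] v = r0) ∧
      (∀ u a, (Finset.univ.filter (fun t => f t u = a)).card ≤ c a) ∧
      (∀ u t t', f t u = f t' u → t.val % l = t'.val % l → t = t') := by
  classical
  have : NeZero N := ⟨hN.ne'⟩
  have hpos : ∀ i a, a ∈ T i → 0 < c a := by
    intro i a ha
    have : i ∈ Finset.univ.filter (fun i => a ∈ T i) := by simp [ha]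
    have h1 := Finset.card_pos.mpr ⟨i, this⟩
    have h2 := hTc a
    omega
  have hex : ∀ (i : Fin N) (u : {v : V // v ≠ r0}), ∃ a, (a ∈ T i ∧ head a = u.1) ∧
      ∀ b, b ∈ T i → head b = u.1 → b = a := by
    intro i u
    obtain ⟨a, ha, hu⟩ := hT1 i u.1 u.2
    exact ⟨a, ha, fun b hb1 hb2 => hu b ⟨hb1, hb2⟩⟩
  choose e he heu using hex
  let rk : A → ℕ := fun a => if K (tail a) then 0 else 1
  have hrk : ∀ a, rk a = 0 ↔ K (tail a) := by
    intro a
    simp only [rk]
    split_ifs with h
    · exact ⟨fun _ => h, fun _ => rfl⟩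
    · exact ⟨fun h2 => absurd h2 (by norm_num), fun h2 => absurd h2 h⟩
  let code : A → ℕ := fun a => (Fintype.equivFin A a).val
  have hcode : ∀ a, code a < Fintype.card A := fun a => (Fintype.equivFin A a).isLt
  let key : A → ℕ := fun a => code a + Fintype.card A * rk a
  have hkeyinj : Function.Injective key := by
    intro a b hab
    have h1 : key a % Fintype.card A = code a := by
      simp only [key, Nat.add_mul_mod_self_left]
      exact Nat.mod_eq_of_lt (hcode a)
    have h2 : key b % Fintype.card A = code b := by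
      simp only [key, Nat.add_mul_mod_self_left]
      exact Nat.mod_eq_of_lt (hcode b)
    have h3 : code a = code b := by rw [← h1, ← h2, hab]
    exact (Fintype.equivFin A).injective (Fin.ext h3)
  have hkeyrk : ∀ a, key a / Fintype.card A = rk a := by
    intro a
    have hM : 0 < Fintype.card A := lt_of_le_of_lt (Nat.zero_le _) (hcode a)
    simp only [key]
    rw [Nat.add_mul_div_left _ _ hM, Nat.div_eq_of_lt (hcode a), zero_add]
  have hsort := fun u : {v : V // v ≠ r0} => sorted N (fun t => e t u) key
  choose σ hσ using hsort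
  have hrkmono : ∀ u, Monotone (fun p => rk (e (σ u p) u)) := by
    intro u p q hpq
    have := hσ u hpq
    simp only at this ⊢
    rw [← hkeyrk, ← hkeyrk]
    exact Nat.div_le_div_right this
  let C : {v : V // v ≠ r0} → ℕ := fun u => (Finset.univ.filter (fun t => rk (e t u) = 0)).card
  have hCN : ∀ u, C u ≤ N := by
    intro u
    calc _ ≤ (Finset.univ : Finset (Fin N)).card := Finset.card_le_card (Finset.subset_univ _)
      _ = N := by simp
  -- at every time some node of `K` is entered from outside
  have hout : ∀ t : Fin N, ∃ u : {v : V // v ≠ r0}, K u.1 ∧ ¬ rk (e t u) = 0 := by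
    intro t
    obtain ⟨a, haT, hS, hnS⟩ := enter tail head r0 (T t) (hT2 t) K (fun h => hKr _ h rfl) v0 hv0
    refine ⟨⟨head a, hKr _ hS⟩, hS, ?_⟩
    rw [hrk, ← heu t ⟨head a, hKr _ hS⟩ a haT rfl]
    exact hnS
  let g : {v : V // v ≠ r0} → ℕ := fun u => if K u.1 then N - C u else 0
  have hgN : N ≤ ∑ u, g u := by
    have h1 : ∀ u, g u = ∑ t : Fin N, if (K u.1 ∧ ¬ rk (e t u) = 0) then 1 else 0 := by
      intro u
      rw [← Finset.card_filter]
      by_cases h : K u.1
      · simp only [g, if_pos h, h, true_and]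
        have h2 := Finset.card_filter_add_card_filter_not (s := (Finset.univ : Finset (Fin N))) (fun t => rk (e t u) = 0)
        have h3 : (Finset.univ : Finset (Fin N)).card = N := by simp
        simp only [C]
        omega
      · simp [g, h]
    rw [Finset.sum_congr rfl (fun u _ => h1 u), Finset.sum_comm]
    calc N = ∑ _t : Fin N, 1 := by simp
      _ ≤ _ := by
        apply Finset.sum_le_sum
        intro t _
        obtain ⟨u, hu⟩ := hout t
        calc 1 = (if (K u.1 ∧ ¬ rk (e t u) = 0) then 1 else 0) := by rw [if_pos hu]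
          _ ≤ _ := Finset.single_le_sum (f := fun u : {v : V // v ≠ r0} =>
              if (K u.1 ∧ ¬ rk (e t u) = 0) then 1 else 0) (fun _ _ => Nat.zero_le _) (Finset.mem_univ u)
  obtain ⟨s, hs⟩ := cover g
  let φ : {v : V // v ≠ r0} → ZMod N := fun u => ((C u : ℕ) : ZMod N) - ((s u : ℕ) : ZMod N)
  let pos : Fin N → {v : V // v ≠ r0} → Fin N := fun t u =>
    ⟨(((t.val : ℕ) : ZMod N) + φ u).val, ZMod.val_lt _⟩
  have hposcast : ∀ t u, (((pos t u).val : ℕ) : ZMod N) = ((t.val : ℕ) : ZMod N) + φ u := by
    intro t u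
    simp only [pos]
    exact ZMod.natCast_zmod_val _
  have hposval : ∀ t u, (pos t u).val = (t.val + (φ u).val) % N := by
    intro t u
    simp only [pos]
    rw [ZMod.val_add, ZMod.val_natCast, Nat.mod_add_mod]
  let f : Fin N → {v : V // v ≠ r0} → A := fun t u => e (σ u (pos t u)) u
  have hfhead : ∀ t u, head (f t u) = u.1 := fun t u => (he _ u).2
  have hfpos : ∀ t u, 0 < c (f t u) := fun t u => hpos _ _ (he _ u).1
  have hf0 : ∀ t u, rk (f t u) = 0 → (pos t u).val < C u := by
    intro t u h
    have := rank0 _ (hrkmono u) (pos t u) h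
    rwa [card_perm (σ u) (fun t => rk (e t u) = 0)] at this
  -- at every time some node of `K` has its parent outside
  have hfout : ∀ t : Fin N, ∃ u : {v : V // v ≠ r0}, K u.1 ∧ ¬ K (tail (f t u)) := by
    intro t
    obtain ⟨u, hu1, hu2⟩ := hs t.val (lt_of_lt_of_le t.isLt hgN)
    have hK : K u.1 := by
      by_contra hcon
      have : g u = 0 := by simp only [g, if_neg hcon]
      omega
    refine ⟨u, hK, ?_⟩
    have hg : g u = N - C u := by simp only [g, if_pos hK]
    have hCu := hCN u
    intro hcon
    have h1 := hf0 t u ((hrk _).mpr hcon)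
    have h2 : (pos t u).val = C u + (t.val - s u) := by
      have h3 : (((t.val : ℕ) : ZMod N) + φ u) = ((C u + (t.val - s u) : ℕ) : ZMod N) := by
        rw [Nat.cast_add, Nat.cast_sub hu1]
        simp only [φ]
        ring
      show (((t.val : ℕ) : ZMod N) + φ u).val = _
      rw [h3, ZMod.val_natCast]
      apply Nat.mod_eq_of_lt
      omega
    omega
  -- multiplicities
  have hmult : ∀ u a, (Finset.univ.filter (fun p => e (σ u p) u = a)).card ≤ c a := by
    intro u a
    rw [card_perm (σ u) (fun t => e t u = a)]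
    refine le_trans (Finset.card_le_card ?_) (hTc a)
    intro t ht
    simp only [Finset.mem_filter, Finset.mem_univ, true_and] at ht ⊢
    rw [← ht]
    exact (he t u).1
  have hposinj : ∀ u, Function.Injective (fun t => pos t u) := by
    intro u t t' h
    have h' : pos t u = pos t' u := h
    have h1 := hposcast t u
    have h2 := hposcast t' u
    rw [h'] at h1
    rw [h1] at h2
    have h3 : ((t.val : ℕ) : ZMod N) = ((t'.val : ℕ) : ZMod N) := by
      exact add_right_cancel h2
    have h4 := (ZMod.natCast_eq_natCast_iff' _ _ _).mp h3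
    rw [Nat.mod_eq_of_lt t.isLt, Nat.mod_eq_of_lt t'.isLt] at h4
    exact Fin.ext h4
  refine ⟨f, hfhead, ?_, ?_, ?_⟩
  · intro t π hπ0 hπ
    apply reach_root π r0
    intro x n hn hx
    by_contra hx0
    have hper : ∀ j, π^[n * j] x = x := by
      intro j
      exact Function.IsPeriodicPt.mul_const (f := π) (show Function.IsPeriodicPt π n x from hx) j
    have hle : ∀ j, j ≤ n * (j + 1) := by
      intro j
      nlinarith
    have hne : ∀ j, π^[j] x ≠ r0 := by
      intro j hj
      apply hx0
      rw [← hper (j + 1), show n * (j + 1) = (n * (j + 1) - j) + j by have := hle j; omega,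
        Function.iterate_add_apply, hj]
      exact Function.iterate_fixed hπ0 _
    let u : ℕ → {v : V // v ≠ r0} := fun j => ⟨π^[j] x, hne j⟩
    have hu : ∀ j, (u (j + 1)).1 = tail (f t (u j)) := by
      intro j
      rw [← hπ (u j)]
      exact Function.iterate_succ_apply' π j x
    have hstep : ∀ j, K (u (j + 1)).1 ∧ K (u j).1 ∧ P (u (j + 1)).1 (u j).1 := by
      intro j
      rcases hP _ (hfpos t (u j)) with h | h
      · exfalso
        rw [← hu j] at h
        exact (u (j + 1)).2 h
      · rw [← hu j, hfhead] at h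
        exact h
    have hall : ∀ w, K w → ∃ j, (u j).1 = w := by
      intro w hw
      have hr := hstr w x hw (hstep 0).2.1
      induction hr using ReflTransGen.head_induction_on with
      | refl => exact ⟨0, rfl⟩
      | @head a b hab _ ih =>
        obtain ⟨j, hj⟩ := ih hab.2.2
        refine ⟨j + 1, ?_⟩
        have h1 := hstep j
        rw [hj] at h1
        exact huq _ _ b h1.1 hab.2.1 hab.2.2 h1.2.2 hab.1
    obtain ⟨w, hw1, hw2⟩ := hfout t
    obtain ⟨j, hj⟩ := hall w.1 hw1
    have hj' : u j = w := Subtype.ext hj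
    apply hw2
    rw [← hj', ← hu j]
    exact (hstep j).1
  · intro u a
    refine le_trans ?_ (hmult u a)
    apply Finset.card_le_card_of_injOn (fun t => pos t u)
    · intro t ht
      have ht' : f t u = a := by simpa using ht
      have : e (σ u (pos t u)) u = a := ht'
      simpa using this
    · intro t _ t' _ h
      exact hposinj u h
  · intro u t t' hft hmod
    have hd : ∀ p q : Fin N, p ≤ q → e (σ u p) u = f t u → e (σ u q) u = f t u → q.val < p.val + l := by
      intro p q hpq h1 h2
      exact dist_lt (fun p => e (σ u p) u) key hkeyinj (hσ u) (f t u) l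
        (le_trans (hmult u _) (hc _)) p q hpq h1 h2
    have hml : ∀ t'' : Fin N, (pos t'' u).val % l = (t''.val + (φ u).val) % l := by
      intro t''
      rw [hposval, Nat.mod_mod_of_dvd _ hlN]
    have hm : (pos t u).val % l = (pos t' u).val % l := by
      rw [hml t, hml t', Nat.add_mod, hmod, ← Nat.add_mod]
    have hpp : pos t u = pos t' u := by
      rcases le_total (pos t u) (pos t' u) with h | h
      · have h1 := hd _ _ h rfl hft.symm
        have h2 : (pos t u).val ≤ (pos t' u).val := h
        have := mod_close l _ _ hm (by omega) (by omega)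
        exact Fin.ext this
      · have h1 := hd _ _ h hft.symm rfl
        have h2 : (pos t' u).val ≤ (pos t u).val := h
        have := mod_close l _ _ hm.symm (by omega) (by omega)
        exact Fin.ext this.symm
    exact hposinj u hpp

end Run7.h436.KArb
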