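import Mathlib
import Pool.Agent.Run7.h436.KArbCore2
import Pool.Agent.Run7.h436.KArbCycle
import Pool.Agent.Run7.h436.KArbComp

set_option autoImplicit false

namespace Run7.h436.KArbTwo

open Finset

/-- from parent functions to classes of arborescences -/
theorem wrap (V A : Type) [Fintype V] [Fintype A] [DecidableEq V] [DecidableEq A]
    (tail head : A → V) (r0 : V) (c : A → ℕ) (k l : ℕ) (hl : 0 < l)
    (f : Fin (k * l) → {v : V // v ≠ r0} → A)
    (hf1 : ∀ t u, head (f t u) = u.1)
    (hf2 : ∀ t (π : V → V), π r0 = r0 → (∀ u : {v : V // v ≠ r0}, π u.1 = tail (f t u)) →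
        ∀ v, ∃ n, π^[n] v = r0)
    (hf3 : ∀ u a, (Finset.univ.filter (fun t => f t u = a)).card ≤ c a)
    (hf4 : ∀ u t t', f t u = f t' u → t.val % l = t'.val % l → t = t') :
    ∃ B : Fin l → Fin k → Finset A, (∀ i j, IsArb tail head r0 (B i j)) ∧
      (∀ i, ∀ j j', j ≠ j' → Disjoint (B i j) (B i j')) ∧
      ∀ a, (univ.filter (fun p : Fin l × Fin k => a ∈ B p.1 p.2)).card ≤ c a := by
  have hlt : ∀ (i : Fin l) (j : Fin k), i.val + l * j.val < k * l := by
    intro i j
    have h1 : l * j.val + l ≤ l * k := by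
      rw [← Nat.mul_succ]
      exact Nat.mul_le_mul_left l j.isLt
    have h2 := i.isLt
    rw [Nat.mul_comm k l]
    omega
  let time : Fin l → Fin k → Fin (k * l) := fun i j => ⟨i.val + l * j.val, hlt i j⟩
  have htmod : ∀ i j, (time i j).val % l = i.val := by
    intro i j
    show (i.val + l * j.val) % l = i.val
    rw [Nat.add_mul_mod_self_left]
    exact Nat.mod_eq_of_lt i.isLt
  have htdiv : ∀ i j, (time i j).val / l = j.val := by
    intro i j
    show (i.val + l * j.val) / l = j.val
    rw [Nat.add_mul_div_left _ _ hl, Nat.div_eq_of_lt i.isLt, zero_add]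
  let B : Fin l → Fin k → Finset A := fun i j => Finset.univ.image (fun u => f (time i j) u)
  have hB : ∀ i j a, a ∈ B i j ↔ ∃ u, f (time i j) u = a := by
    intro i j a
    simp [B]
  refine ⟨B, ?_, ?_, ?_⟩
  · intro i j
    refine ⟨?_, ?_, ?_⟩
    · intro a ha
      obtain ⟨u, rfl⟩ := (hB i j a).mp ha
      rw [hf1]
      exact u.2
    · intro v hv
      refine ⟨f (time i j) ⟨v, hv⟩, ⟨(hB i j _).mpr ⟨_, rfl⟩, hf1 _ _⟩, ?_⟩
      rintro b ⟨hb1, hb2⟩
      obtain ⟨u, rfl⟩ := (hB i j b).mp hb1
      rw [hf1] at hb2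
      have : u = ⟨v, hv⟩ := Subtype.ext hb2
      rw [this]
    · let π : V → V := fun v => if h : v ≠ r0 then tail (f (time i j) ⟨v, h⟩) else r0
      have hπ0 : π r0 = r0 := by simp [π]
      have hπ : ∀ u : {v : V // v ≠ r0}, π u.1 = tail (f (time i j) u) := by
        intro u
        simp only [π, dif_pos u.2]
      have hreach := hf2 (time i j) π hπ0 hπ
      have key : ∀ n v, π^[n] v = r0 → Relation.ReflTransGen
          (fun x y : V => ∃ a ∈ B i j, tail a = x ∧ head a = y) r0 v := by
        intro n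
        induction n with
        | zero =>
          intro v hv
          have hv' : v = r0 := hv
          rw [hv']
        | succ n ih =>
          intro v hv
          rw [Function.iterate_succ_apply] at hv
          by_cases h : v = r0
          · rw [h]
          · refine Relation.ReflTransGen.tail (ih _ hv) ?_
            exact ⟨f (time i j) ⟨v, h⟩, (hB i j _).mpr ⟨_, rfl⟩, (hπ ⟨v, h⟩).symm, hf1 _ _⟩
      intro v
      obtain ⟨n, hn⟩ := hreach v
      exact key n v hn
  · intro i j j' hjj
    rw [Finset.disjoint_left]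
    intro a ha ha'
    obtain ⟨u, hu⟩ := (hB i j a).mp ha
    obtain ⟨u', hu'⟩ := (hB i j' a).mp ha'
    have huu : u = u' := by
      apply Subtype.ext
      rw [← hf1 (time i j) u, ← hf1 (time i j') u', hu, hu']
    subst huu
    have := hf4 u (time i j) (time i j') (by rw [hu, hu']) (by rw [htmod, htmod])
    apply hjj
    apply Fin.ext
    rw [← htdiv i j, ← htdiv i j', this]
  · intro a
    by_cases hex : ∃ i j, a ∈ B i j
    · obtain ⟨i0, j0, h0⟩ := hex
      obtain ⟨u, hu⟩ := (hB i0 j0 a).mp h0
      refine le_trans ?_ (hf3 u a)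
      apply Finset.card_le_card_of_injOn (fun p : Fin l × Fin k => time p.1 p.2)
      · intro p hp
        have hp' : a ∈ B p.1 p.2 := by simpa using hp
        obtain ⟨u', hu'⟩ := (hB p.1 p.2 a).mp hp'
        have huu : u' = u := by
          apply Subtype.ext
          rw [← hf1 (time p.1 p.2) u', ← hf1 (time i0 j0) u, hu, hu']
        subst huu
        simpa using hu'
      · intro p _ q _ h
        have h' : time p.1 p.2 = time q.1 q.2 := h
        apply Prod.ext
        · apply Fin.ext
          rw [← htmod p.1 p.2, ← htmod q.1 q.2, h']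
        · apply Fin.ext
          rw [← htdiv p.1 p.2, ← htdiv q.1 q.2, h']
    · have : (Finset.univ.filter (fun p : Fin l × Fin k => a ∈ B p.1 p.2)) = ∅ := by
        rw [Finset.filter_eq_empty_iff]
        intro p _ hp
        exact hex ⟨p.1, p.2, hp⟩
      rw [this]
      simp

theorem trivial_zero (V A : Type) [Fintype A] [DecidableEq A] (tail head : A → V) (r0 : V) (c : A → ℕ) (k l : ℕ)
    (h : k = 0 ∨ l = 0) :
    ∃ B : Fin l → Fin k → Finset A, (∀ i j, IsArb tail head r0 (B i j)) ∧
      (∀ i, ∀ j j', j ≠ j' → Disjoint (B i j) (B i j')) ∧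
      ∀ a, (univ.filter (fun p : Fin l × Fin k => a ∈ B p.1 p.2)).card ≤ c a := by
  rcases h with rfl | rfl
  · refine ⟨fun _ j => j.elim0, fun _ j => j.elim0, fun _ j => j.elim0, ?_⟩
    intro a
    have : (Finset.univ : Finset (Fin l × Fin 0)) = ∅ := Finset.univ_eq_empty
    simp [this]
  · refine ⟨fun i => i.elim0, fun i => i.elim0, fun i => i.elim0, ?_⟩
    intro a
    have : (Finset.univ : Finset (Fin 0 × Fin k)) = ∅ := Finset.univ_eq_empty
    simp [this]

/-- no cycle of length at least four in the underlying graph of `K` -/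
def NoLongCycle {V : Type} (P : V → V → Prop) (K : V → Prop) : Prop :=
  ∀ (n : ℕ) (x : ℕ → V), 4 ≤ n → (∀ i, i < n → K (x i)) →
    (∀ i j, i < n → j < n → x i = x j → i = j) →
    (∀ i, i + 1 < n → P (x i) (x (i + 1)) ∨ P (x (i + 1)) (x i)) →
    ¬ (P (x (n - 1)) (x 0) ∨ P (x 0) (x (n - 1)))

/-- every vertex of `K` has at most one in-neighbour in `K` -/
def OneInNeighbour {V : Type} (P : V → V → Prop) (K : V → Prop) : Prop :=
  ∀ x y z, K x → K y → K z → P x z → P y z → x = y

theorem noLong (V : Type) [Fintype V] (r0 : V) (P : V → V → Prop) (k l : ℕ) (K : V → Prop)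
    (hKr : ∀ v, K v → v ≠ r0) (hK : NoLongCycle P K) :
    HoldsFor V r0 (fun x y => x = r0 ∨ (K x ∧ K y ∧ P x y)) k l := by
  classical
  intro A _ _ tail head c hP hc hT
  rcases Nat.eq_zero_or_pos k with hk | hk
  · exact trivial_zero V A tail head r0 c k l (Or.inl hk)
  rcases Nat.eq_zero_or_pos l with hl | hl
  · exact trivial_zero V A tail head r0 c k l (Or.inr hl)
  obtain ⟨T, hT1, hT2⟩ := hT
  have hN : 0 < k * l := Nat.mul_pos hk hl
  obtain ⟨f, hf1, hf2, hf3, hf4⟩ := Run7.h436.KArb.core2 V A tail head r0 c (k * l) l hN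
    (Dvd.intro_left k rfl) (by
      intro n x hn hinj hreach hadj hlast
      have hKx : ∀ i, i < n → K (x i) := by
        intro i hi
        obtain ⟨j, hj, hij⟩ : ∃ j, j < n ∧ i ≠ j := by
          by_cases h0 : i = 0
          · exact ⟨1, by omega, by omega⟩
          · exact ⟨0, by omega, h0⟩
        rcases Relation.ReflTransGen.cases_head (hreach i j hi hj) with h | ⟨w, ⟨a, ha, e1, _, e3, _⟩, _⟩
        · exact absurd (hinj i j hi hj h) hij
        · rcases hP a ha with h | h
          · exact absurd (e1.symm.trans h) e3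
          · rw [← e1]; exact h.1
      have hAdj : ∀ y z, K y → K z → (∃ a, 0 < c a ∧ ((tail a = y ∧ head a = z) ∨ (tail a = z ∧ head a = y))) →
          P y z ∨ P z y := by
        rintro y z hy hz ⟨a, ha, ⟨e1, e2⟩ | ⟨e1, e2⟩⟩
        · left
          rcases hP a ha with h | h
          · exact absurd (e1.symm.trans h) (hKr y hy)
          · rw [← e1, ← e2]; exact h.2.2
        · right
          rcases hP a ha with h | h
          · exact absurd (e1.symm.trans h) (hKr z hz)
          · rw [← e1, ← e2]; exact h.2.2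
      exact hK n x hn hKx hinj (fun i hi => hAdj _ _ (hKx i (by omega)) (hKx (i + 1) hi) (hadj i hi))
        (hAdj _ _ (hKx (n - 1) (by omega)) (hKx 0 (by omega)) hlast))
    hc T (fun i => (hT1 i).2.1) (fun i => (hT1 i).2.2) hT2
  exact wrap V A tail head r0 c k l hl f hf1 hf2 hf3 hf4

theorem oneIn (V : Type) [Fintype V] (r0 : V) (P : V → V → Prop) (k l : ℕ) (K : V → Prop)
    (hK : IsComp r0 P K) (hK1 : OneInNeighbour P K) :
    HoldsFor V r0 (fun x y => x = r0 ∨ (K x ∧ K y ∧ P x y)) k l := by
  classical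
  intro A _ _ tail head c hP hc hT
  rcases Nat.eq_zero_or_pos k with hk | hk
  · exact trivial_zero V A tail head r0 c k l (Or.inl hk)
  rcases Nat.eq_zero_or_pos l with hl | hl
  · exact trivial_zero V A tail head r0 c k l (Or.inr hl)
  obtain ⟨T, hT1, hT2⟩ := hT
  have hN : 0 < k * l := Nat.mul_pos hk hl
  obtain ⟨v0, hv0, hKv⟩ := hK
  obtain ⟨f, hf1, hf2, hf3, hf4⟩ := Run7.h436.KArb.core3 V A tail head r0 c (k * l) l hN
    (Dvd.intro_left k rfl) K P v0 ((hKv v0).mpr ⟨hv0, Relation.ReflTransGen.refl, Relation.ReflTransGen.refl⟩)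
    (fun v hv => ((hKv v).mp hv).1) hP hK1 (by
      intro w x hw hx
      have hw' := (hKv w).mp hw
      have hx' := (hKv x).mp hx
      have hr : Relation.ReflTransGen (St r0 P) w x := hw'.2.2.trans hx'.2.1
      have aux : K w → Relation.ReflTransGen (fun a b => P a b ∧ K a ∧ K b) w x := by
        induction hr using Relation.ReflTransGen.head_induction_on with
        | refl => intro _; exact Relation.ReflTransGen.refl
        | @head a b hab hbx ih =>
          intro ha
          have ha' := (hKv a).mp ha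
          have hb : K b := by
            refine (hKv b).mpr ⟨hab.2.2, ha'.2.1.tail hab, hbx.trans hx'.2.2⟩
          exact Relation.ReflTransGen.head ⟨hab.1, ha, hb⟩ (ih hb ((hKv b).mp hb) hb)
      exact aux hw)
    hc T (fun i => (hT1 i).2.1) (fun i => (hT1 i).2.2) hT2
  exact wrap V A tail head r0 c k l hl f hf1 hf2 hf3 hf4

theorem main3 (V : Type) [Fintype V] (r0 : V) (P : V → V → Prop) (k l : ℕ)
    (h : ∀ K, IsComp r0 P K → NoLongCycle P K ∨ OneInNeighbour P K) :
    HoldsFor V r0 P k l := by
  apply components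
  intro K hK
  rcases h K hK with h1 | h1
  · refine noLong V r0 P k l K ?_ h1
    obtain ⟨v0, _, hKv⟩ := hK
    exact fun v hv => ((hKv v).mp hv).1
  · exact oneIn V r0 P k l K hK h1

end Run7.h436.KArbTwo
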