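import Mathlib
import Pool.Agent.Run7.h436.KArbMain

set_option autoImplicit false

namespace Run7.h436.KArb

open Relation

theorem core (V A : Type) [Fintype V] [Fintype A] [DecidableEq V] [DecidableEq A]
    (tail head : A → V) (r0 : V) (c : A → ℕ) (N l : ℕ) (hN : 0 < N) (hlN : l ∣ N)
    (hcomp : ∀ S : Finset V, (∀ x ∈ S, ∀ y ∈ S, ReflTransGen
      (fun u v : V => ∃ a, 0 < c a ∧ tail a = u ∧ head a = v ∧ u ≠ r0 ∧ v ≠ r0) x y) → S.card ≤ 3)
    (hc : ∀ a, c a ≤ l)
    (T : Fin N → Finset A)
    (hT1 : ∀ i, ∀ v : V, v ≠ r0 → ∃! a : A, a ∈ T i ∧ head a = v)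
    (hT2 : ∀ i, ∀ v : V, ReflTransGen (fun x y : V => ∃ a ∈ T i, tail a = x ∧ head a = y) r0 v)
    (hTc : ∀ a : A, (Finset.univ.filter (fun i => a ∈ T i)).card ≤ c a) :
    ∃ f : Fin N → {v : V // v ≠ r0} → A,
      (∀ t u, head (f t u) = u.1) ∧
      (∀ t (π : V → V), π r0 = r0 → (∀ u : {v : V // v ≠ r0}, π u.1 = tail (f t u)) →
        ∀ v, ∃ n, π^[n] v = r0) ∧
      (∀ u a, (Finset.univ.filter (fun t => f t u = a)).card ≤ c a) ∧
      (∀ u t t', f t u = f t' u → t.val % l = t'.val % l → t = t') := by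
  classical
  set Step : V → V → Prop := fun u v : V => ∃ a, 0 < c a ∧ tail a = u ∧ head a = v ∧ u ≠ r0 ∧ v ≠ r0
    with hStep
  -- arcs used have positive capacity
  have hpos : ∀ i a, a ∈ T i → 0 < c a := by
    intro i a ha
    have : i ∈ Finset.univ.filter (fun i => a ∈ T i) := by simp [ha]
    have h1 := Finset.card_pos.mpr ⟨i, this⟩
    have h2 := hTc a
    omega
  have hex : ∀ (i : Fin N) (u : {v : V // v ≠ r0}), ∃ a, (a ∈ T i ∧ head a = u.1) ∧
      ∀ b, b ∈ T i → head b = u.1 → b = a := by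
    intro i u
    obtain ⟨a, ha, hu⟩ := hT1 i u.1 u.2
    exact ⟨a, ha, fun b hb1 hb2 => hu b ⟨hb1, hb2⟩⟩
  choose e he heu using hex
  -- classes
  let Conn : V → V → Prop := fun x y => ReflTransGen Step x y ∧ ReflTransGen Step y x
  have hrefl : ∀ x, Conn x x := fun x => ⟨ReflTransGen.refl, ReflTransGen.refl⟩
  have hsymm : ∀ x y, Conn x y → Conn y x := fun x y h => ⟨h.2, h.1⟩
  have htrans : ∀ x y z, Conn x y → Conn y z → Conn x z :=
    fun x y z h1 h2 => ⟨h1.1.trans h2.1, h2.2.trans h1.2⟩
  obtain ⟨idx, hidx3, hidxinj⟩ := numbering Conn hrefl hsymm htrans (by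
    intro S hS
    exact hcomp S (fun x hx y hy => (hS x hx y hy).1))
  have hr0 : ∀ v, v ≠ r0 → ¬ Conn r0 v := by
    intro v hv h
    rcases ReflTransGen.cases_head h.1 with h1 | ⟨w, hw, _⟩
    · exact hv h1.symm
    · obtain ⟨a, _, _, _, h4, _⟩ := hw
      exact h4 rfl
  -- ranks
  let rk : A → ℕ := fun a => if Conn (tail a) (head a) ∧ idx (tail a) = (idx (head a) + 1) % 3 then 0
    else if Conn (tail a) (head a) ∧ idx (tail a) = (idx (head a) + 2) % 3 then 1 else 2
  have hrk0 : ∀ a, rk a = 0 → Conn (tail a) (head a) ∧ idx (tail a) = (idx (head a) + 1) % 3 := by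
    intro a h
    by_contra hcon
    simp only [rk, if_neg hcon] at h
    split_ifs at h
  have hrk1 : ∀ a, rk a = 1 → Conn (tail a) (head a) ∧ idx (tail a) = (idx (head a) + 2) % 3 := by
    intro a h
    by_contra hcon
    simp only [rk, if_neg hcon] at h
    split_ifs at h
    omega
  have hrk0' : ∀ a, Conn (tail a) (head a) → idx (tail a) = (idx (head a) + 1) % 3 → rk a = 0 := by
    intro a h1 h2
    simp only [rk, if_pos (And.intro h1 h2)]
  have hrk1' : ∀ a, Conn (tail a) (head a) → idx (tail a) = (idx (head a) + 2) % 3 → rk a = 1 := by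
    intro a h1 h2
    have h3 : ¬ (Conn (tail a) (head a) ∧ idx (tail a) = (idx (head a) + 1) % 3) := by
      rintro ⟨_, h4⟩
      have := hidx3 (head a)
      omega
    simp only [rk, if_neg h3, if_pos (And.intro h1 h2)]
  let code : A → ℕ := fun a => (Fintype.equivFin A a).val
  have hcode : ∀ a, code a < Fintype.card A := fun a => (Fintype.equivFin A a).isLt
  let key : A → ℕ := fun a => code a + Fintype.card A * rk a
  have hkeyinj : Function.Injective key := by
    intro a b hab
    have h1 : key a % Fintype.card A = code a := by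
      simp only [key, Nat.add_mul_mod_self_left]
      exact Nat.mod_eq_of_lt (hcode a)
    have h2 : key b % Fintype.card A = code b := by
      simp only [key, Nat.add_mul_mod_self_left]
      exact Nat.mod_eq_of_lt (hcode b)
    have h3 : code a = code b := by rw [← h1, ← h2, hab]
    exact (Fintype.equivFin A).injective (Fin.ext h3)
  have hkeyrk : ∀ a, key a / Fintype.card A = rk a := by
    intro a
    have hM : 0 < Fintype.card A := lt_of_le_of_lt (Nat.zero_le _) (hcode a)
    simp only [key]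
    rw [Nat.add_mul_div_left _ _ hM, Nat.div_eq_of_lt (hcode a), zero_add]
  have hsort := fun u : {v : V // v ≠ r0} => sorted N (fun t => e t u) key
  choose σ hσ using hsort
  have hrkmono : ∀ u, Monotone (fun p => rk (e (σ u p) u)) := by
    intro u p q hpq
    have := hσ u hpq
    simp only at this ⊢
    rw [← hkeyrk, ← hkeyrk]
    exact Nat.div_le_div_right this
  -- representatives
  let s : Setoid V := ⟨Conn, ⟨hrefl, fun {x y} h => hsymm x y h, fun {x y z} h1 h2 => htrans x y z h1 h2⟩⟩
  let rep : V → V := fun v => Quotient.out (Quotient.mk s v)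
  have hrep : ∀ v, Conn (rep v) v := fun v => Quotient.mk_out (s := s) v
  have hrepeq : ∀ x y, Conn x y → rep x = rep y := by
    intro x y h
    have : Quotient.mk s x = Quotient.mk s y := Quotient.sound h
    show Quotient.out (Quotient.mk s x) = Quotient.out (Quotient.mk s y)
    rw [this]
  -- events
  let Q : ℕ → V → ℕ → Fin N → Prop := fun j v i t =>
    ∃ u : {v : V // v ≠ r0}, Conn u.1 v ∧ idx u.1 = i ∧ rk (e t u) = j
  let C : ℕ → V → ℕ → ℕ := fun j v i => (Finset.univ.filter (Q j v i)).card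
  have huniq : ∀ (v : V) (u u' : {v : V // v ≠ r0}), Conn u.1 v → Conn u'.1 v → idx u.1 = idx u'.1 → u = u' := by
    intro v u u' h1 h2 h3
    exact Subtype.ext (hidxinj _ _ (htrans _ _ _ h1 (hsymm _ _ h2)) h3)
  -- two-cycles do not occur in T
  have hno2 : ∀ (t : Fin N) (u u' : {v : V // v ≠ r0}), tail (e t u) = u'.1 → tail (e t u') = u.1 → False := by
    intro t u u' h1 h2
    obtain ⟨a, haT, hS, hnS⟩ := enter tail head r0 (T t) (hT2 t) (fun x => x = u.1 ∨ x = u'.1)
      (by rintro (h | h)
          · exact u.2 h.symm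
          · exact u'.2 h.symm) u.1 (Or.inl rfl)
    rcases hS with h | h
    · have := heu t u a haT h
      rw [this] at hnS
      exact hnS (Or.inr h1)
    · have := heu t u' a haT h
      rw [this] at hnS
      exact hnS (Or.inl h2)
  have hpair : ∀ (v : V) (i i' : ℕ), i < 3 → i' = (i + 2) % 3 → C 1 v i + C 0 v i' ≤ N := by
    intro v i i' hi hi'
    apply two_events
    rintro t ⟨⟨u, hu1, hu2, hu3⟩, ⟨u', hu1', hu2', hu3'⟩⟩
    obtain ⟨g1, g2⟩ := hrk1 _ hu3
    obtain ⟨g1', g2'⟩ := hrk0 _ hu3'
    rw [(he t u).2] at g1 g2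
    rw [(he t u').2] at g1' g2'
    have e1 : tail (e t u) = u'.1 := by
      apply hidxinj
      · exact htrans _ _ _ g1 (htrans _ _ _ hu1 (hsymm _ _ hu1'))
      · rw [g2, hu2, hu2', hi']
    have e2 : tail (e t u') = u.1 := by
      apply hidxinj
      · exact htrans _ _ _ g1' (htrans _ _ _ hu1' (hsymm _ _ hu1))
      · rw [g2', hu2', hu2, hi']
        omega
    exact hno2 t u u' e1 e2
  have hsix : ∀ v : V, C 0 v 0 + C 1 v 0 + C 0 v 1 + C 1 v 1 + C 0 v 2 + C 1 v 2 ≤ 2 * N := by
    intro v
    have f1 : ∀ i t, ¬ (Q 0 v i t ∧ Q 1 v i t) := by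
      rintro i t ⟨⟨u, hu1, hu2, hu3⟩, ⟨u', hu1', hu2', hu3'⟩⟩
      have := huniq v u u' hu1 hu1' (by rw [hu2, hu2'])
      subst this
      rw [hu3] at hu3'
      exact absurd hu3' (by norm_num)
    have f2 : ∀ t, ¬ ((Q 0 v 0 t ∨ Q 1 v 0 t) ∧ (Q 0 v 1 t ∨ Q 1 v 1 t) ∧ (Q 0 v 2 t ∨ Q 1 v 2 t)) := by
      intro t hall
      have hall' : ∀ i, i < 3 → ∃ u : {v : V // v ≠ r0}, Conn u.1 v ∧ idx u.1 = i ∧
          Conn (tail (e t u)) u.1 := by
        have aux : ∀ i, (Q 0 v i t ∨ Q 1 v i t) → ∃ u : {v : V // v ≠ r0}, Conn u.1 v ∧ idx u.1 = i ∧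
          Conn (tail (e t u)) u.1 := by
          rintro i (⟨u, h1, h2, h3⟩ | ⟨u, h1, h2, h3⟩)
          · have := (hrk0 _ h3).1
            rw [(he t u).2] at this
            exact ⟨u, h1, h2, this⟩
          · have := (hrk1 _ h3).1
            rw [(he t u).2] at this
            exact ⟨u, h1, h2, this⟩
        intro i hi
        have hi' : i = 0 ∨ i = 1 ∨ i = 2 := by omega
        rcases hi' with rfl | rfl | rfl
        · exact aux _ hall.1
        · exact aux _ hall.2.1
        · exact aux _ hall.2.2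
      obtain ⟨u0, hu0, _, _⟩ := hall' 0 (by norm_num)
      obtain ⟨a, haT, hS, hnS⟩ := enter tail head r0 (T t) (hT2 t) (fun x => Conn x v)
        (by intro h
            exact hr0 u0.1 u0.2 (htrans _ _ _ h (hsymm _ _ hu0))) u0.1 hu0
      obtain ⟨u, hu1, hu2, hu3⟩ := hall' (idx (head a)) (hidx3 _)
      have hau : head a = u.1 := by
        apply hidxinj
        · exact htrans _ _ _ hS (hsymm _ _ hu1)
        · exact hu2.symm
      have := heu t u a haT hau
      rw [this] at hnS
      exact hnS (htrans _ _ _ hu3 hu1)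
    exact six_events (Q 0 v 0) (Q 1 v 0) (Q 0 v 1) (Q 1 v 1) (Q 0 v 2) (Q 1 v 2)
      (f1 0) (f1 1) (f1 2) f2
  -- offsets
  have hoff : ∀ v : V, ∃ θ1 θ2 : ℕ, C 0 v 0 + C 1 v 0 ≤ θ2 ∧ θ2 + C 0 v 2 ≤ N + C 0 v 0 ∧
      θ2 + C 0 v 2 + C 1 v 2 ≤ θ1 ∧ θ1 + C 0 v 1 ≤ N + θ2 + C 0 v 2 ∧
      θ1 + C 0 v 1 + C 1 v 1 ≤ 2 * N ∧ N + C 0 v 0 ≤ θ1 + C 0 v 1 := by
    intro v
    apply offsets
    · exact hpair v 0 2 (by norm_num) (by norm_num)
    · exact hpair v 2 1 (by norm_num) (by norm_num)
    · exact hpair v 1 0 (by norm_num) (by norm_num)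
    · exact hsix v
  choose θ1 θ2 hθ using hoff
  let θ : V → ℕ → ℕ := fun v i => if i = 0 then 0 else if i = 1 then θ1 v else θ2 v
  have hθ2N : ∀ v i, θ v i ≤ 2 * N := by
    intro v i
    have := hθ v
    simp only [θ]
    split_ifs <;> omega
  let pos : Fin N → {v : V // v ≠ r0} → Fin N := fun t u =>
    ⟨(t.val + 2 * N - θ (rep u.1) (idx u.1)) % N, Nat.mod_lt _ hN⟩
  have hposmod : ∀ t u, (θ (rep u.1) (idx u.1) + (pos t u).val) % N = t.val := by
    intro t u
    simp only [pos]
    rw [pos_mod N t.val _ (hθ2N _ _)]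
    exact Nat.mod_eq_of_lt t.isLt
  -- counting for one node
  have hcount : ∀ (u : {v : V // v ≠ r0}) (j : ℕ),
      (Finset.univ.filter (fun p => rk (e (σ u p) u) = j)).card = C j (rep u.1) (idx u.1) := by
    intro u j
    rw [card_perm (σ u) (fun t => rk (e t u) = j)]
    apply congrArg Finset.card
    ext t
    simp only [Finset.mem_filter, Finset.mem_univ, true_and]
    constructor
    · intro h
      exact ⟨u, hsymm _ _ (hrep u.1), rfl, h⟩
    · rintro ⟨u', h1, h2, h3⟩
      have := huniq (rep u.1) u' u h1 (hsymm _ _ (hrep u.1)) h2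
      rw [← this]
      exact h3
  let f : Fin N → {v : V // v ≠ r0} → A := fun t u => e (σ u (pos t u)) u
  have hfhead : ∀ t u, head (f t u) = u.1 := fun t u => (he _ u).2
  have hfpos : ∀ t u, 0 < c (f t u) := fun t u => hpos _ _ (he _ u).1
  have hf0 : ∀ t u, rk (f t u) = 0 → (pos t u).val < C 0 (rep u.1) (idx u.1) := by
    intro t u h
    have := rank0 _ (hrkmono u) (pos t u) h
    rwa [hcount u 0] at this
  have hf1 : ∀ t u, rk (f t u) = 1 → C 0 (rep u.1) (idx u.1) ≤ (pos t u).val ∧
      (pos t u).val < C 0 (rep u.1) (idx u.1) + C 1 (rep u.1) (idx u.1) := by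
    intro t u h
    have := rank1 _ (hrkmono u) (pos t u) h
    rwa [hcount u 0, hcount u 1] at this
  -- loops do not occur
  have hnoloop : ∀ t u, tail (f t u) ≠ u.1 := by
    intro t u h
    obtain ⟨a, haT, hS, hnS⟩ := enter tail head r0 (T (σ u (pos t u))) (hT2 _) (fun x => x = u.1)
      (fun h => u.2 h.symm) u.1 rfl
    have := heu _ u a haT hS
    rw [this] at hnS
    exact hnS h
  -- multiplicities
  have hmult : ∀ u a, (Finset.univ.filter (fun p => e (σ u p) u = a)).card ≤ c a := by
    intro u a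
    rw [card_perm (σ u) (fun t => e t u = a)]
    refine le_trans (Finset.card_le_card ?_) (hTc a)
    intro t ht
    simp only [Finset.mem_filter, Finset.mem_univ, true_and] at ht ⊢
    rw [← ht]
    exact (he t u).1
  have hposinj : ∀ u, Function.Injective (fun t => pos t u) := by
    intro u t t' h
    have h' : pos t u = pos t' u := h
    apply Fin.ext
    rw [← hposmod t u, ← hposmod t' u, h']
  refine ⟨f, hfhead, ?_, ?_, ?_⟩
  · intro t π hπ0 hπ
    apply reach_root π r0
    intro x n hn hx
    by_contra hx0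
    -- all iterates avoid the root
    have hper : ∀ j, π^[n * j] x = x := by
      intro j
      exact Function.IsPeriodicPt.mul_const (f := π) (show Function.IsPeriodicPt π n x from hx) j
    have hle : ∀ j, j ≤ n * (j + 1) := by
      intro j
      nlinarith
    have hne : ∀ j, π^[j] x ≠ r0 := by
      intro j hj
      apply hx0
      rw [← hper (j + 1), show n * (j + 1) = (n * (j + 1) - j) + j by have := hle j; omega,
        Function.iterate_add_apply, hj]
      exact Function.iterate_fixed hπ0 _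
    let u : ℕ → {v : V // v ≠ r0} := fun j => ⟨π^[j] x, hne j⟩
    have hu : ∀ j, (u (j + 1)).1 = tail (f t (u j)) := by
      intro j
      rw [← hπ (u j)]
      exact Function.iterate_succ_apply' π j x
    have hstep : ∀ j, Step (π^[j + 1] x) (π^[j] x) := by
      intro j
      exact ⟨f t (u j), hfpos t (u j), (hu j).symm, hfhead t (u j), hne (j + 1), hne j⟩
    have hanc : ∀ j m, ReflTransGen Step (π^[m + j] x) (π^[j] x) := by
      intro j m
      induction m with
      | zero => rw [Nat.zero_add]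
      | succ m ih =>
        refine ReflTransGen.head ?_ ih
        have := hstep (m + j)
        rwa [show m + j + 1 = m + 1 + j by omega] at this
    have hconn : ∀ j, Conn (u j).1 x := by
      intro j
      refine ⟨?_, ?_⟩
      · exact hanc 0 j
      · have := hanc j (n * (j + 1) - j)
        rw [show n * (j + 1) - j + j = n * (j + 1) by have := hle j; omega, hper] at this
        exact this
    have hrepu : ∀ j, rep (u j).1 = rep x := fun j => hrepeq _ _ (hconn j)
    have hidxne : ∀ j, idx (u (j + 1)).1 ≠ idx (u j).1 := by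
      intro j h
      have := hidxinj _ _ (htrans _ _ _ (hconn (j + 1)) (hsymm _ _ (hconn j))) h
      rw [hu j] at this
      exact hnoloop t (u j) this
    have hcj : ∀ j, Conn (tail (f t (u j))) (head (f t (u j))) := by
      intro j
      rw [← hu j, hfhead]
      exact htrans _ _ _ (hconn (j + 1)) (hsymm _ _ (hconn j))
    have F0 : ∀ j, idx (u (j + 1)).1 = (idx (u j).1 + 1) % 3 →
        (pos t (u j)).val < C 0 (rep x) (idx (u j).1) := by
      intro j h
      have := hf0 t (u j) (hrk0' _ (hcj j) (by rw [← hu j, hfhead]; exact h))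
      rwa [hrepu j] at this
    have F1 : ∀ j, idx (u (j + 1)).1 = (idx (u j).1 + 2) % 3 →
        C 0 (rep x) (idx (u j).1) ≤ (pos t (u j)).val ∧
        (pos t (u j)).val < C 0 (rep x) (idx (u j).1) + C 1 (rep x) (idx (u j).1) := by
      intro j h
      have := hf1 t (u j) (hrk1' _ (hcj j) (by rw [← hu j, hfhead]; exact h))
      rwa [hrepu j] at this
    have FQ : ∀ j, (pos t (u j)).val < C 0 (rep x) (idx (u j).1) + C 1 (rep x) (idx (u j).1) := by
      intro j
      have a1 := hidx3 (u j).1
      have a2 := hidx3 (u (j + 1)).1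
      have a3 := hidxne j
      by_cases h : idx (u (j + 1)).1 = (idx (u j).1 + 1) % 3
      · have := F0 j h
        omega
      · exact (F1 j (by omega)).2
    have FM : ∀ j, (θ (rep x) (idx (u j).1) + (pos t (u j)).val) % N = t.val := by
      intro j
      have := hposmod t (u j)
      rwa [hrepu j] at this
    obtain ⟨e1, e2, e3, e4, e5, e6⟩ := hθ (rep x)
    exact hexagon N (C 0 (rep x)) (C 1 (rep x)) (θ (rep x)) rfl e1 e2 e3 e4 e5 e6
      (idx (u 0).1) (idx (u 1).1) (idx (u 2).1) (pos t (u 0)).val (pos t (u 1)).val (pos t (u 2)).val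
      (hidx3 _) (hidx3 _) (hidx3 _) (hidxne 0) (hidxne 1) (F0 0) (F1 0) (F0 1) (F1 1)
      (FQ 0) (FQ 1) (FQ 2) t.val (FM 0) (FM 1) (FM 2)
  · intro u a
    refine le_trans ?_ (hmult u a)
    apply Finset.card_le_card_of_injOn (fun t => pos t u)
    · intro t ht
      have ht' : f t u = a := by simpa using ht
      have : e (σ u (pos t u)) u = a := ht'
      simpa using this
    · intro t _ t' _ h
      exact hposinj u h
  · intro u t t' hft hmod
    have hd : ∀ p q : Fin N, p ≤ q → e (σ u p) u = f t u → e (σ u q) u = f t u → q.val < p.val + l := by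
      intro p q hpq h1 h2
      exact dist_lt (fun p => e (σ u p) u) key hkeyinj (hσ u) (f t u) l
        (le_trans (hmult u _) (hc _)) p q hpq h1 h2
    have hml : ∀ t'' : Fin N, (θ (rep u.1) (idx u.1) + (pos t'' u).val) % l = t''.val % l := by
      intro t''
      rw [← Nat.mod_mod_of_dvd (θ (rep u.1) (idx u.1) + (pos t'' u).val) hlN, hposmod t'' u]
    have hm : (θ (rep u.1) (idx u.1) + (pos t u).val) % l = (θ (rep u.1) (idx u.1) + (pos t' u).val) % l := by
      rw [hml t, hml t']
      exact hmod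
    have hpp : pos t u = pos t' u := by
      rcases le_total (pos t u) (pos t' u) with h | h
      · have h1 := hd _ _ h rfl hft.symm
        have h2 : (pos t u).val ≤ (pos t' u).val := h
        have := mod_close l _ _ hm (by omega) (by omega)
        exact Fin.ext (by omega)
      · have h1 := hd _ _ h hft.symm rfl
        have h2 : (pos t' u).val ≤ (pos t u).val := h
        have := mod_close l _ _ hm.symm (by omega) (by omega)
        exact Fin.ext (by omega)
    exact hposinj u hpp

end Run7.h436.KArb
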