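import Mathlib

/-!
# Five unit spheres in 3-space

If five points `x i` and five centres `c j` in `ℝ³` satisfy `|x i - c j| = 1` for all `i ≠ j`,
then `|x i - c i| = 1` for some `i`.
-/

set_option autoImplicit false

namespace Run7.h436.UnitSpheres

/-- The algebraic heart: the identity behind `(8-δ₄)(8-δ₅) = 4(4-X₄₅)(4-C₄₅)`. -/
theorem key_alg (a1 a2 a3 a4 a5 d1 d2 d3 d4 d5 : ℝ)
    (X12 X13 X23 X14 X24 X34 X15 X25 X35 X : ℝ)
    (C12 C13 C23 C14 C24 C34 C15 C25 C35 C : ℝ)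
    (h1 : a1 * d1 = 1) (h2 : a2 * d2 = 1) (h3 : a3 * d3 = 1) (h4 : a4 * d4 = 1) (h5 : a5 * d5 = 1)
    (s : a1 + a2 + a3 + a4 + a5 = 0)
    (p4 : a1 * X14 + a2 * X24 + a3 * X34 + a5 * X = 1)
    (p5 : a1 * X15 + a2 * X25 + a3 * X35 + a4 * X = 1)
    (r4 : a1 * C14 + a2 * C24 + a3 * C34 + a5 * C = 1)
    (r5 : a1 * C15 + a2 * C25 + a3 * C35 + a4 * C = 1)
    (q44 : a1 * X14 * C14 + a2 * X24 * C24 + a3 * X34 * C34 + a5 * X * C = 2 + d4)
    (q55 : a1 * X15 * C15 + a2 * X25 * C25 + a3 * X35 * C35 + a4 * X * C = 2 + d5)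
    (q45 : a1 * X14 * C15 + a2 * X24 * C25 + a3 * X34 * C35 = 2)
    (q54 : a1 * X15 * C14 + a2 * X25 * C24 + a3 * X35 * C34 = 2)
    (z11 : a2 * X12 * C12 + a3 * X13 * C13 + a4 * X14 * C14 + a5 * X15 * C15 = 2 + d1)
    (z22 : a1 * X12 * C12 + a3 * X23 * C23 + a4 * X24 * C24 + a5 * X25 * C25 = 2 + d2)
    (z33 : a1 * X13 * C13 + a2 * X23 * C23 + a4 * X34 * C34 + a5 * X35 * C35 = 2 + d3)
    (z12 : a3 * X13 * C23 + a4 * X14 * C24 + a5 * X15 * C25 = 2)
    (z21 : a3 * X23 * C13 + a4 * X24 * C14 + a5 * X25 * C15 = 2)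
    (z13 : a2 * X12 * C23 + a4 * X14 * C34 + a5 * X15 * C35 = 2)
    (z31 : a2 * X23 * C12 + a4 * X34 * C14 + a5 * X35 * C15 = 2)
    (z23 : a1 * X12 * C13 + a4 * X24 * C34 + a5 * X25 * C35 = 2)
    (z32 : a1 * X13 * C12 + a4 * X34 * C24 + a5 * X35 * C25 = 2) :
    (8 - d4) * (8 - d5) = 4 * (4 - X) * (4 - C) := by
  -- the three-index identity
  have I0 : (a1 * (a2 * X12 * C12 + a3 * X13 * C13)) ^ 2
      + (a2 * (a1 * X12 * C12 + a3 * X23 * C23)) ^ 2
      + (a3 * (a1 * X13 * C13 + a2 * X23 * C23)) ^ 2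
      + 2 * (a1 * a2 * (a3 * X13 * C23) * (a3 * X23 * C13))
      + 2 * (a1 * a3 * (a2 * X12 * C23) * (a2 * X23 * C12))
      + 2 * (a2 * a3 * (a1 * X12 * C13) * (a1 * X13 * C12))
      = 1 / 2 * (a1 * (a2 * X12 * C12 + a3 * X13 * C13) + a2 * (a1 * X12 * C12 + a3 * X23 * C23)
        + a3 * (a1 * X13 * C13 + a2 * X23 * C23)) ^ 2 := by
    ring
  have e11 : a1 * (a2 * X12 * C12 + a3 * X13 * C13)
      = 2 * a1 + 1 - a1 * (a4 * X14 * C14 + a5 * X15 * C15) := by
    linear_combination a1 * z11 + h1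
  have e22 : a2 * (a1 * X12 * C12 + a3 * X23 * C23)
      = 2 * a2 + 1 - a2 * (a4 * X24 * C24 + a5 * X25 * C25) := by
    linear_combination a2 * z22 + h2
  have e33 : a3 * (a1 * X13 * C13 + a2 * X23 * C23)
      = 2 * a3 + 1 - a3 * (a4 * X34 * C34 + a5 * X35 * C35) := by
    linear_combination a3 * z33 + h3
  have e12 : a3 * X13 * C23 = 2 - (a4 * X14 * C24 + a5 * X15 * C25) := by
    linear_combination z12
  have e21 : a3 * X23 * C13 = 2 - (a4 * X24 * C14 + a5 * X25 * C15) := by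
    linear_combination z21
  have e13 : a2 * X12 * C23 = 2 - (a4 * X14 * C34 + a5 * X15 * C35) := by
    linear_combination z13
  have e31 : a2 * X23 * C12 = 2 - (a4 * X34 * C14 + a5 * X35 * C15) := by
    linear_combination z31
  have e23 : a1 * X12 * C13 = 2 - (a4 * X24 * C34 + a5 * X25 * C35) := by
    linear_combination z23
  have e32 : a1 * X13 * C12 = 2 - (a4 * X34 * C24 + a5 * X35 * C25) := by
    linear_combination z32
  rw [e11, e22, e33, e12, e21, e13, e31, e23, e32] at I0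
  have J1 : (2 * a1 + 1 - a1 * (a4 * X14 * C14 + a5 * X15 * C15)) ^ 2
      + (2 * a2 + 1 - a2 * (a4 * X24 * C24 + a5 * X25 * C25)) ^ 2
      + (2 * a3 + 1 - a3 * (a4 * X34 * C34 + a5 * X35 * C35)) ^ 2
      + 2 * (a1 * a2 * (2 - (a4 * X14 * C24 + a5 * X15 * C25))
        * (2 - (a4 * X24 * C14 + a5 * X25 * C15)))
      + 2 * (a1 * a3 * (2 - (a4 * X14 * C34 + a5 * X15 * C35))
        * (2 - (a4 * X34 * C14 + a5 * X35 * C15)))
      + 2 * (a2 * a3 * (2 - (a4 * X24 * C34 + a5 * X25 * C35))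
        * (2 - (a4 * X34 * C24 + a5 * X35 * C25)))
      = 4 * (a1 + a2 + a3) ^ 2 + 4 * (a1 + a2 + a3) + 3
        - 4 * (a4 * (a1 * X14 + a2 * X24 + a3 * X34) * (a1 * C14 + a2 * C24 + a3 * C34)
          + a5 * (a1 * X15 + a2 * X25 + a3 * X35) * (a1 * C15 + a2 * C25 + a3 * C35))
        - 2 * (a4 * (a1 * X14 * C14 + a2 * X24 * C24 + a3 * X34 * C34)
          + a5 * (a1 * X15 * C15 + a2 * X25 * C25 + a3 * X35 * C35))
        + a4 ^ 2 * (a1 * X14 * C14 + a2 * X24 * C24 + a3 * X34 * C34) ^ 2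
        + a5 ^ 2 * (a1 * X15 * C15 + a2 * X25 * C25 + a3 * X35 * C35) ^ 2
        + 2 * a4 * a5 * (a1 * X14 * C15 + a2 * X24 * C25 + a3 * X34 * C35)
          * (a1 * X15 * C14 + a2 * X25 * C24 + a3 * X35 * C34) := by
    ring
  have J2 : 2 * a1 + 1 - a1 * (a4 * X14 * C14 + a5 * X15 * C15)
      + (2 * a2 + 1 - a2 * (a4 * X24 * C24 + a5 * X25 * C25))
      + (2 * a3 + 1 - a3 * (a4 * X34 * C34 + a5 * X35 * C35))
      = 2 * (a1 + a2 + a3) + 3
        - a4 * (a1 * X14 * C14 + a2 * X24 * C24 + a3 * X34 * C34)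
        - a5 * (a1 * X15 * C15 + a2 * X25 * C25 + a3 * X35 * C35) := by
    ring
  rw [J1, J2] at I0
  have s' : a1 + a2 + a3 = -(a4 + a5) := by linear_combination s
  have p4' : a1 * X14 + a2 * X24 + a3 * X34 = 1 - a5 * X := by linear_combination p4
  have p5' : a1 * X15 + a2 * X25 + a3 * X35 = 1 - a4 * X := by linear_combination p5
  have r4' : a1 * C14 + a2 * C24 + a3 * C34 = 1 - a5 * C := by linear_combination r4
  have r5' : a1 * C15 + a2 * C25 + a3 * C35 = 1 - a4 * C := by linear_combination r5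
  have q44' : a1 * X14 * C14 + a2 * X24 * C24 + a3 * X34 * C34 = 2 + d4 - a5 * X * C := by
    linear_combination q44
  have q55' : a1 * X15 * C15 + a2 * X25 * C25 + a3 * X35 * C35 = 2 + d5 - a4 * X * C := by
    linear_combination q55
  rw [s', p4', p5', r4', r5', q44', q55', q45, q54] at I0
  have t4 : a4 * (2 + d4 - a5 * X * C) = 2 * a4 + 1 - a4 * a5 * X * C := by
    linear_combination h4
  have t5 : a5 * (2 + d5 - a4 * X * C) = 2 * a5 + 1 - a4 * a5 * X * C := by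
    linear_combination h5
  have t4s : a4 ^ 2 * (2 + d4 - a5 * X * C) ^ 2 = (2 * a4 + 1 - a4 * a5 * X * C) ^ 2 := by
    rw [← t4]; ring
  have t5s : a5 ^ 2 * (2 + d5 - a4 * X * C) ^ 2 = (2 * a5 + 1 - a4 * a5 * X * C) ^ 2 := by
    rw [← t5]; ring
  rw [t4s, t5s, t4, t5] at I0
  have K1 : 4 * a4 * a5 * X * C - 16 * a4 * a5 * (X + C) + 8 * (a4 + a5) = 1 := by
    linear_combination (-2) * I0
  have h45 : (a4 * a5) * (d4 * d5) = 1 := by
    calc (a4 * a5) * (d4 * d5) = (a4 * d4) * (a5 * d5) := by ring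
      _ = 1 := by rw [h4, h5]; ring
  have K2 : 4 * X * C - 16 * (X + C) + 8 * (d4 + d5) = d4 * d5 := by
    linear_combination (d4 * d5) * K1 - (4 * X * C - 16 * (X + C)) * h45
      - 8 * d5 * h4 - 8 * d4 * h5
  linear_combination -K2

open Matrix

/-- The lifted point `(|x|², x, 1)`. -/
def U (x : Fin 5 → Fin 3 → ℝ) : Matrix (Fin 5) (Fin 5) ℝ :=
  fun i => ![x i 0 ^ 2 + x i 1 ^ 2 + x i 2 ^ 2, x i 0, x i 1, x i 2, 1]

/-- The lifted unit sphere `(1, -2c, |c|²-1)`. -/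
def V (c : Fin 5 → Fin 3 → ℝ) : Matrix (Fin 5) (Fin 5) ℝ :=
  fun j => ![1, -2 * c j 0, -2 * c j 1, -2 * c j 2, c j 0 ^ 2 + c j 1 ^ 2 + c j 2 ^ 2 - 1]

/-- Squared distance in coordinates. -/
def sq (p q : Fin 3 → ℝ) : ℝ := (p 0 - q 0) ^ 2 + (p 1 - q 1) ^ 2 + (p 2 - q 2) ^ 2

theorem sq_nonneg' (p q : Fin 3 → ℝ) : 0 ≤ sq p q := by unfold sq; positivity

theorem sq_symm (p q : Fin 3 → ℝ) : sq p q = sq q p := by unfold sq; ring

theorem sq_self (p : Fin 3 → ℝ) : sq p p = 0 := by unfold sq; ring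

/-- The moment identities. -/
theorem moments (x c : Fin 5 → Fin 3 → ℝ) (d a : Fin 5 → ℝ)
    (hd : ∀ i, sq (x i) (c i) = 1 + d i) (ho : ∀ i j, i ≠ j → sq (x i) (c j) = 1)
    (ha : ∀ i, a i * d i = 1) :
    ∀ p q : Fin 5, ∑ k, a k * V c k p * U x k q = if p = q then 1 else 0 := by
  have hUV : U x * (V c)ᵀ = diagonal d := by
    ext i j
    rw [Matrix.mul_apply, Fin.sum_univ_five]
    simp only [U, V, transpose_apply]
    by_cases hij : i = j
    · subst hij
      have := hd i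
      unfold sq at this
      simp [diagonal]
      linear_combination this
    · have := ho i j hij
      unfold sq at this
      simp [diagonal, hij]
      linear_combination this
  have h1 : U x * ((V c)ᵀ * diagonal a) = 1 := by
    rw [← Matrix.mul_assoc, hUV, diagonal_mul_diagonal]
    have : (fun i => d i * a i) = fun _ => (1 : ℝ) := by
      funext i; rw [mul_comm]; exact ha i
    rw [this]; exact diagonal_one
  have h2 : ((V c)ᵀ * diagonal a) * U x = 1 := mul_eq_one_comm.mp h1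
  intro p q
  have h3 := congrFun (congrFun h2 p) q
  rw [Matrix.mul_apply] at h3
  simp only [mul_diagonal, transpose_apply, Matrix.one_apply] at h3
  rw [← h3]
  exact Finset.sum_congr rfl fun k _ => by ring

/-- First-order moments. -/
theorem r1 {x c : Fin 5 → Fin 3 → ℝ} {a : Fin 5 → ℝ}
    (m : ∀ p q : Fin 5, ∑ k, a k * V c k p * U x k q = if p = q then 1 else 0) :
    ∑ k, a k = 0 := by
  have := m 0 4
  simpa [U, V] using this

theorem r2 {x c : Fin 5 → Fin 3 → ℝ} {a : Fin 5 → ℝ}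
    (m : ∀ p q : Fin 5, ∑ k, a k * V c k p * U x k q = if p = q then 1 else 0) (i : Fin 5) :
    ∑ k, a k * sq (x i) (x k) = 1 := by
  have m0 := m 0 0
  have m1 := m 0 1
  have m2 := m 0 2
  have m3 := m 0 3
  have m4 := m 0 4
  simp [U, V, Fin.sum_univ_five] at m0 m1 m2 m3 m4
  rw [Fin.sum_univ_five]
  unfold sq
  linear_combination m0 - 2 * x i 0 * m1 - 2 * x i 1 * m2 - 2 * x i 2 * m3
    + (x i 0 ^ 2 + x i 1 ^ 2 + x i 2 ^ 2) * m4

theorem r3 {x c : Fin 5 → Fin 3 → ℝ} {a : Fin 5 → ℝ}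
    (m : ∀ p q : Fin 5, ∑ k, a k * V c k p * U x k q = if p = q then 1 else 0) (i : Fin 5) :
    ∑ k, a k * sq (c i) (c k) = 1 := by
  have m0 := m 4 4
  have m1 := m 1 4
  have m2 := m 2 4
  have m3 := m 3 4
  have m4 := m 0 4
  simp [U, V, Fin.sum_univ_five] at m0 m1 m2 m3 m4
  rw [Fin.sum_univ_five]
  unfold sq
  linear_combination m0 + c i 0 * m1 + c i 1 * m2 + c i 2 * m3
    + (c i 0 ^ 2 + c i 1 ^ 2 + c i 2 ^ 2 + 1) * m4

theorem r4 {x c : Fin 5 → Fin 3 → ℝ} {a : Fin 5 → ℝ}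
    (m : ∀ p q : Fin 5, ∑ k, a k * V c k p * U x k q = if p = q then 1 else 0) (i j : Fin 5) :
    ∑ k, a k * sq (x i) (x k) * sq (c k) (c j) = 1 + sq (x i) (c j) := by
  -- `sq (x i) (x k) = Σ_q (UA)_i q * U x k q`, `sq (c k) (c j) = Σ_p V c k p * (B Vᵀ)_p j`
  have hx : ∀ k, sq (x i) (x k) = U x k 0 - 2 * x i 0 * U x k 1 - 2 * x i 1 * U x k 2
      - 2 * x i 2 * U x k 3 + (x i 0 ^ 2 + x i 1 ^ 2 + x i 2 ^ 2) * U x k 4 := by
    intro k
    simp [U, sq]
    ring
  have hc : ∀ k, sq (c k) (c j) = V c k 4 + c j 0 * V c k 1 + c j 1 * V c k 2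
      + c j 2 * V c k 3 + (c j 0 ^ 2 + c j 1 ^ 2 + c j 2 ^ 2 + 1) * V c k 0 := by
    intro k
    simp [V, sq]
    ring
  have M : ∀ p q : Fin 5, ∑ k, a k * (V c k p * U x k q) = if p = q then 1 else 0 := by
    intro p q
    rw [← m p q]
    exact Finset.sum_congr rfl fun k _ => by ring
  have key : ∑ k, a k * sq (x i) (x k) * sq (c k) (c j)
      = ∑ k, (a k * (V c k 4 * U x k 0)
        + c j 0 * (a k * (V c k 1 * U x k 0))
        + c j 1 * (a k * (V c k 2 * U x k 0))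
        + c j 2 * (a k * (V c k 3 * U x k 0))
        + (c j 0 ^ 2 + c j 1 ^ 2 + c j 2 ^ 2 + 1) * (a k * (V c k 0 * U x k 0))
        - 2 * x i 0 * ((a k * (V c k 4 * U x k 1))
          + c j 0 * (a k * (V c k 1 * U x k 1))
          + c j 1 * (a k * (V c k 2 * U x k 1))
          + c j 2 * (a k * (V c k 3 * U x k 1))
          + (c j 0 ^ 2 + c j 1 ^ 2 + c j 2 ^ 2 + 1) * (a k * (V c k 0 * U x k 1)))
        - 2 * x i 1 * ((a k * (V c k 4 * U x k 2))
          + c j 0 * (a k * (V c k 1 * U x k 2))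
          + c j 1 * (a k * (V c k 2 * U x k 2))
          + c j 2 * (a k * (V c k 3 * U x k 2))
          + (c j 0 ^ 2 + c j 1 ^ 2 + c j 2 ^ 2 + 1) * (a k * (V c k 0 * U x k 2)))
        - 2 * x i 2 * ((a k * (V c k 4 * U x k 3))
          + c j 0 * (a k * (V c k 1 * U x k 3))
          + c j 1 * (a k * (V c k 2 * U x k 3))
          + c j 2 * (a k * (V c k 3 * U x k 3))
          + (c j 0 ^ 2 + c j 1 ^ 2 + c j 2 ^ 2 + 1) * (a k * (V c k 0 * U x k 3)))
        + (x i 0 ^ 2 + x i 1 ^ 2 + x i 2 ^ 2) * ((a k * (V c k 4 * U x k 4))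
          + c j 0 * (a k * (V c k 1 * U x k 4))
          + c j 1 * (a k * (V c k 2 * U x k 4))
          + c j 2 * (a k * (V c k 3 * U x k 4))
          + (c j 0 ^ 2 + c j 1 ^ 2 + c j 2 ^ 2 + 1) * (a k * (V c k 0 * U x k 4)))) := by
    refine Finset.sum_congr rfl fun k _ => ?_
    rw [hx k, hc k]
    ring
  rw [key]
  simp only [Finset.sum_add_distrib, Finset.sum_sub_distrib, ← Finset.mul_sum, M]
  simp
  unfold sq
  ring

/-- `Σ a_k |(x_k - x_j) + (c_k - c_j)|² = -1`. -/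
theorem r5 {x c : Fin 5 → Fin 3 → ℝ} {a : Fin 5 → ℝ}
    (m : ∀ p q : Fin 5, ∑ k, a k * V c k p * U x k q = if p = q then 1 else 0) (j : Fin 5) :
    ∑ k, a k * ((x k 0 - x j 0 + (c k 0 - c j 0)) ^ 2 + (x k 1 - x j 1 + (c k 1 - c j 1)) ^ 2
      + (x k 2 - x j 2 + (c k 2 - c j 2)) ^ 2) = -1 := by
  have h2 := r2 m j
  have h3 := r3 m j
  have m11 := m 1 1
  have m22 := m 2 2
  have m33 := m 3 3
  have m04 := m 0 4
  have m14 := m 1 4
  have m24 := m 2 4
  have m34 := m 3 4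
  have m01 := m 0 1
  have m02 := m 0 2
  have m03 := m 0 3
  simp [U, V, Fin.sum_univ_five, sq] at m11 m22 m33 m04 m14 m24 m34 m01 m02 m03 h2 h3 ⊢
  linear_combination h2 + h3 - m11 - m22 - m33 + x j 0 * m14 + x j 1 * m24 + x j 2 * m34
    - 2 * c j 0 * m01 - 2 * c j 1 * m02 - 2 * c j 2 * m03
    + 2 * (x j 0 * c j 0 + x j 1 * c j 1 + x j 2 * c j 2) * m04

/-- The identity `(8-δ₄)(8-δ₅) = 4(4-X₄₅)(4-C₄₅)` for the pair `3, 4 : Fin 5`. -/
theorem K34 (x c : Fin 5 → Fin 3 → ℝ) (d a : Fin 5 → ℝ)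
    (hd : ∀ i, sq (x i) (c i) = 1 + d i) (ho : ∀ i j, i ≠ j → sq (x i) (c j) = 1)
    (ha : ∀ i, a i * d i = 1) :
    (8 - d 3) * (8 - d 4) = 4 * (4 - sq (x 3) (x 4)) * (4 - sq (c 3) (c 4)) := by
  have m := moments x c d a hd ho ha
  have hs := r1 m
  have hX := r2 m
  have hC := r3 m
  have hXC := r4 m
  have diag : ∀ i, ∑ k, a k * sq (x i) (x k) * sq (c k) (c i) = 2 + d i := by
    intro i; rw [hXC i i, hd i]; ring
  have off : ∀ i j, i ≠ j → ∑ k, a k * sq (x i) (x k) * sq (c k) (c j) = 2 := by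
    intro i j hij; rw [hXC i j, ho i j hij]; norm_num
  rw [Fin.sum_univ_five] at hs
  simp only [Fin.sum_univ_five] at hX hC diag off
  have X3 := hX 3
  have X4 := hX 4
  have C3 := hC 3
  have C4 := hC 4
  have D0 := diag 0
  have D1 := diag 1
  have D2 := diag 2
  have D3 := diag 3
  have D4 := diag 4
  have O34 := off 3 4 (by decide)
  have O43 := off 4 3 (by decide)
  have O01 := off 0 1 (by decide)
  have O10 := off 1 0 (by decide)
  have O02 := off 0 2 (by decide)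
  have O20 := off 2 0 (by decide)
  have O12 := off 1 2 (by decide)
  have O21 := off 2 1 (by decide)
  rw [sq_self] at X3 X4 C3 C4
  simp only [sq_self] at D0 D1 D2 D3 D4 O34 O43 O01 O10 O02 O20 O12 O21
  simp only [sq_symm (x 1) (x 0), sq_symm (x 2) (x 0), sq_symm (x 3) (x 0), sq_symm (x 4) (x 0),
    sq_symm (x 2) (x 1), sq_symm (x 3) (x 1), sq_symm (x 4) (x 1), sq_symm (x 3) (x 2),
    sq_symm (x 4) (x 2), sq_symm (x 4) (x 3), sq_symm (c 1) (c 0), sq_symm (c 2) (c 0),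
    sq_symm (c 3) (c 0), sq_symm (c 4) (c 0), sq_symm (c 2) (c 1), sq_symm (c 3) (c 1),
    sq_symm (c 4) (c 1), sq_symm (c 3) (c 2), sq_symm (c 4) (c 2), sq_symm (c 4) (c 3)]
    at X3 X4 C3 C4 D0 D1 D2 D3 D4 O34 O43 O01 O10 O02 O20 O12 O21
  refine key_alg (a 0) (a 1) (a 2) (a 3) (a 4) (d 0) (d 1) (d 2) (d 3) (d 4)
    (sq (x 0) (x 1)) (sq (x 0) (x 2)) (sq (x 1) (x 2)) (sq (x 0) (x 3)) (sq (x 1) (x 3))
    (sq (x 2) (x 3)) (sq (x 0) (x 4)) (sq (x 1) (x 4)) (sq (x 2) (x 4)) (sq (x 3) (x 4))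
    (sq (c 0) (c 1)) (sq (c 0) (c 2)) (sq (c 1) (c 2)) (sq (c 0) (c 3)) (sq (c 1) (c 3))
    (sq (c 2) (c 3)) (sq (c 0) (c 4)) (sq (c 1) (c 4)) (sq (c 2) (c 4)) (sq (c 3) (c 4))
    (ha 0) (ha 1) (ha 2) (ha 3) (ha 4) hs ?_ ?_ ?_ ?_ ?_ ?_ ?_ ?_ ?_ ?_ ?_ ?_ ?_ ?_ ?_ ?_ ?_
  · linear_combination X3
  · linear_combination X4
  · linear_combination C3
  · linear_combination C4
  · linear_combination D3
  · linear_combination D4
  · linear_combination O34
  · linear_combination O43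
  · linear_combination D0
  · linear_combination D1
  · linear_combination D2
  · linear_combination O01
  · linear_combination O10
  · linear_combination O02
  · linear_combination O20
  · linear_combination O12
  · linear_combination O21

/-- The identity for an arbitrary pair. -/
theorem Kij (x c : Fin 5 → Fin 3 → ℝ) (d a : Fin 5 → ℝ)
    (hd : ∀ i, sq (x i) (c i) = 1 + d i) (ho : ∀ i j, i ≠ j → sq (x i) (c j) = 1)
    (ha : ∀ i, a i * d i = 1) (i j : Fin 5) (hij : i ≠ j) :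
    (8 - d i) * (8 - d j) = 4 * (4 - sq (x i) (x j)) * (4 - sq (c i) (c j)) := by
  obtain ⟨σ, h3, h4⟩ : ∃ σ : Equiv.Perm (Fin 5), σ 3 = i ∧ σ 4 = j := by
    revert i j; decide +kernel
  have := K34 (fun k => x (σ k)) (fun k => c (σ k)) (fun k => d (σ k)) (fun k => a (σ k))
    (fun k => hd _) (fun k l hkl => ho _ _ (fun h => hkl (σ.injective h))) (fun k => ha _)
  simpa only [h3, h4] using this

/-- Squared distance at most four from a common neighbour at distance one. -/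
theorem sq_le_four (p q r : Fin 3 → ℝ) (h1 : sq p r = 1) (h2 : sq q r = 1) : sq p q ≤ 4 := by
  unfold sq at *
  nlinarith [sq_nonneg ((p 0 - r 0) + (q 0 - r 0)), sq_nonneg ((p 1 - r 1) + (q 1 - r 1)),
    sq_nonneg ((p 2 - r 2) + (q 2 - r 2))]

/-- The core theorem in coordinates. -/
theorem core (x c : Fin 5 → Fin 3 → ℝ) (ho : ∀ i j, i ≠ j → sq (x i) (c j) = 1) :
    ∃ i, sq (x i) (c i) = 1 := by
  by_contra hcon
  push Not at hcon
  set d : Fin 5 → ℝ := fun i => sq (x i) (c i) - 1 with hddef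
  set a : Fin 5 → ℝ := fun i => (d i)⁻¹ with hadef
  have hd : ∀ i, sq (x i) (c i) = 1 + d i := fun i => by simp [hddef]
  have hd0 : ∀ i, d i ≠ 0 := fun i => by
    simp only [hddef]; exact sub_ne_zero.mpr (hcon i)
  have ha : ∀ i, a i * d i = 1 := fun i => inv_mul_cancel₀ (hd0 i)
  have m := moments x c d a hd ho ha
  by_cases hneg : ∃ j, d j < 0
  · obtain ⟨j, hj⟩ := hneg
    by_cases hneg2 : ∃ i, i ≠ j ∧ d i < 0
    · obtain ⟨i, hij, hi⟩ := hneg2
      have hK := Kij x c d a hd ho ha i j hij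
      obtain ⟨k, hki, hkj⟩ : ∃ k : Fin 5, k ≠ i ∧ k ≠ j := by
        clear hK hi hj hij
        revert i j; decide +kernel
      have hX : sq (x i) (x j) ≤ 4 :=
        sq_le_four _ _ (c k) (ho i k (Ne.symm hki)) (ho j k (Ne.symm hkj))
      have hC : sq (c i) (c j) ≤ 4 :=
        sq_le_four _ _ (x k) (by rw [sq_symm]; exact ho k i hki)
          (by rw [sq_symm]; exact ho k j hkj)
      have hX0 := sq_nonneg' (x i) (x j)
      have hC0 := sq_nonneg' (c i) (c j)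
      nlinarith [mul_pos (neg_pos.mpr hi) (neg_pos.mpr hj), mul_nonneg hX0 (sub_nonneg.mpr hC),
        mul_nonneg hX0 hC0]
    · push Not at hneg2
      have h5 := r5 m j
      have : 0 ≤ ∑ k, a k * ((x k 0 - x j 0 + (c k 0 - c j 0)) ^ 2
          + (x k 1 - x j 1 + (c k 1 - c j 1)) ^ 2 + (x k 2 - x j 2 + (c k 2 - c j 2)) ^ 2) := by
        refine Finset.sum_nonneg fun k _ => ?_
        by_cases hk : k = j
        · subst hk; simp
        · have : 0 < d k := lt_of_le_of_ne (hneg2 k hk) (Ne.symm (hd0 k))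
          have : 0 < a k := inv_pos.mpr this
          positivity
      linarith
  · push Not at hneg
    have h1 := r1 m
    have hpos : ∀ k, 0 < a k := fun k =>
      inv_pos.mpr (lt_of_le_of_ne (hneg k) (Ne.symm (hd0 k)))
    have : 0 < ∑ k, a k := Finset.sum_pos (fun k _ => hpos k) Finset.univ_nonempty
    linarith

/-- Distance one in `EuclideanSpace` in terms of `sq`. -/
theorem dist_eq_one_iff (p q : EuclideanSpace ℝ (Fin 3)) :
    dist p q = 1 ↔ sq (fun i => p i) (fun i => q i) = 1 := by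
  rw [EuclideanSpace.dist_eq, Real.sqrt_eq_one]
  simp [Fin.sum_univ_three, Real.dist_eq, sq_abs, sq]

/-- Five unit spheres, every four of which share a point, share a point. -/
theorem five (x c : Fin 5 → EuclideanSpace ℝ (Fin 3))
    (h : ∀ i j, i ≠ j → dist (x i) (c j) = 1) : ∃ i, dist (x i) (c i) = 1 := by
  obtain ⟨i, hi⟩ := core (fun i k => x i k) (fun i k => c i k)
    (fun i j hij => (dist_eq_one_iff _ _).mp (h i j hij))
  exact ⟨i, (dist_eq_one_iff _ _).mpr hi⟩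

/-- The set version for exactly five centres. -/
theorem five_set (T : Set (EuclideanSpace ℝ (Fin 3))) (hT : T.encard = 5)
    (h4 : ∀ T' ⊆ T, T'.encard = 4 → ∃ p : EuclideanSpace ℝ (Fin 3), ∀ c ∈ T', dist p c = 1) :
    ∃ p : EuclideanSpace ℝ (Fin 3), ∀ c ∈ T, dist p c = 1 := by
  have hfin : T.Finite := Set.finite_of_encard_eq_coe (k := 5) (by exact_mod_cast hT)
  have hcard : Nat.card T = 5 := by
    have : (T.ncard : ℕ∞) = 5 := by rw [hfin.cast_ncard_eq, hT]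
    have h' : T.ncard = 5 := by exact_mod_cast this
    rw [← h']; rfl
  have : Finite T := hfin
  let e : T ≃ Fin 5 := Finite.equivFinOfCardEq hcard
  let c : Fin 5 → EuclideanSpace ℝ (Fin 3) := fun i => (e.symm i : EuclideanSpace ℝ (Fin 3))
  have hcinj : Function.Injective c := fun i j hij => e.symm.injective (Subtype.ext hij)
  have hx : ∀ i : Fin 5, ∃ p : EuclideanSpace ℝ (Fin 3), ∀ j, i ≠ j → dist p (c j) = 1 := by
    intro i
    have hmem : c i ∈ T := (e.symm i).2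
    have henc : (T \ {c i}).encard = 4 := by
      have := Set.encard_sdiff_singleton_add_one hmem
      rw [hT] at this
      have h5 : (5 : ℕ∞) = 4 + 1 := by norm_num
      rw [h5] at this
      exact ENat.add_left_injective_of_ne_top (by simp) this
    obtain ⟨p, hp⟩ := h4 (T \ {c i}) Set.sdiff_subset henc
    refine ⟨p, fun j hij => hp _ ⟨(e.symm j).2, ?_⟩⟩
    intro hji
    exact hij (hcinj (Set.mem_singleton_iff.mp hji)).symm
  choose x hx using hx
  obtain ⟨i, hi⟩ := five x c (fun i j hij => hx i j hij)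
  refine ⟨x i, fun t ht => ?_⟩
  have ht' : t = c (e ⟨t, ht⟩) := by simp [c]
  rw [ht']
  by_cases hij : i = e ⟨t, ht⟩
  · rw [← hij]; exact hi
  · exact hx i _ hij

open scoped RealInnerProductSpace in
/-- Unit spheres as linear equations on the lift: `|p|² - 2⟪c,p⟫ + |c|² - 1 = 0`. -/
theorem dist_eq_one_iff_inner (p c : EuclideanSpace ℝ (Fin 3)) :
    dist p c = 1 ↔ ‖p‖ ^ 2 + (-2 * ⟪c, p⟫) + (‖c‖ ^ 2 - 1) = 0 := by
  have h := norm_sub_sq_real p c
  rw [real_inner_comm] at h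
  rw [dist_eq_norm]
  constructor
  · intro hd
    rw [hd] at h
    linarith
  · intro he
    have : ‖p - c‖ ^ 2 = 1 := by linarith
    have h0 := norm_nonneg (p - c)
    nlinarith

/-- If every five unit spheres of the family share a point, then all of them do. -/
theorem all_of_five (S : Set (EuclideanSpace ℝ (Fin 3))) (hS : 5 ≤ S.encard)
    (h5 : ∀ T ⊆ S, T.encard = 5 → ∃ p : EuclideanSpace ℝ (Fin 3), ∀ c ∈ T, dist p c = 1) :
    ∃ p : EuclideanSpace ℝ (Fin 3), ∀ c ∈ S, dist p c = 1 := by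
  classical
  let v : EuclideanSpace ℝ (Fin 3) → ℝ × (EuclideanSpace ℝ (Fin 3) × ℝ) :=
    fun c => (1, c, ‖c‖ ^ 2 - 1)
  have hvinj : Function.Injective v := fun a b hab => by
    have := congrArg (fun w => w.2.1) hab
    exact this
  let L : EuclideanSpace ℝ (Fin 3) → (ℝ × (EuclideanSpace ℝ (Fin 3) × ℝ)) →ₗ[ℝ] ℝ := fun p =>
    { toFun := fun w => w.1 * ‖p‖ ^ 2 + (-2 * inner ℝ w.2.1 p) + w.2.2
      map_add' := by
        intro w w'
        simp only [Prod.fst_add, Prod.snd_add, inner_add_left]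
        ring
      map_smul' := by
        intro r w
        simp only [Prod.smul_fst, Prod.smul_snd, real_inner_smul_left, smul_eq_mul,
          RingHom.id_apply]
        ring }
  have hL : ∀ p c, dist p c = 1 ↔ L p (v c) = 0 := by
    intro p c
    rw [dist_eq_one_iff_inner]
    simp [L, v]
  obtain ⟨b, hbS, hbspan, hbind⟩ := exists_linearIndependent ℝ (v '' S)
  -- `b` has at most five elements
  have hbcard : b.encard ≤ 5 := by
    have hfr : Module.finrank ℝ (ℝ × (EuclideanSpace ℝ (Fin 3) × ℝ)) = 5 := by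
      rw [Module.finrank_prod, Module.finrank_prod, finrank_euclideanSpace_fin]
      simp
    have hfinb : b.Finite := hbind.setFinite
    have := hfinb.fintype
    have := hbind.fintype_card_le_finrank
    rw [hfr] at this
    rw [Set.encard_eq_coe_toFinset_card, Set.toFinset_card]
    exact_mod_cast this
  let T0 : Set (EuclideanSpace ℝ (Fin 3)) := S ∩ v ⁻¹' b
  have hT0 : v '' T0 = b := by
    ext w
    constructor
    · rintro ⟨c, ⟨_, hc⟩, rfl⟩; exact hc
    · intro hw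
      obtain ⟨c, hcS, rfl⟩ := hbS hw
      exact ⟨c, ⟨hcS, hw⟩, rfl⟩
  have hT0card : T0.encard ≤ 5 := by
    rw [← hvinj.encard_image T0, hT0]; exact hbcard
  obtain ⟨T, hT0T, hTS, hT5⟩ := Set.exists_superset_subset_encard_eq
    (Set.inter_subset_left : T0 ⊆ S) hT0card hS
  obtain ⟨p, hp⟩ := h5 T hTS hT5
  refine ⟨p, fun c hc => ?_⟩
  rw [hL]
  have hmem : v c ∈ Submodule.span ℝ b := by
    rw [hbspan]; exact Submodule.subset_span ⟨c, hc, rfl⟩
  have hle : Submodule.span ℝ b ≤ LinearMap.ker (L p) := by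
    rw [Submodule.span_le]
    intro w hw
    rw [← hT0] at hw
    obtain ⟨c', hc', rfl⟩ := hw
    exact LinearMap.mem_ker.mpr ((hL p c').mp (hp c' (hT0T hc')))
  exact LinearMap.mem_ker.mp (hle hmem)

/-- Maehara's conjecture in dimension three. -/
theorem maehara3 (S : Set (EuclideanSpace ℝ (Fin 3))) (hS : 5 ≤ S.encard)
    (h4 : ∀ T ⊆ S, T.encard = 4 → ∃ p : EuclideanSpace ℝ (Fin 3), ∀ c ∈ T, dist p c = 1) :
    ∃ p : EuclideanSpace ℝ (Fin 3), ∀ c ∈ S, dist p c = 1 :=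
  all_of_five S hS fun T hTS hT => five_set T hT fun T' hT' hc =>
    h4 T' (hT'.trans hTS) hc

end Run7.h436.UnitSpheres
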